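import Pool.Agent.H42.SH.Compl
import Pool.Agent.H65.AF.Comb

/-!
ROW Split (about 90 lines). PROOF of `split`: `complete` with `ι := Fin (C.length + D.length)` (or `Fin (C ++ D).length`), the atoms are the formulas of the literals of `C ++ D` (`.var` or `.neg (.var)`), one hypothesis (`K := Unit`)
`cnT true (List.ofFn fun i => .at i)`, conclusion `cnT true [cnT true (first C.length atoms), cnT true (the other atoms)]`. Sizes: `∑ (size + 1) ≤ 24`, formulas at most 19; `δ := 3`. `2 ^ (C.length + D.length) ≤ 2 ^ 8`.
`clause_size`, `clause_depth`: `size_cnL`, `depth_cnL_le`. `r_side`: `r_lift []`, then `r_weak [cnL true []]`.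
-/

set_option autoImplicit false

namespace ACpHier

open ACpFrege

variable {p : ℕ} {F : CNF} {d : ℕ}

private def sLit (l : Lit) : Fm p := if l.2 then .var l.1 else .neg (.var l.1)

private theorem sLit_size (l : Lit) : (sLit (p := p) l).size ≤ 2 := by
  unfold sLit
  split_ifs
  · show (1 : ℕ) ≤ 2
    omega
  · rw [size_neg]
    show (1 : ℕ) + 1 ≤ 2
    omega

private theorem sLit_depth (l : Lit) : (sLit (p := p) l).depth ≤ 1 := by
  unfold sLit
  split_ifs
  · show (0 : ℕ) ≤ 1
    omega
  · exact depth_neg_le _

private theorem sSum (C : List Lit) : ((C.map (sLit (p := p))).map Fm.size).sum ≤ 2 * C.length := by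
  induction C with
  | nil => simp
  | cons l C ih =>
    rw [List.map_cons, List.map_cons, List.sum_cons, List.length_cons]
    have := sLit_size (p := p) l
    omega

private theorem sCl (C : List Lit) : clauseFm (p := p) C = cnL true (C.map sLit) := rfl

theorem clause_size (C : List Lit) (hC : C.length ≤ 8) : (clauseFm (p := p) C).size ≤ 17 ∧
    (C.length ≤ 4 → (clauseFm (p := p) C).size ≤ 9) := by
  have h := sSum (p := p) C
  rw [sCl, size_cnL]
  exact ⟨by omega, fun h' => by omega⟩

theorem clause_depth (C : List Lit) : (clauseFm (p := p) C).depth ≤ 2 := by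
  rw [sCl]
  refine depth_cnL_le (e := 1) ?_
  intro A hA
  obtain ⟨l, _, rfl⟩ := List.mem_map.1 hA
  exact sLit_depth l

private def sA (C D : List Lit) : Fin C.length ⊕ Fin D.length → Fm p
  | .inl i => sLit (C.get i)
  | .inr j => sLit (D.get j)

private def sL (C D : List Lit) : List (Tm (Fin C.length ⊕ Fin D.length)) :=
  (List.finRange C.length).map fun i => .at (.inl i)

private def sR (C D : List Lit) : List (Tm (Fin C.length ⊕ Fin D.length)) :=
  (List.finRange D.length).map fun j => .at (.inr j)

private theorem sL_sb (C D : List Lit) : (sL C D).map (Tm.sb (sA (p := p) C D)) = C.map sLit := by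
  unfold sL
  rw [List.map_map]
  have h : (Tm.sb (sA (p := p) C D)) ∘ (fun i : Fin C.length => (Tm.at (Sum.inl i) : Tm (Fin C.length ⊕ Fin D.length))) =
      sLit ∘ C.get := by
    funext i
    rfl
  rw [h, ← List.map_map]
  congr 1
  exact List.map_get_finRange C

private theorem sR_sb (C D : List Lit) : (sR C D).map (Tm.sb (sA (p := p) C D)) = D.map sLit := by
  unfold sR
  rw [List.map_map]
  have h : (Tm.sb (sA (p := p) C D)) ∘ (fun i : Fin D.length => (Tm.at (Sum.inr i) : Tm (Fin C.length ⊕ Fin D.length))) =
      sLit ∘ D.get := by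
    funext i
    rfl
  rw [h, ← List.map_map]
  congr 1
  exact List.map_get_finRange D

theorem split (C D : List Lit) (hC : C.length ≤ 4) (hD : D.length ≤ 4) (hd : 8 ≤ d) :
    Rch (p := p) F d (2 ^ 8 * (30 * 60 ^ 2)) {clauseFm (C ++ D)} {cnL true [clauseFm C, clauseFm D]} := by
  have e1 : (cnT true (sL C D ++ sR C D)).sb (sA (p := p) C D) = clauseFm (C ++ D) := by
    rw [sb_cnT, List.map_append, sL_sb, sR_sb, sCl, List.map_append]
  have e2 : (cnT true [cnT true (sL C D), cnT true (sR C D)]).sb (sA (p := p) C D) =
      cnL true [clauseFm C, clauseFm D] := by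
    rw [sb_cnT, List.map_cons, List.map_cons, List.map_nil, sb_cnT, sb_cnT, sL_sb, sR_sb, sCl, sCl]
  have hCD : (C ++ D).length ≤ 8 := by
    rw [List.length_append]
    omega
  have hat : ∑ i, ((sA (p := p) C D i).size + 1) ≤ 24 := by
    have h1 : ∑ i, ((sA (p := p) C D i).size + 1) ≤ ∑ _i : Fin C.length ⊕ Fin D.length, 3 := by
      refine Finset.sum_le_sum fun i _ => ?_
      rcases i with i | j
      · have := sLit_size (p := p) (C.get i)
        show (sLit (p := p) (C.get i)).size + 1 ≤ 3
        omega
      · have := sLit_size (p := p) (D.get j)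
        show (sLit (p := p) (D.get j)).size + 1 ≤ 3
        omega
    rw [Finset.sum_const, Finset.card_univ, Fintype.card_sum, Fintype.card_fin, Fintype.card_fin, smul_eq_mul] at h1
    omega
  have hs1 := (clause_size (p := p) (C ++ D) hCD).1
  have hs2 := (clause_size (p := p) C (by omega)).2 hC
  have hs3 := (clause_size (p := p) D (by omega)).2 hD
  have hdc : (cnL true [clauseFm (p := p) C, clauseFm D]).depth ≤ 3 := by
    refine depth_cnL_le (e := 2) ?_
    intro A hA
    rcases List.mem_cons.1 hA with h | h
    · rw [h]
      exact clause_depth C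
    · rw [List.mem_singleton.1 h]
      exact clause_depth D
  have h := complete (F := F) (d := d) (K := Unit) (sA (p := p) C D) (fun _ => cnT true (sL C D ++ sR C D))
    (cnT true [cnT true (sL C D), cnT true (sR C D)]) (by
      intro σ hσ
      have h1 := (tr_cnT_true σ _).1 (hσ ())
      obtain ⟨T, hT, hTr⟩ := h1
      rw [tr_cnT_true]
      rcases List.mem_append.1 hT with h2 | h2
      · exact ⟨cnT true (sL C D), List.mem_cons_self, (tr_cnT_true σ _).2 ⟨T, h2, hTr⟩⟩
      · exact ⟨cnT true (sR C D), List.mem_cons_of_mem _ List.mem_cons_self, (tr_cnT_true σ _).2 ⟨T, h2, hTr⟩⟩)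
    (δ := 3) (Z := 60)
    (by
      intro i
      rcases i with i | j
      · exact (sLit_depth (C.get i)).trans (by omega)
      · exact (sLit_depth (D.get j)).trans (by omega))
    (by
      intro _
      rw [e1]
      exact (clause_depth _).trans (by omega))
    (by
      rw [e2]
      exact hdc)
    (by omega)
    (by
      intro _
      rw [e1]
      omega)
    (by
      rw [e2, size_cnL]
      simp only [List.map_cons, List.map_nil, List.sum_cons, List.sum_nil]
      omega)
  rw [e2] at h
  refine Rch.mono h ?_ (le_refl _) ?_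
  · rintro x ⟨_, rfl⟩
    rw [e1]
    rfl
  · refine Nat.mul_le_mul_right _ (Nat.pow_le_pow_right (by omega) ?_)
    rw [Fintype.card_sum, Fintype.card_fin, Fintype.card_fin]
    omega

theorem r_side (A : Fm p) (hA : A.size ≤ 9) (hA' : A.depth ≤ 2) (hd : 8 ≤ d) : Rch F d 40 {A} {cnL true [A, cnL true []]} := by
  have hn : (cnL true ([] : List (Fm p))).depth ≤ 2 := (depth_cnL_le (e := 0) (by intro B hB; cases hB)).trans (by omega)
  have h1 := r_lift (F := F) (d := d) (H := {A}) [] (A := A) rfl
    ((depth_cnL_le (e := 2) (by
      intro B hB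
      rw [List.nil_append] at hB
      rw [List.mem_singleton.1 hB]
      exact hA')).trans (by omega))
  have h2 := Rch.trans h1 (r_weak (F := F) (d := d) (Γ := [] ++ [A]) [cnL true []] (Or.inr rfl)
    ((depth_cnL_le (e := 2) (by
      intro B hB
      rw [List.nil_append] at hB
      rcases List.mem_append.1 hB with h | h
      · rw [List.mem_singleton.1 h]
        exact hA'
      · rw [List.mem_singleton.1 h]
        exact hn)).trans (by omega)))
  refine Rch.mono h2 (le_refl _) ?_ ?_
  · intro x hx
    right
    exact hx
  · rw [size_cnL, size_cnL]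
    simp only [List.nil_append, List.map_append, List.map_cons, List.map_nil, List.sum_append, List.sum_cons, List.sum_nil, size_cnL]
    omega

end ACpHier
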