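import Pool.Agent.H42.SH.Tree
import Pool.Agent.H42.SH.Split
import Pool.Agent.H56.AF.Cnf

/-!
ROW CombU (about 180 lines): refutation of the combination of `ASM M 3` and `ASM M 4`. PROOF. Put `n := nv M 3`, `F := combC n (ASM M 3) (ASM M 4)`, `d := 2 h + 8`, `U := (h + 2) * (5 * (r ^ h) ^ 2 * cst 4 r 20 h)` (`cst 3 .. ≤ cst 4 ..`, and `2 ^ 8 * (30 * 60 ^ 2) + 17 ≤ U`).
(A) for all `C ∈ ASM M 3`, `D ∈ ASM M 4`: `Rch.clause` gives `clauseFm (C ++ shiftC n D)` (`mem_combC`), `split` gives `cnL true [clauseFm C, clauseFm (shiftC n D)]`; `Rch.biUnion` over `(ASM M 3).toFinset ×ˢ (ASM M 4).toFinset`.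
(B) for all `D`: `thmU` with `q = 3`, `s = 0`, `B := clauseFm (shiftC n D)`, `S := 20` (`shiftC 0 C = C`, so `HC` is contained in what (A) gives): `B`. (C) `r_side`: `cnL true [clauseFm (shiftC n D), cnL true []]`, these are the lines `HC p 4 n M (cnL true [])`.
(D) `thmU` with `q = 4`, `s = n`, `B := cnL true []`, `S := 20`: `cnL true []`. `Rch.refute`. Costs: `(ASM M q).length ≤ (ASM M q).size ≤ 50 * (q + 1) ^ 3 * (M + 1) ^ 2` (`ASM_size`; `List.toFinset_card_le`), i.e. `3200 (M+1)^2` and `6250 (M+1)^2`: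
total at most `20000000 (M+1)^4 U + 6250 (M+1)^2 U + 6250 (M+1)^2 * 40 + U`. Clause lengths: `ASM_length` of Pool/Agent/H65/AF/Assemble.lean (copy its proof here, private).
-/

set_option autoImplicit false

namespace ACpHier

open ACpFrege ACpB

private theorem CombU_ASM_length {M q : ℕ} (hq : q ≤ 4) : ∀ C ∈ ASM M q, C.length ≤ 4 := by
  have h1 : ∀ (ν : Vr M), ∀ C ∈ oneC q ν, C.length ≤ 4 := by
    intro ν C hC
    unfold oneC at hC
    rw [List.mem_cons] at hC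
    rcases hC with rfl | hC
    · unfold vals
      simpa using hq
    · simp only [List.mem_flatMap, List.mem_map] at hC
      obtain ⟨_, _, _, _, rfl⟩ := hC
      simp
  have h2 : ∀ (ν : Vr M) (c : ZMod q), ∀ C ∈ cstC q ν c, C.length ≤ 4 := by
    intro ν c C hC
    unfold cstC at hC
    rw [List.mem_singleton] at hC
    subst hC
    simp
  have h3 : ∀ (ν₁ ν₂ ν₃ : Vr M), ∀ C ∈ addC q ν₁ ν₂ ν₃, C.length ≤ 4 := by
    intro ν₁ ν₂ ν₃ C hC
    unfold addC at hC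
    simp only [List.mem_flatMap, List.mem_map] at hC
    obtain ⟨_, _, _, _, _, _, rfl⟩ := hC
    simp
  intro C hC
  unfold ASM at hC
  simp only [List.mem_append, List.mem_flatMap] at hC
  rcases hC with ((⟨ν, _, hC⟩ | ⟨v, _, (hC | hC) | hC⟩) | ⟨u, _, v, _, hC⟩) | ⟨v, _, t, _, hC⟩
  · exact h1 ν C hC
  · exact h2 _ _ C hC
  · exact h2 _ _ C hC
  · exact h2 _ _ C hC
  · exact h3 _ _ _ C hC
  · exact h3 _ _ _ C hC

private theorem CombU_card (F : CNF) : F.toFinset.card ≤ F.size := by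
  refine (List.toFinset_card_le _).trans ?_
  unfold CNF.size
  induction F with
  | nil => simp
  | cons C F ih =>
    rw [List.length_cons, List.map_cons, List.sum_cons]
    omega

private theorem CombU_shift_len (n : ℕ) (D : List Lit) : (shiftC n D).length = D.length := by
  unfold shiftC
  simp

private theorem CombU_shift0 (C : List Lit) : shiftC 0 C = C := by
  unfold shiftC
  simp

private theorem CombU_sz (r h : ℕ) : 20 ≤ sz 4 r 20 h := by
  unfold sz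
  exact Nat.le_mul_of_pos_left _ (by positivity)

private theorem CombU_sz34 (r h : ℕ) : sz 3 r 20 h ≤ sz 4 r 20 h := by
  unfold sz
  exact Nat.mul_le_mul_right _ (Nat.pow_le_pow_left (by norm_num) _)

private theorem CombU_cst34 (r h : ℕ) : cst 3 r 20 h ≤ cst 4 r 20 h := by
  unfold cst
  refine Nat.mul_le_mul (Nat.pow_le_pow_right (by norm_num) ?_) (Nat.mul_le_mul_left _ (Nat.pow_le_pow_left ?_ 2))
  · have : 3 * r ^ 2 * 3 ≤ 3 * r ^ 2 * 4 := Nat.mul_le_mul_left _ (by norm_num)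
    omega
  · exact Nat.mul_le_mul (Nat.mul_le_mul_left _ (by norm_num)) (CombU_sz34 r h)

private theorem CombU_big (r h : ℕ) (hr : 1 ≤ r) : 27648017 ≤ cst 4 r 20 h := by
  unfold cst
  have h1 : 1 ≤ r ^ 2 := Nat.one_le_pow _ _ hr
  have h2 : 60 * 1 * 4 ^ 4 * 20 ≤ 60 * r ^ 2 * 4 ^ 4 * sz 4 r 20 h :=
    Nat.mul_le_mul (Nat.mul_le_mul_right _ (Nat.mul_le_mul_left _ h1)) (CombU_sz r h)
  have h3 : (60 * 1 * 4 ^ 4 * 20) ^ 2 ≤ (60 * r ^ 2 * 4 ^ 4 * sz 4 r 20 h) ^ 2 := Nat.pow_le_pow_left h2 2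
  calc 27648017 ≤ 1 * (30 * (60 * 1 * 4 ^ 4 * 20) ^ 2) := by norm_num
    _ ≤ _ := Nat.mul_le_mul (Nat.one_le_two_pow) (Nat.mul_le_mul_left _ h3)

private theorem CombU_num {X U c3 c4 U3 u : ℕ} (hX : 1 ≤ X) (h3 : c3 ≤ 3200 * X) (h4 : c4 ≤ 6250 * X) (hU3 : U3 ≤ U)
    (hu : u ≤ U) (h40 : 40 ≤ U) : c4 * (c3 * u + U3 + 40) + U ≤ 10 ^ 8 * X ^ 2 * U := by
  have e1 : c3 * u ≤ 3200 * X * U := Nat.mul_le_mul h3 hu
  have e2 : c3 * u + U3 + 40 ≤ 3200 * X * U + 2 * U := by omega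
  have e3 : c4 * (c3 * u + U3 + 40) ≤ 6250 * X * (3200 * X * U + 2 * U) := Nat.mul_le_mul h4 e2
  have e4 : X ≤ X ^ 2 := by nlinarith
  have e5 : X * U ≤ X ^ 2 * U := Nat.mul_le_mul_right _ e4
  have e6 : U ≤ X ^ 2 * U := Nat.le_mul_of_pos_left _ (by positivity)
  calc c4 * (c3 * u + U3 + 40) + U ≤ 6250 * X * (3200 * X * U + 2 * U) + U := Nat.add_le_add_right e3 _
    _ = 20000000 * (X ^ 2 * U) + 12500 * (X * U) + U := by ring
    _ ≤ 20000000 * (X ^ 2 * U) + 12500 * (X ^ 2 * U) + X ^ 2 * U := by omega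
    _ ≤ 10 ^ 8 * (X ^ 2 * U) := by nlinarith
    _ = 10 ^ 8 * X ^ 2 * U := by ring

theorem combU (p M r h : ℕ) (hM : 0 < M) (hr : 1 ≤ r) (hMr : M ≤ r ^ h) :
    ∃ π : List (Fm p), Refutes (S0 p) (2 * h + 8) (combC (nv M 3) (ASM M 3) (ASM M 4)) π ∧
      psize π ≤ 10 ^ 8 * (M + 1) ^ 4 * ((h + 2) * (5 * (r ^ h) ^ 2 * cst 4 r 20 h)) := by
  set n := nv M 3 with hn
  set F := combC n (ASM M 3) (ASM M 4) with hF
  set U := (h + 2) * (5 * (r ^ h) ^ 2 * cst 4 r 20 h) with hU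
  have hd8 : 8 ≤ 2 * h + 8 := by omega
  have hrh : 1 ≤ (r ^ h) ^ 2 := Nat.one_le_pow _ _ (Nat.one_le_pow _ _ hr)
  have hcU : cst 4 r 20 h ≤ U := by
    rw [hU]
    calc cst 4 r 20 h ≤ 5 * (r ^ h) ^ 2 * cst 4 r 20 h := Nat.le_mul_of_pos_left _ (by omega)
      _ ≤ _ := Nat.le_mul_of_pos_left _ (by omega)
  have huU : 27648017 ≤ U := (CombU_big r h hr).trans hcU
  have hU3 : (h + 2) * (5 * (r ^ h) ^ 2 * cst 3 r 20 h) ≤ U :=
    Nat.mul_le_mul_left _ (Nat.mul_le_mul_left _ (CombU_cst34 r h))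
  have l3 := CombU_ASM_length (M := M) (q := 3) (by norm_num)
  have l4 := CombU_ASM_length (M := M) (q := 4) (by norm_num)
  have hA : ∀ C ∈ ASM M 3, ∀ D ∈ ASM M 4,
      Rch (p := p) F (2 * h + 8) 27648017 ∅ {cnL true [clauseFm C, clauseFm (shiftC n D)]} := by
    intro C hC D hD
    have a1 : (shiftC n D).length ≤ 4 := by rw [CombU_shift_len]; exact l4 D hD
    have a2 : (C ++ shiftC n D).length ≤ 8 := by
      rw [List.length_append]
      have := l3 C hC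
      omega
    have a3 : Rch (p := p) F (2 * h + 8) (clauseFm (p := p) (C ++ shiftC n D)).size ∅ {clauseFm (C ++ shiftC n D)} :=
      Rch.clause (mem_combC.2 ⟨C, hC, D, hD, rfl⟩) ((clause_depth _).trans (by omega))
    have a4 := split (p := p) (F := F) (d := 2 * h + 8) C (shiftC n D) (l3 C hC) a1 hd8
    refine Rch.mono (Rch.comp a3 a4) subset_rfl subset_rfl ?_
    have a5 := (clause_size (p := p) _ a2).1
    omega
  have hB : ∀ D ∈ ASM M 4, Rch (p := p) F (2 * h + 8)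
      ((ASM M 3).toFinset.card * 27648017 + (h + 2) * (5 * (r ^ h) ^ 2 * cst 3 r 20 h) + 40) ∅
      {cnL true [clauseFm (shiftC n D), cnL true []]} := by
    intro D hD
    have a1 : (shiftC n D).length ≤ 4 := by rw [CombU_shift_len]; exact l4 D hD
    have s1 : (clauseFm (p := p) (shiftC n D)).size ≤ 9 := (clause_size (p := p) _ (a1.trans (by norm_num))).2 a1
    have d1 : (clauseFm (p := p) (shiftC n D)).depth ≤ 2 := clause_depth _
    have b1 := Rch.biUnion (F := F) (d := 2 * h + 8) (ASM M 3).toFinset (H := ∅)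
      (fun C => ({cnL true [clauseFm C, clauseFm (shiftC n D)]} : Set (Fm p)))
      (fun C hC => hA C (List.mem_toFinset.1 hC) D hD)
    have b2 := thmU (p := p) (q := 3) (F := F) (d := 2 * h + 8) 0 M r h 20 (clauseFm (shiftC n D)) (by norm_num) hM hr hMr d1
      (s1.trans (by norm_num)) le_rfl
    have b3 : HC p 3 0 M (clauseFm (shiftC n D)) ⊆
        ⋃ C ∈ (ASM M 3).toFinset, ({cnL true [clauseFm C, clauseFm (shiftC n D)]} : Set (Fm p)) := by
      rintro A ⟨C, hC, rfl⟩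
      rw [CombU_shift0]
      rw [Set.mem_iUnion₂]
      exact ⟨C, List.mem_toFinset.2 hC, Set.mem_singleton _⟩
    exact Rch.comp (Rch.comp (Rch.mono b1 subset_rfl b3 le_rfl) b2) (r_side _ s1 d1 hd8)
  have b1 := Rch.biUnion (F := F) (d := 2 * h + 8) (ASM M 4).toFinset (H := ∅)
      (fun D => ({cnL true [clauseFm (shiftC n D), cnL true []]} : Set (Fm p)))
      (fun D hD => hB D (List.mem_toFinset.1 hD))
  have b2 := thmU (p := p) (q := 4) (F := F) (d := 2 * h + 8) n M r h 20 (cnL true []) (by norm_num) hM hr hMr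
    (by simp [cnL, Fm.depth, Fm.dep]) (by simp [cnL, Fm.size]) le_rfl
  have b3 : HC p 4 n M (cnL true []) ⊆
        ⋃ D ∈ (ASM M 4).toFinset, ({cnL true [clauseFm (shiftC n D), cnL true []]} : Set (Fm p)) := by
    rintro A ⟨D, hD, rfl⟩
    rw [Set.mem_iUnion₂]
    exact ⟨D, List.mem_toFinset.2 hD, Set.mem_singleton _⟩
  obtain ⟨π, h1, h2⟩ := Rch.refute (Rch.comp (Rch.mono b1 subset_rfl b3 le_rfl) b2)
  refine ⟨π, h1, h2.trans ?_⟩
  have c3 : (ASM M 3).toFinset.card ≤ 3200 * (M + 1) ^ 2 := by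
    have := (CombU_card (ASM M 3)).trans ASM_size
    omega
  have c4 : (ASM M 4).toFinset.card ≤ 6250 * (M + 1) ^ 2 := by
    have := (CombU_card (ASM M 4)).trans ASM_size
    omega
  have := CombU_num (X := (M + 1) ^ 2) (U := U) (Nat.one_le_pow _ _ (by omega)) c3 c4 hU3 huU (by omega)
  calc _ ≤ 10 ^ 8 * ((M + 1) ^ 2) ^ 2 * U := this
    _ = 10 ^ 8 * (M + 1) ^ 4 * U := by ring

end ACpHier
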