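import Pool.Agent.H42.SH.Merge

/-!
ROW Compl (about 80 lines): implicational completeness over atoms. PROOF. `L := Finset.univ.toList`. For every `σ`: if `C` is true: `eval` gives `OR(lits ++ [C])`, cost `≤ 12 Z ^ 2`; otherwise some `Hy k` is false
(`hs`), `eval` gives `OR(lits ++ [neg H_k])`, `r_lift` gives `OR(lits ++ [H_k])`, `r_cut` gives `OR(lits)`, `r_weak` gives `OR(lits ++ [C])`: cost at most `12 Z ^ 2 + 3 Z ≤ 15 Z ^ 2`. `merge` with
`c := 15 Z ^ 2` gives `OR[C]` at cost `2 ^ |ι| * 20 Z ^ 2`, `r_drop` gives `C` (cost `≤ Z`).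
-/

set_option autoImplicit false

namespace ACpHier

open ACpFrege

variable {p : ℕ} {F : CNF} {d : ℕ} {ι : Type} [Fintype ι]

theorem complete {K : Type} (a : ι → Fm p) (Hy : K → Tm ι) (C : Tm ι) (hs : ∀ σ : ι → Prop, (∀ k, (Hy k).tr σ) → C.tr σ)
    {δ Z : ℕ} (ha : ∀ i, (a i).depth ≤ δ) (hk : ∀ k, ((Hy k).sb a).depth ≤ δ) (hC : (C.sb a).depth ≤ δ) (hd : δ + 2 ≤ d)
    (zk : ∀ k, ∑ i, ((a i).size + 1) + ((Hy k).sb a).size + 5 ≤ Z) (zC : ∑ i, ((a i).size + 1) + (C.sb a).size + 5 ≤ Z) :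
    Rch F d (2 ^ Fintype.card ι * (30 * Z ^ 2)) (Set.range fun k => (Hy k).sb a) {C.sb a} := by
  classical
  set L : List ι := Finset.univ.toList with hLd
  have hLm : ∀ i, i ∈ L := fun i => Finset.mem_toList.2 (Finset.mem_univ i)
  have hLn : L.Nodup := Finset.nodup_toList _
  have hLs : (L.map fun i => (a i).size + 1).sum = ∑ i, ((a i).size + 1) := Finset.sum_map_toList _ _
  have hLl : L.length = Fintype.card ι := Finset.length_toList _
  set W : ℕ := ∑ i, ((a i).size + 1) with hW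
  -- sizes
  have hlits : ∀ σ : ι → Prop, ((L.map (lit a σ)).map Fm.size).sum ≤ W := by
    intro σ
    rw [← hLs, List.map_map]
    refine List.sum_le_sum fun i _ => ?_
    show (lit a σ i).size ≤ (a i).size + 1
    unfold lit
    split_ifs
    · exact le_of_eq (size_neg _)
    · exact Nat.le_succ _
  have hsz : ∀ (σ : ι → Prop) (l : List (Fm p)), (cnL true (L.map (lit a σ) ++ l)).size ≤ 1 + (W + (l.map Fm.size).sum) := by
    intro σ l
    rw [size_cnL, List.map_append, List.sum_append]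
    have := hlits σ
    omega
  -- depths
  have hld : ∀ (σ : ι → Prop), ∀ B ∈ L.map (lit a σ), B.depth ≤ δ + 1 := by
    intro σ B hB
    obtain ⟨i, _, rfl⟩ := List.mem_map.1 hB
    unfold lit
    split_ifs
    · exact (depth_neg_le _).trans (Nat.succ_le_succ (ha i))
    · exact (ha i).trans (Nat.le_succ _)
  have hdp : ∀ (σ : ι → Prop) (l : List (Fm p)), (∀ B ∈ l, B.depth ≤ δ + 1) → (cnL true (L.map (lit a σ) ++ l)).depth ≤ d := by
    intro σ l hl
    refine (depth_cnL_le (e := δ + 1) ?_).trans hd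
    intro B hB
    rcases List.mem_append.1 hB with h | h
    · exact hld σ B h
    · exact hl B h
  have hs1 : ∀ B : Fm p, B.depth ≤ δ + 1 → ∀ B' ∈ [B], B'.depth ≤ δ + 1 := by
    intro B hB B' hB'
    rw [List.mem_singleton.1 hB']
    exact hB
  -- the cost of an evaluation
  have hcost : ∀ z : ℕ, W + z + 5 ≤ Z → 6 * z * (2 * W + 2 * z + 10) ≤ 12 * Z ^ 2 := by
    intro z hz
    calc 6 * z * (2 * W + 2 * z + 10) ≤ 6 * Z * (2 * Z) := Nat.mul_le_mul (by omega) (by omega)
      _ = 12 * Z ^ 2 := by ring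
  have hZ1 : 1 ≤ Z := by omega
  have hZZ : Z ≤ Z ^ 2 := by rw [pow_two]; exact Nat.le_mul_of_pos_left _ hZ1
  have main : ∀ σ : ι → Prop, Rch F d (15 * Z ^ 2) (Set.range fun k => (Hy k).sb a)
      {cnL true (L.map (lit a σ) ++ [C.sb a])} := by
    intro σ
    by_cases hCσ : C.tr σ
    · have h := eval (F := F) (d := d) (H := Set.range fun k => (Hy k).sb a) a L hLm σ C ha hC hd (le_of_eq hLs)
      rw [if_pos hCσ] at h
      refine Rch.mono h (le_refl _) (le_refl _) ?_
      have := hcost _ zC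
      omega
    · have hex : ∃ k, ¬ (Hy k).tr σ := by
        by_contra hne
        push Not at hne
        exact hCσ (hs σ hne)
      obtain ⟨k, hkσ⟩ := hex
      have h1 := eval (F := F) (d := d) (H := Set.range fun k => (Hy k).sb a) a L hLm σ (Hy k) ha (hk k) hd (le_of_eq hLs)
      rw [if_neg hkσ] at h1
      have hkd : ((Hy k).sb a).depth ≤ δ + 1 := (hk k).trans (Nat.le_succ _)
      have hCd : (C.sb a).depth ≤ δ + 1 := hC.trans (Nat.le_succ _)
      have h2 := Rch.trans h1 (r_lift (F := F) (d := d) (L.map (lit a σ)) (A := (Hy k).sb a)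
        (Or.inl ⟨k, rfl⟩) (hdp σ _ (hs1 _ hkd)))
      have h3 := Rch.trans h2 (r_cut (F := F) (d := d) (Γ := L.map (lit a σ)) (A := (Hy k).sb a)
        (Or.inr (Or.inr rfl)) (Or.inr (Or.inl rfl)) (by
          have := hdp σ [] (by intro B hB; cases hB)
          rwa [List.append_nil] at this))
      have h4 := Rch.trans h3 (r_weak (F := F) (d := d) (Γ := L.map (lit a σ)) [C.sb a]
        (Or.inr (Or.inr rfl)) (hdp σ _ (hs1 _ hCd)))
      refine Rch.mono h4 (le_refl _) (fun x hx => Or.inr hx) ?_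
      have e1 := hcost _ (zk k)
      have e2 := hsz σ [(Hy k).sb a]
      have e3 := hsz σ []
      have e4 := hsz σ [C.sb a]
      rw [List.append_nil] at e3
      simp only [List.map_cons, List.map_nil, List.sum_cons, List.sum_nil] at e2 e3 e4
      have z1 := zk k
      omega
  have hm := merge a (C.sb a) ha hC hd L hLn (Z := Z) (by rw [hLs]; exact zC) (15 * Z ^ 2) main
  rw [hLl] at hm
  have hf := Rch.trans hm (r_drop (F := F) (d := d) (A := C.sb a) (Or.inr rfl) (by omega))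
  refine Rch.mono hf (le_refl _) (fun x hx => Or.inr hx) ?_
  have hp2 : 1 ≤ 2 ^ Fintype.card ι := Nat.one_le_two_pow
  have hq : Z ^ 2 ≤ 2 ^ Fintype.card ι * Z ^ 2 := Nat.le_mul_of_pos_left _ hp2
  have hCs : (C.sb a).size ≤ Z := by omega
  calc 2 ^ Fintype.card ι * (15 * Z ^ 2 + 5 * Z ^ 2) + (C.sb a).size
      ≤ 2 ^ Fintype.card ι * (15 * Z ^ 2 + 5 * Z ^ 2) + 2 ^ Fintype.card ι * Z ^ 2 := by omega
    _ ≤ 2 ^ Fintype.card ι * (15 * Z ^ 2 + 5 * Z ^ 2) + 2 ^ Fintype.card ι * (10 * Z ^ 2) := by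
        refine Nat.add_le_add_left (Nat.mul_le_mul_left _ ?_) _
        omega
    _ = 2 ^ Fintype.card ι * (30 * Z ^ 2) := by ring

end ACpHier
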