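import Pool.Agent.H65.AF.Defs

/-!
helper42 (project MP_28250c_SH, strict depth hierarchy): definitions for the upper bound.
`S0` is one finite set of sound rules. `Pf F d π`: `π` is a derivation from `F` in `S0` of depth `d`. `Rch F d c H A`: from the lines in
`H` one derives all lines in `A`, the new lines have total size at most `c`. `Tm ι`: formulas over atoms `ι` (templates). `SumF`: the
formulas for the value of a sum of `Z/q`-valued nodes. `LinF`: every node has exactly one value and a linear equation holds.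
`blk`, `col`: block sums and column sums of the CNF `ASM M q`.
-/

set_option autoImplicit false

namespace ACpHier

open ACpFrege

variable {p : ℕ}

/-! ### The system -/

/-- Disjunction of a list of schemes. -/
def orS (l : List (Sch p)) : Sch p := .cn true l.length l.get

/-- Conjunction of a list of schemes. -/
def andS (l : List (Sch p)) : Sch p := .cn false l.length l.get

/-- The rules (`Γ = sq 0`, `Δ = sq 1`, `Λ = sq 2`, `A = mv 0`). -/
def S0 (p : ℕ) : List (Rule p) :=
  [ ⟨[], orS [.sq 0, .mv 0, .neg (.mv 0)]⟩,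
    ⟨[.mv 0], orS [.sq 0, .mv 0]⟩,
    ⟨[orS [.mv 0]], .mv 0⟩,
    ⟨[orS [.sq 0]], orS [.sq 0, .sq 1]⟩,
    ⟨[orS [.mv 0, .sq 0, .mv 0, .sq 1]], orS [.sq 0, .mv 0, .sq 1]⟩,
    ⟨[orS [.sq 0, .mv 0], orS [.sq 0, .neg (.mv 0)]], orS [.sq 0]⟩,
    ⟨[orS [.sq 0, .mv 0]], orS [.sq 0, .neg (.neg (.mv 0))]⟩,
    ⟨[orS [.sq 0, .mv 0]], orS [.sq 0, orS [.sq 1, .mv 0, .sq 2]]⟩,
    ⟨[], orS [.sq 0, .neg (orS [])]⟩,
    ⟨[orS [.sq 0, .neg (orS [.sq 1])], orS [.sq 0, .neg (.mv 0)]], orS [.sq 0, .neg (orS [.sq 1, .mv 0])]⟩,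
    ⟨[], orS [.sq 0, andS []]⟩,
    ⟨[orS [.sq 0, andS [.sq 1]], orS [.sq 0, .mv 0]], orS [.sq 0, andS [.sq 1, .mv 0]]⟩,
    ⟨[orS [.sq 0, .neg (.mv 0)]], orS [.sq 0, .neg (andS [.sq 1, .mv 0, .sq 2])]⟩ ]

/-- `π` is a derivation from the clauses of `F` in `S0`, all lines have depth at most `d`. -/
inductive Pf (F : CNF) (d : ℕ) : List (Fm p) → Prop
  | nil : Pf F d []
  | snoc (π : List (Fm p)) (A : Fm p) : Pf F d π → A.depth ≤ d → Step (S0 p) F π A → Pf F d (π ++ [A])

/-- From the lines in `H` one derives all lines in `A` at cost at most `c`. -/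
def Rch (F : CNF) (d c : ℕ) (H A : Set (Fm p)) : Prop :=
  ∀ π : List (Fm p), Pf F d π → (∀ B ∈ H, B ∈ π) → ∃ ρ : List (Fm p), Pf F d (π ++ ρ) ∧ (∀ B ∈ A, B ∈ π ++ ρ) ∧ psize ρ ≤ c

/-! ### Templates -/

/-- Formulas over the atoms `ι`. -/
inductive Tm (ι : Type) : Type
  | at (i : ι) : Tm ι
  | neg (T : Tm ι) : Tm ι
  | cn (k : Bool) (n : ℕ) (T : Fin n → Tm ι) : Tm ι

/-- Disjunction (`k = true`) or conjunction (`k = false`) of a list of templates. -/
def cnT {ι : Type} (k : Bool) (l : List (Tm ι)) : Tm ι := .cn k l.length l.get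

/-- Substitution of formulas for the atoms. -/
def Tm.sb {ι : Type} (a : ι → Fm p) : Tm ι → Fm p
  | .at i => a i
  | .neg T => .neg (T.sb a)
  | .cn k n T => .cn k n fun i => (T i).sb a

/-- Truth of a template when `σ` tells which atoms are true. -/
def Tm.tr {ι : Type} (σ : ι → Prop) : Tm ι → Prop
  | .at i => σ i
  | .neg T => ¬ T.tr σ
  | .cn true _ T => ∃ i, (T i).tr σ
  | .cn false _ T => ∀ i, (T i).tr σ

/-! ### Sums and equations -/

variable {q : ℕ} [NeZero q]

/-- The sum of the values of the nodes `N i` is `j`: disjunction over all `τ` with sum `j` of the conjunctions of `N i (τ i)`. -/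
noncomputable def SumF {κ : Type} [Fintype κ] [DecidableEq κ] (N : κ → ZMod q → Fm p) (j : ZMod q) : Fm p :=
  cnL true (((Finset.univ : Finset (κ → ZMod q)).filter fun τ => ∑ i, τ i = j).toList.map fun τ =>
    cnL false ((Finset.univ : Finset κ).toList.map fun i => N i (τ i)))

/-- The same for templates. -/
noncomputable def SumT {ι : Type} {κ : Type} [Fintype κ] [DecidableEq κ] (N : κ → ZMod q → Tm ι) (j : ZMod q) : Tm ι :=
  cnT true (((Finset.univ : Finset (κ → ZMod q)).filter fun τ => ∑ i, τ i = j).toList.map fun τ =>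
    cnT false ((Finset.univ : Finset κ).toList.map fun i => N i (τ i)))

/-- Every node `N i` has exactly one value `τ i`, and `∑ c i * τ i = b`. -/
noncomputable def LinF {κ : Type} [Fintype κ] [DecidableEq κ] (N : κ → ZMod q → Fm p) (c : κ → ZMod q) (b : ZMod q) : Fm p :=
  cnL true (((Finset.univ : Finset (κ → ZMod q)).filter fun τ => ∑ i, c i * τ i = b).toList.map fun τ =>
    cnL false ((Finset.univ : Finset (κ × ZMod q)).toList.map fun x => if τ x.1 = x.2 then N x.1 x.2 else .neg (N x.1 x.2)))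

/-- The same for templates. -/
noncomputable def LinT {ι : Type} {κ : Type} [Fintype κ] [DecidableEq κ] (N : κ → ZMod q → Tm ι) (c : κ → ZMod q) (b : ZMod q) :
    Tm ι :=
  cnT true (((Finset.univ : Finset (κ → ZMod q)).filter fun τ => ∑ i, c i * τ i = b).toList.map fun τ =>
    cnT false ((Finset.univ : Finset (κ × ZMod q)).toList.map fun x => if τ x.1 = x.2 then N x.1 x.2 else .neg (N x.1 x.2)))

/-- The node `N` has exactly the value `v`. -/
def Has (N : ZMod q → Prop) (v : ZMod q) : Prop := ∀ j, N j ↔ j = v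

end ACpHier
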