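import Pool.Agent.H42.SH.Fml

/-!
ROW TmL (about 80 lines): templates as lists. PROOFS: `sb_cnT`: unfold `cnT`, `Tm.sb`, then `cn_eq`, `ofFn_get_map`. `Tm.indL`: induction on `T`; `Tm.cn k n T` is
`cnT k (List.ofFn T)` (same proof as `cn_eq`). `tr`: unfold, `List.mem_iff_get`.
-/

/-!
ROW TmL (about 80 lines): templates as lists. PROOFS: `sb_cnT`: unfold `cnT`, `Tm.sb`, then `cn_eq`, `ofFn_get_map`. `Tm.indL`: induction on `T`; `Tm.cn k n T` is
`cnT k (List.ofFn T)` (same proof as `cn_eq`). `tr`: unfold, `List.mem_iff_get`.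
-/

set_option autoImplicit false

namespace ACpHier

open ACpFrege

variable {p : ℕ} {ι : Type}

private theorem TmL_aux (k : Bool) {n m : ℕ} (h : n = m) (A : Fin m → Tm ι) (B : Fin n → Tm ι)
    (hA : ∀ i, B i = A (Fin.cast h i)) : Tm.cn k m A = Tm.cn k n B := by
  subst h
  congr 1
  funext i
  exact (hA i).symm

theorem cnT_eq (k : Bool) (m : ℕ) (T : Fin m → Tm ι) : Tm.cn k m T = cnT k (List.ofFn T) := by
  unfold cnT
  exact TmL_aux k List.length_ofFn T _ fun i => List.get_ofFn T i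

theorem sb_cnT (a : ι → Fm p) (k : Bool) (l : List (Tm ι)) : (cnT k l).sb a = cnL k (l.map (Tm.sb a)) := by
  unfold cnT
  rw [Tm.sb, cn_eq, ofFn_get_map l (Tm.sb a)]

theorem tr_cnT_true (σ : ι → Prop) (l : List (Tm ι)) : (cnT true l).tr σ ↔ ∃ T ∈ l, T.tr σ := by
  unfold cnT
  rw [Tm.tr]
  constructor
  · rintro ⟨i, hi⟩
    exact ⟨l.get i, List.get_mem l i, hi⟩
  · rintro ⟨T, hT, h⟩
    obtain ⟨i, hi⟩ := List.mem_iff_get.1 hT
    exact ⟨i, by rw [hi]; exact h⟩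

theorem tr_cnT_false (σ : ι → Prop) (l : List (Tm ι)) : (cnT false l).tr σ ↔ ∀ T ∈ l, T.tr σ := by
  unfold cnT
  rw [Tm.tr]
  constructor
  · intro h T hT
    obtain ⟨i, hi⟩ := List.mem_iff_get.1 hT
    rw [← hi]
    exact h i
  · intro h i
    exact h _ (List.get_mem l i)

theorem Tm.indL {P : Tm ι → Prop} (ha : ∀ i, P (.at i)) (hn : ∀ T, P T → P (.neg T))
    (hc : ∀ (k : Bool) (l : List (Tm ι)), (∀ T ∈ l, P T) → P (cnT k l)) : ∀ T, P T := by
  intro T
  refine Tm.rec (motive := P) (fun i => ha i) (fun T ih => hn T ih) (fun k n T ih => ?_) T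
  rw [cnT_eq]
  refine hc k _ fun T' hT' => ?_
  obtain ⟨i, hi⟩ := (List.mem_ofFn' T T').1 hT'
  rw [← hi]
  exact ih i

end ACpHier
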