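import Pool.Agent.H42.SH.Str
import Pool.Agent.H42.SH.TmL

/-!
ROW Eval (about 200 lines): evaluation of a template under a full assignment of the atoms.
PROOF. Put `Y := 2 * W + 2 * (T.sb a).size + 10`, `Γ := L.map (lit a σ)`, `(cnL true Γ).size ≤ W + 1`. Prove by `Tm.indL`, for every bound `Y ≥ 2W + 2 (T.sb a).size + 10`, the
cost `(6 * (T.sb a).size - 2) * Y` (4 + 6 (size - 1) lines of size at most `Y`; `(T.sb a).size ≥ 1`):
 atom `i`: `r_em [] (a i)` gives `OR[a i, neg (a i)]`, then `str` (2 members, at most 3 lines of size `≤ Y`) to `Γ ++ [..]`: if `σ i`, `neg (a i) ∈ Γ`; else `a i ∈ Γ`.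
 neg: if `T` is true: `r_nn`; otherwise the line of `T` itself is the wanted line.
 cn true: if a member `T'` is true, `l = l₁ ++ T' :: l₂`: its line and `r_or`; otherwise all lines of the members, `r_nor0` and by induction over the prefixes `r_nor`
   (lines: sum of the members + (n + 1)); `∑ (6 s_i - 2) + n + 1 ≤ 6 (1 + ∑ s_i) - 2`.
 cn false: dual, with `r_nand`, `r_and0`, `r_and`.
Depths: every member of every line has depth at most `δ + 1` (`depth_mem`, `depth_neg_le`, `depth_sub` for the prefixes), so the lines have depth at most `δ + 2` (`depth_cnL_le`).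
-/

set_option autoImplicit false

namespace ACpHier

open ACpFrege

variable {p : ℕ} {F : CNF} {d : ℕ} {H : Set (Fm p)} {ι : Type}

open Classical in
/-- The literal of the atom `i` which is false under `σ`. -/
noncomputable def lit (a : ι → Fm p) (σ : ι → Prop) (i : ι) : Fm p := if σ i then .neg (a i) else a i

private theorem Eval_depth {δ : ℕ} {Γ : List (Fm p)} (hΓ : ∀ A ∈ Γ, A.depth ≤ δ + 1) {B : Fm p} (hB : B.depth ≤ δ + 1)
    (hd : δ + 2 ≤ d) : (cnL true (Γ ++ [B])).depth ≤ d := by
  refine (depth_cnL_le (e := δ + 1) fun A hA => ?_).trans hd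
  rcases List.mem_append.1 hA with h | h
  · exact hΓ A h
  · rw [List.mem_singleton.1 h]
    exact hB

private theorem Eval_size {W : ℕ} {Γ : List (Fm p)} (hΓ : (Γ.map Fm.size).sum ≤ W) (B : Fm p) :
    (cnL true (Γ ++ [B])).size ≤ 1 + W + B.size := by
  rw [size_cnL, List.map_append, List.sum_append, List.map_cons, List.map_nil, List.sum_cons, List.sum_nil]
  omega

private theorem Eval_mono {c c' : ℕ} {A : Set (Fm p)} (h : Rch F d c H A) (hc : c ≤ c') : Rch F d c' H A :=
  h.mono (Set.Subset.refl _) (Set.Subset.refl _) hc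

private theorem Eval_nor {δ W Y : ℕ} {Γ : List (Fm p)} (hΓ : ∀ A ∈ Γ, A.depth ≤ δ + 1) (hs : (Γ.map Fm.size).sum ≤ W)
    (hd : δ + 2 ≤ d) (l : List (Fm p))
    (hl : ∀ A ∈ l, Rch F d ((6 * A.size - 2) * Y) H {cnL true (Γ ++ [.neg A])})
    (h1 : (cnL true l).depth ≤ δ) (h2 : W + (cnL true l).size + 2 ≤ Y) :
    Rch F d ((1 + 6 * (l.map Fm.size).sum) * Y) H {cnL true (Γ ++ [.neg (cnL true l)])} := by
  induction l using List.reverseRecOn with
  | nil =>
    refine Eval_mono (r_nor0 Γ (Eval_depth hΓ ((depth_neg_le _).trans (Nat.succ_le_succ h1)) hd)) ?_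
    have h3 := Eval_size hs (.neg (cnL true ([] : List (Fm p))))
    rw [size_neg] at h3
    have h4 : 1 * Y ≤ (1 + 6 * (([] : List (Fm p)).map Fm.size).sum) * Y := Nat.mul_le_mul_right Y (by omega)
    omega
  | append_singleton l A ih =>
    have d1 : (cnL true l).depth ≤ δ := (depth_sub fun B hB => List.mem_append_left _ hB).trans h1
    have s1 : (cnL true (l ++ [A])).size = (cnL true l).size + A.size := by
      rw [size_cnL, size_cnL, List.map_append, List.sum_append, List.map_cons, List.map_nil, List.sum_cons, List.sum_nil]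
      omega
    have i1 := ih (fun B hB => hl B (List.mem_append_left _ hB)) d1 (by omega)
    have i2 := hl A (List.mem_append_right _ (List.mem_singleton.2 rfl))
    have i3 := Rch.union i1 i2
    have dd : (cnL true (Γ ++ [.neg (cnL true (l ++ [A]))])).depth ≤ d :=
      Eval_depth hΓ ((depth_neg_le _).trans (Nat.succ_le_succ h1)) hd
    have i4 := Rch.comp i3 (r_nor (Δ := l) (A := A) (Or.inl rfl) (Or.inr rfl) dd)
    refine Eval_mono i4 ?_
    have h3 := Eval_size hs (.neg (cnL true (l ++ [A])))
    rw [size_neg] at h3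
    have h5 : (cnL true (Γ ++ [.neg (cnL true (l ++ [A]))])).size ≤ Y := by omega
    have h6 := size_pos A
    have h7 : ((l ++ [A]).map Fm.size).sum = (l.map Fm.size).sum + A.size := by
      rw [List.map_append, List.sum_append, List.map_cons, List.map_nil, List.sum_cons, List.sum_nil]
      omega
    rw [h7]
    have h8 : (6 * A.size - 2) * Y + Y ≤ (6 * A.size) * Y := by
      have h9 : (6 * A.size - 2) * Y + Y = (6 * A.size - 2 + 1) * Y := by ring
      rw [h9]
      exact Nat.mul_le_mul_right Y (by omega)
    calc (1 + 6 * (l.map Fm.size).sum) * Y + (6 * A.size - 2) * Y + (cnL true (Γ ++ [.neg (cnL true (l ++ [A]))])).size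
        ≤ (1 + 6 * (l.map Fm.size).sum) * Y + ((6 * A.size - 2) * Y + Y) := by omega
      _ ≤ (1 + 6 * (l.map Fm.size).sum) * Y + (6 * A.size) * Y := Nat.add_le_add_left h8 _
      _ = (1 + 6 * ((l.map Fm.size).sum + A.size)) * Y := by ring

private theorem Eval_and {δ W Y : ℕ} {Γ : List (Fm p)} (hΓ : ∀ A ∈ Γ, A.depth ≤ δ + 1) (hs : (Γ.map Fm.size).sum ≤ W)
    (hd : δ + 2 ≤ d) (l : List (Fm p))
    (hl : ∀ A ∈ l, Rch F d ((6 * A.size - 2) * Y) H {cnL true (Γ ++ [A])})
    (h1 : (cnL false l).depth ≤ δ) (h2 : W + (cnL false l).size + 2 ≤ Y) :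
    Rch F d ((1 + 6 * (l.map Fm.size).sum) * Y) H {cnL true (Γ ++ [cnL false l])} := by
  induction l using List.reverseRecOn with
  | nil =>
    refine Eval_mono (r_and0 Γ (Eval_depth hΓ (h1.trans (Nat.le_succ _)) hd)) ?_
    have h3 := Eval_size hs (cnL false ([] : List (Fm p)))
    have h4 : 1 * Y ≤ (1 + 6 * (([] : List (Fm p)).map Fm.size).sum) * Y := Nat.mul_le_mul_right Y (by omega)
    omega
  | append_singleton l A ih =>
    have d1 : (cnL false l).depth ≤ δ := (depth_sub fun B hB => List.mem_append_left _ hB).trans h1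
    have s1 : (cnL false (l ++ [A])).size = (cnL false l).size + A.size := by
      rw [size_cnL, size_cnL, List.map_append, List.sum_append, List.map_cons, List.map_nil, List.sum_cons, List.sum_nil]
      omega
    have i1 := ih (fun B hB => hl B (List.mem_append_left _ hB)) d1 (by omega)
    have i2 := hl A (List.mem_append_right _ (List.mem_singleton.2 rfl))
    have i3 := Rch.union i1 i2
    have dd : (cnL true (Γ ++ [cnL false (l ++ [A])])).depth ≤ d := Eval_depth hΓ (h1.trans (Nat.le_succ _)) hd
    have i4 := Rch.comp i3 (r_and (Δ := l) (A := A) (Or.inl rfl) (Or.inr rfl) dd)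
    refine Eval_mono i4 ?_
    have h3 := Eval_size hs (cnL false (l ++ [A]))
    have h5 : (cnL true (Γ ++ [cnL false (l ++ [A])])).size ≤ Y := by omega
    have h6 := size_pos A
    have h7 : ((l ++ [A]).map Fm.size).sum = (l.map Fm.size).sum + A.size := by
      rw [List.map_append, List.sum_append, List.map_cons, List.map_nil, List.sum_cons, List.sum_nil]
      omega
    rw [h7]
    have h8 : (6 * A.size - 2) * Y + Y ≤ (6 * A.size) * Y := by
      have h9 : (6 * A.size - 2) * Y + Y = (6 * A.size - 2 + 1) * Y := by ring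
      rw [h9]
      exact Nat.mul_le_mul_right Y (by omega)
    calc (1 + 6 * (l.map Fm.size).sum) * Y + (6 * A.size - 2) * Y + (cnL true (Γ ++ [cnL false (l ++ [A])])).size
        ≤ (1 + 6 * (l.map Fm.size).sum) * Y + ((6 * A.size - 2) * Y + Y) := by omega
      _ ≤ (1 + 6 * (l.map Fm.size).sum) * Y + (6 * A.size) * Y := Nat.add_le_add_left h8 _
      _ = (1 + 6 * ((l.map Fm.size).sum + A.size)) * Y := by ring

private theorem Eval_sum_le {l : List (Fm p)} {A : Fm p} (h : A ∈ l) : A.size ≤ (l.map Fm.size).sum := by
  obtain ⟨l₁, l₂, e⟩ := List.append_of_mem h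
  rw [e, List.map_append, List.sum_append, List.map_cons, List.sum_cons]
  omega

open Classical in
theorem eval (a : ι → Fm p) (L : List ι) (hL : ∀ i, i ∈ L) (σ : ι → Prop) (T : Tm ι) {δ W : ℕ} (ha : ∀ i, (a i).depth ≤ δ)
    (hT : (T.sb a).depth ≤ δ) (hd : δ + 2 ≤ d) (hW : (L.map fun i => (a i).size + 1).sum ≤ W) :
    Rch F d (6 * (T.sb a).size * (2 * W + 2 * (T.sb a).size + 10)) H
      {cnL true (L.map (lit a σ) ++ [if T.tr σ then T.sb a else .neg (T.sb a)])} := by
  have hdΓ : ∀ A ∈ L.map (lit a σ), A.depth ≤ δ + 1 := by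
    intro A hA
    obtain ⟨i, _, rfl⟩ := List.mem_map.1 hA
    unfold lit
    split_ifs
    · exact (depth_neg_le _).trans (Nat.succ_le_succ (ha i))
    · exact (ha i).trans (Nat.le_succ _)
  have hsΓ : ((L.map (lit a σ)).map Fm.size).sum ≤ W := by
    refine le_trans ?_ hW
    clear hW hdΓ hL
    induction L with
    | nil => exact le_refl _
    | cons i L ih =>
      rw [List.map_cons, List.map_cons, List.map_cons, List.sum_cons, List.sum_cons]
      refine Nat.add_le_add ?_ ih
      unfold lit
      split_ifs
      · exact le_refl _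
      · exact Nat.le_succ _
  have key : ∀ T : Tm ι, (T.sb a).depth ≤ δ → ∀ Y, 2 * W + 2 * (T.sb a).size + 10 ≤ Y →
      Rch F d ((6 * (T.sb a).size - 2) * Y) H
        {cnL true (L.map (lit a σ) ++ [if T.tr σ then T.sb a else .neg (T.sb a)])} := by
    refine Tm.indL ?_ ?_ ?_
    · intro i hi Y hY
      change (a i).depth ≤ δ at hi
      change 2 * W + 2 * (a i).size + 10 ≤ Y at hY
      change Rch F d ((6 * (a i).size - 2) * Y) H
        {cnL true (L.map (lit a σ) ++ [if σ i then a i else .neg (a i)])}
      have hn : (Fm.neg (a i)).depth ≤ δ + 1 := (depth_neg_le _).trans (Nat.succ_le_succ hi)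
      have hB : (if σ i then a i else .neg (a i)).depth ≤ δ + 1 := by
        split_ifs
        · exact hi.trans (Nat.le_succ _)
        · exact hn
      have d0 : (cnL true ([] ++ [a i, .neg (a i)])).depth ≤ d := by
        refine (depth_cnL_le (e := δ + 1) fun A hA => ?_).trans hd
        rw [List.nil_append, List.mem_cons, List.mem_singleton] at hA
        rcases hA with rfl | rfl
        · exact hi.trans (Nat.le_succ _)
        · exact hn
      have e1 := r_em (F := F) (H := H) [] (a i) d0
      rw [List.nil_append] at e1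
      have d1 : (cnL true ([a i, .neg (a i)] ++ (L.map (lit a σ) ++ [if σ i then a i else .neg (a i)]))).depth ≤ d := by
        refine (depth_cnL_le (e := δ + 1) fun A hA => ?_).trans hd
        rcases List.mem_append.1 hA with h | h
        · rw [List.mem_cons, List.mem_singleton] at h
          rcases h with rfl | rfl
          · exact hi.trans (Nat.le_succ _)
          · exact hn
        · rcases List.mem_append.1 h with h | h
          · exact hdΓ A h
          · rw [List.mem_singleton.1 h]
            exact hB
      have hmem : ∀ A ∈ [a i, Fm.neg (a i)], A ∈ L.map (lit a σ) ++ [if σ i then a i else .neg (a i)] := by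
        intro A hA
        have hli : lit a σ i ∈ L.map (lit a σ) := List.mem_map_of_mem (hL i)
        rw [List.mem_cons, List.mem_singleton] at hA
        by_cases hσ : σ i
        · rw [if_pos hσ]
          have hli' : lit a σ i = .neg (a i) := by
            unfold lit
            rw [if_pos hσ]
          rw [hli'] at hli
          rcases hA with rfl | rfl
          · exact List.mem_append_right _ (List.mem_singleton.2 rfl)
          · exact List.mem_append_left _ hli
        · rw [if_neg hσ]
          have hli' : lit a σ i = a i := by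
            unfold lit
            rw [if_neg hσ]
          rw [hli'] at hli
          rcases hA with rfl | rfl
          · exact List.mem_append_left _ hli
          · exact List.mem_append_right _ (List.mem_singleton.2 rfl)
      have e2 := str (F := F) (d := d) (H := {cnL true [a i, .neg (a i)]}) hmem rfl d1
      refine Eval_mono (Rch.comp e1 e2) ?_
      have s1 : (cnL true [a i, Fm.neg (a i)]).size = 2 * (a i).size + 2 := by
        rw [size_cnL, List.map_cons, List.map_cons, List.map_nil, List.sum_cons, List.sum_cons, List.sum_nil, size_neg]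
        omega
      have s2 := Eval_size hsΓ (if σ i then a i else .neg (a i))
      have s3 : (if σ i then a i else .neg (a i)).size ≤ (a i).size + 1 := by
        split_ifs
        · exact Nat.le_succ _
        · exact le_of_eq (size_neg _)
      have s4 := size_pos (a i)
      have s5 : ([a i, Fm.neg (a i)] : List (Fm p)).length = 2 := rfl
      rw [s1, s5]
      have s6 : (cnL true (L.map (lit a σ) ++ [if σ i then a i else .neg (a i)])).size ≤ W + (a i).size + 2 := by omega
      have s7 : 4 * (a i).size * (2 * W + 2 * (a i).size + 10) ≤ (6 * (a i).size - 2) * Y :=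
        Nat.mul_le_mul (by omega) hY
      have s8 : 4 * 1 * (2 * W) + 4 * (a i).size * (2 * 1 + 10) ≤ 4 * (a i).size * (2 * W + 2 * (a i).size + 10) := by
        nlinarith [Nat.mul_le_mul s4 (le_refl W), Nat.mul_le_mul s4 s4]
      omega
    · intro T ih hT' Y hY
      change (Fm.neg (T.sb a)).depth ≤ δ at hT'
      change 2 * W + 2 * (Fm.neg (T.sb a)).size + 10 ≤ Y at hY
      rw [size_neg] at hY
      have i1 := ih ((depth_neg_sub _).trans hT') Y (by omega)
      by_cases h : T.tr σ
      · have hn : ¬ (Tm.neg T).tr σ := fun h' => h' h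
        rw [if_neg hn]
        change Rch F d ((6 * (Fm.neg (T.sb a)).size - 2) * Y) H
          {cnL true (L.map (lit a σ) ++ [.neg (.neg (T.sb a))])}
        rw [size_neg]
        rw [if_pos h] at i1
        have dd : (cnL true (L.map (lit a σ) ++ [.neg (.neg (T.sb a))])).depth ≤ d :=
          Eval_depth hdΓ ((depth_neg_le _).trans (Nat.succ_le_succ hT')) hd
        refine Eval_mono (Rch.comp i1 (r_nn (Set.mem_singleton _) dd)) ?_
        have s1 := Eval_size hsΓ (.neg (.neg (T.sb a)))
        rw [size_neg, size_neg] at s1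
        have s2 : (6 * (T.sb a).size - 2) * Y + Y ≤ (6 * ((T.sb a).size + 1) - 2) * Y := by
          have s3 : (6 * (T.sb a).size - 2) * Y + Y = (6 * (T.sb a).size - 2 + 1) * Y := by ring
          rw [s3]
          exact Nat.mul_le_mul_right Y (by omega)
        omega
      · have hn : (Tm.neg T).tr σ := h
        rw [if_pos hn]
        change Rch F d ((6 * (Fm.neg (T.sb a)).size - 2) * Y) H
          {cnL true (L.map (lit a σ) ++ [.neg (T.sb a)])}
        rw [size_neg]
        rw [if_neg h] at i1
        exact Eval_mono i1 (Nat.mul_le_mul_right Y (by omega))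
    · intro k l ih hT' Y hY
      rw [sb_cnT] at hT' hY ⊢
      have hsz : (cnL k (l.map (Tm.sb a))).size = 1 + ((l.map (Tm.sb a)).map Fm.size).sum := size_cnL _ _
      have hmem : ∀ T ∈ l, Rch F d ((6 * (T.sb a).size - 2) * Y) H
          {cnL true (L.map (lit a σ) ++ [if T.tr σ then T.sb a else .neg (T.sb a)])} := by
        intro T hT1
        have hT2 : T.sb a ∈ l.map (Tm.sb a) := List.mem_map_of_mem hT1
        have h1 := Eval_sum_le hT2
        exact ih T hT1 ((depth_mem hT2).trans hT') Y (by omega)
      have hneg : (cnL true (L.map (lit a σ) ++ [.neg (cnL k (l.map (Tm.sb a)))])).depth ≤ d :=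
        Eval_depth hdΓ ((depth_neg_le _).trans (Nat.succ_le_succ hT')) hd
      have hpos : (cnL true (L.map (lit a σ) ++ [cnL k (l.map (Tm.sb a))])).depth ≤ d :=
        Eval_depth hdΓ (hT'.trans (Nat.le_succ _)) hd
      have hn1 := Eval_size hsΓ (.neg (cnL k (l.map (Tm.sb a))))
      rw [size_neg] at hn1
      have hp1 := Eval_size hsΓ (cnL k (l.map (Tm.sb a)))
      have hc1 : (1 + 6 * ((l.map (Tm.sb a)).map Fm.size).sum) * Y ≤ (6 * (cnL k (l.map (Tm.sb a))).size - 2) * Y :=
        Nat.mul_le_mul_right Y (by omega)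
      have hc2 : ∀ T ∈ l, (6 * (T.sb a).size - 2) * Y + Y ≤ (6 * (cnL k (l.map (Tm.sb a))).size - 2) * Y := by
        intro T hT1
        have h1 := Eval_sum_le (List.mem_map_of_mem (f := Tm.sb a) hT1)
        have h2 : (6 * (T.sb a).size - 2) * Y + Y = (6 * (T.sb a).size - 2 + 1) * Y := by ring
        rw [h2]
        exact Nat.mul_le_mul_right Y (by omega)
      cases k with
      | true =>
        by_cases h : (cnT true l).tr σ
        · rw [if_pos h]
          obtain ⟨T, hT1, hT2⟩ := (tr_cnT_true σ l).1 h
          have i1 := hmem T hT1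
          rw [if_pos hT2] at i1
          have c1 := hc2 T hT1
          obtain ⟨l₁, l₂, e⟩ := List.append_of_mem hT1
          have e' : l.map (Tm.sb a) = l₁.map (Tm.sb a) ++ T.sb a :: l₂.map (Tm.sb a) := by
            rw [e, List.map_append, List.map_cons]
          rw [e'] at hpos hp1 c1 ⊢ hY
          refine Eval_mono (Rch.comp i1 (r_or _ _ (Set.mem_singleton _) hpos)) ?_
          omega
        · rw [if_neg h]
          have h' : ∀ T ∈ l, ¬ T.tr σ := fun T hT1 hT2 => h ((tr_cnT_true σ l).2 ⟨T, hT1, hT2⟩)
          refine Eval_mono (Eval_nor hdΓ hsΓ hd (l.map (Tm.sb a)) ?_ hT' (by omega)) hc1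
          intro A hA
          obtain ⟨T, hT1, rfl⟩ := List.mem_map.1 hA
          have i1 := hmem T hT1
          rw [if_neg (h' T hT1)] at i1
          exact i1
      | false =>
        by_cases h : (cnT false l).tr σ
        · rw [if_pos h]
          have h' := (tr_cnT_false σ l).1 h
          refine Eval_mono (Eval_and hdΓ hsΓ hd (l.map (Tm.sb a)) ?_ hT' (by omega)) hc1
          intro A hA
          obtain ⟨T, hT1, rfl⟩ := List.mem_map.1 hA
          have i1 := hmem T hT1
          rw [if_pos (h' T hT1)] at i1
          exact i1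
        · rw [if_neg h]
          have h' : ∃ T ∈ l, ¬ T.tr σ := by
            by_contra hc
            push Not at hc
            exact h ((tr_cnT_false σ l).2 hc)
          obtain ⟨T, hT1, hT2⟩ := h'
          have i1 := hmem T hT1
          rw [if_neg hT2] at i1
          have c1 := hc2 T hT1
          obtain ⟨l₁, l₂, e⟩ := List.append_of_mem hT1
          have e' : l.map (Tm.sb a) = l₁.map (Tm.sb a) ++ T.sb a :: l₂.map (Tm.sb a) := by
            rw [e, List.map_append, List.map_cons]
          rw [e'] at hneg hn1 c1 ⊢ hY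
          refine Eval_mono (Rch.comp i1 (r_nand _ _ (Set.mem_singleton _) hneg)) ?_
          omega
  exact Eval_mono (key T hT _ (le_refl _)) (Nat.mul_le_mul_right _ (Nat.sub_le _ _))

end ACpHier
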