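import Pool.Agent.H42.SH.Fml

/-!
ROW Snd (60-150 lines): the 13 rules are sound. PROOF. `intro R hR`, unfold `S0`, `simp only [List.mem_cons, ..] at hR`,
`rcases hR with rfl | rfl | ..`; for each rule `intro v w hp b hb`; rewrite with `ev_orS`, `ev_andS`, `Sch.ev` (for `mv`, `sq`, `neg`);
then everything is about `List.any`, `List.all` of appended lists (`List.any_append`, `List.any_map`, `Bool` cases on `v 0`,
on `(w 0).any id`, `(w 1).any id`, ...). `simp` with `List.any_append, List.all_append, Function.comp_def` and case analysis should do each.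
-/

set_option autoImplicit false

namespace ACpHier

open ACpFrege

private theorem Snd_any (l : List Bool) : l.any id = true ↔ true ∈ l := by
  simp [List.any_eq_true]

private theorem Snd_all (l : List Bool) : l.all id = true ↔ false ∉ l := by
  simp only [List.all_eq_true, id]
  constructor
  · intro h hf
    have := h false hf
    cases this
  · intro h x hx
    cases x
    · exact absurd hx h
    · rfl

private theorem Snd_sq {p : ℕ} (v : ℕ → Bool) (w : ℕ → List Bool) (j : ℕ) : (Sch.sq j : Sch p).ev v w = w j := by
  rw [Sch.ev]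

private theorem Snd_mv {p : ℕ} (v : ℕ → Bool) (w : ℕ → List Bool) (j : ℕ) : (Sch.mv j : Sch p).ev v w = [v j] := by
  rw [Sch.ev]

private theorem Snd_neg {p : ℕ} (v : ℕ → Bool) (w : ℕ → List Bool) (S : Sch p) :
    (Sch.neg S).ev v w = (S.ev v w).map not := by
  rw [Sch.ev]

private theorem Snd_forall (P : Bool → Prop) (x : Bool) : (∀ b ∈ [x], P b) ↔ P x := by
  simp

theorem S0_sound (p : ℕ) : ∀ R ∈ S0 p, R.Sound := by
  intro R hR
  simp only [S0, List.mem_cons, List.not_mem_nil, or_false] at hR
  rcases hR with rfl | rfl | rfl | rfl | rfl | rfl | rfl | rfl | rfl | rfl | rfl | rfl | rfl <;>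
  · intro v w hp
    simp only [List.mem_cons, List.not_mem_nil, or_false, forall_eq_or_imp, forall_eq, ev_orS, ev_andS, Snd_sq, Snd_mv, Snd_neg,
      List.map_cons, List.map_nil, List.flatten_cons, List.flatten_nil, List.append_nil, List.mem_append,
      Snd_any, Snd_all] at hp ⊢
    generalize v 0 = x at *
    by_cases h0 : true ∈ w 0 <;> by_cases h1 : true ∈ w 1 <;> by_cases h2 : true ∈ w 2 <;>
      by_cases h3 : false ∈ w 1 <;> by_cases h4 : false ∈ w 2 <;> cases x <;> simp_all

end ACpHier
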