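import Pool.Agent.H42.SH.UpU
import Pool.Agent.H42.SH.Snd

/-!
helper42 (project MP_28250c_SH): the strict depth hierarchy for polynomial size, with explicit depths: CNFs `G n` with MOD-free
refutations of depth `10012 K (d + 1)` and size `n`, all of whose refutations of depth `d` have size at least `2^((log n)^K)`.
-/

set_option autoImplicit false

namespace ACpHier

open ACpFrege

/-- The strict depth hierarchy, polynomial size, explicit depths. -/
def HierC : Prop :=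
  ∀ d K : ℕ, 1 ≤ K → ∃ G : ℕ → CNF, Family 30 G ∧ ∀ p : ℕ, p.Prime → ∃ S₀ : List (Rule p), (∀ R ∈ S₀, R.Sound) ∧
    (∃ n₀ : ℕ, ∀ n ≥ n₀, ∃ π : List (Fm p), Refutes S₀ (10012 * K * (d + 1)) (G n) π ∧ (∀ A ∈ π, Free A) ∧ psize π ≤ n) ∧
    ∀ S : List (Rule p), (∀ R ∈ S, R.Sound) → ∃ n₀ : ℕ, ∀ n ≥ n₀, ∀ π' : List (Fm p), Refutes S d (G n) π' →
      (2 : ℝ) ^ (Real.logb 2 n ^ K) ≤ psize π'

private theorem HierC_log (d : ℕ) : ∃ X₀ : ℕ, ∀ x : ℕ, X₀ ≤ x →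
    Real.log x ^ (d + 1) ≤ (x : ℝ) ^ ((1 : ℝ) / 5000) := by
  have hr : (0 : ℝ) < 1 / (5000 * (d + 1)) := by positivity
  have h1 : ∀ᶠ x : ℝ in Filter.atTop, ‖Real.log x‖ ≤ 1 * ‖x ^ ((1 : ℝ) / (5000 * (d + 1)))‖ :=
    (isLittleO_log_rpow_atTop hr).bound one_pos
  obtain ⟨X, hX⟩ := Filter.eventually_atTop.1 h1
  refine ⟨max ⌈X⌉₊ 1, fun x hx => ?_⟩
  have hx1 : (1 : ℝ) ≤ x := by exact_mod_cast (le_max_right _ _).trans hx
  have hx0 : (0 : ℝ) ≤ x := zero_le_one.trans hx1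
  have h2 := hX x ((Nat.le_ceil X).trans (by exact_mod_cast (le_max_left _ _).trans hx))
  have hl : 0 ≤ Real.log x := Real.log_nonneg hx1
  rw [Real.norm_of_nonneg hl, Real.norm_of_nonneg (Real.rpow_nonneg hx0 _), one_mul] at h2
  calc Real.log x ^ (d + 1) ≤ ((x : ℝ) ^ ((1 : ℝ) / (5000 * (d + 1)))) ^ (d + 1) := pow_le_pow_left₀ hl h2 _
    _ = (x : ℝ) ^ ((1 : ℝ) / 5000) := by
      rw [← Real.rpow_natCast, ← Real.rpow_mul hx0]
      congr 1
      push_cast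
      field_simp

private theorem HierC_ev (m : ℕ) (hm : 1 ≤ m) (B : ℕ) : ∀ᶠ n : ℕ in Filter.atTop,
    (2 : ℝ) ≤ Real.logb 2 n ∧ (504 * ((m : ℝ) + 1)) ^ (m + 1) ≤ Real.logb 2 n ∧ Real.logb 2 n ^ m ≤ n ∧
      B ≤ min n ⌊Real.logb 2 n ^ m⌋₊ := by
  have t1 : Filter.Tendsto (fun n : ℕ => Real.logb 2 (n : ℝ)) Filter.atTop Filter.atTop :=
    (Real.tendsto_logb_atTop one_lt_two).comp tendsto_natCast_atTop_atTop
  have e1 := t1.eventually_ge_atTop (2 : ℝ)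
  have e0 := t1.eventually_ge_atTop ((504 * ((m : ℝ) + 1)) ^ (m + 1))
  have e2 := t1.eventually_ge_atTop (B : ℝ)
  have hl2 : (0 : ℝ) < Real.log 2 := Real.log_pos one_lt_two
  have h3 : ∀ᶠ x : ℝ in Filter.atTop, ‖Real.log x ^ m‖ ≤ Real.log 2 ^ m * ‖id x‖ :=
    (Real.isLittleO_pow_log_id_atTop (n := m)).bound (by positivity)
  have e3 := tendsto_natCast_atTop_atTop.eventually h3
  filter_upwards [e1, e0, e2, e3, Filter.eventually_ge_atTop (max B 1)] with n a1 a0 a2 a3 a4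
  have hn1 : (1 : ℝ) ≤ n := by exact_mod_cast (le_max_right _ _).trans a4
  have hl : 0 ≤ Real.log n := Real.log_nonneg hn1
  refine ⟨a1, a0, ?_, ?_⟩
  · rw [id, Real.norm_of_nonneg (pow_nonneg hl m), Real.norm_of_nonneg (zero_le_one.trans hn1)] at a3
    unfold Real.logb
    rw [div_pow, div_le_iff₀ (by positivity)]
    linarith
  · refine le_min ((le_max_left _ _).trans a4) (Nat.le_floor ?_)
    exact a2.trans (le_self_pow₀ (by linarith) (by omega))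

theorem hierC (hL : LowerFF) : HierC := by
  intro d K hK
  obtain ⟨m, hm⟩ : ∃ m, m = 5000 * (d + 1) * K + 1 := ⟨_, rfl⟩
  have hm1 : 1 ≤ m := by
    rw [hm]
    exact Nat.succ_le_succ (Nat.zero_le _)
  refine ⟨fun n => FF (min n ⌊Real.logb 2 n ^ m⌋₊), ?_, ?_⟩
  · intro n
    have h1 := FF_ok (min n ⌊Real.logb 2 n ^ m⌋₊)
    have h2 : min n ⌊Real.logb 2 n ^ m⌋₊ ≤ n := min_le_left _ _
    refine ⟨h1.1, h1.2.1.trans (Nat.pow_le_pow_left (by omega) 30), fun C hC => ?_⟩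
    exact ⟨(h1.2.2 C hC).1, fun l hl => lt_of_lt_of_le ((h1.2.2 C hC).2 l hl) h2⟩
  · intro p hp
    refine ⟨S0 p, S0_sound p, ?_, ?_⟩
    · obtain ⟨n₀, hn₀⟩ := Filter.eventually_atTop.1 (HierC_ev m hm1 0)
      refine ⟨max n₀ 1, fun n hn => ?_⟩
      obtain ⟨a1, a0, a2, a3⟩ := hn₀ n ((le_max_left _ _).trans hn)
      obtain ⟨π, h1, h2, h3⟩ := upperU p (min n ⌊Real.logb 2 n ^ m⌋₊) (m + 1) (by omega)
      have hdep : 2 * (m + 1) + 8 ≤ 10012 * K * (d + 1) := by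
        have h4 : 1 ≤ K * (d + 1) := Nat.mul_pos hK (Nat.succ_pos d)
        have h5 : 5000 * (d + 1) * K = 5000 * (K * (d + 1)) := by ring
        rw [hm, h5, mul_assoc]
        omega
      refine ⟨π, ⟨fun A hA => (h1.1 A hA).trans hdep, h1.2⟩, h2, ?_⟩
      have hn1 : (0 : ℝ) < n := by
        exact_mod_cast lt_of_lt_of_le Nat.one_pos ((le_max_right _ _).trans hn)
      have hl0 : 0 ≤ Real.logb 2 n := le_trans (by norm_num) a1
      have hx : ((min n ⌊Real.logb 2 n ^ m⌋₊ : ℕ) : ℝ) ≤ Real.logb 2 n ^ m :=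
        le_trans (by exact_mod_cast min_le_right _ _) (Nat.floor_le (pow_nonneg hl0 m))
      obtain ⟨y, hy⟩ : ∃ y : ℝ, y = Real.logb 2 n ^ ((1 : ℝ) / ((m + 1 : ℕ) : ℝ)) := ⟨_, rfl⟩
      have hm0 : ((m + 1 : ℕ) : ℝ) ≠ 0 := Nat.cast_ne_zero.2 (Nat.succ_ne_zero m)
      have hy0 : 0 ≤ y := by rw [hy]; exact Real.rpow_nonneg hl0 _
      have hyp : y ^ (m + 1) = Real.logb 2 n := by
        rw [hy, ← Real.rpow_natCast, ← Real.rpow_mul hl0, one_div_mul_cancel hm0, Real.rpow_one]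
      have hy5 : 504 * ((m : ℝ) + 1) ≤ y := by
        have h6 : (504 * ((m : ℝ) + 1)) ^ (m + 1) ≤ y ^ (m + 1) := by rw [hyp]; exact a0
        exact le_of_pow_le_pow_left₀ (Nat.succ_ne_zero m) hy0 h6
      have h4 : ((min n ⌊Real.logb 2 n ^ m⌋₊ : ℕ) : ℝ) ^ ((1 : ℝ) / ((m + 1 : ℕ) : ℝ)) ≤ y ^ m := by
        refine (Real.rpow_le_rpow (Nat.cast_nonneg _) hx (by positivity)).trans (le_of_eq ?_)
        rw [hy, ← Real.rpow_natCast, ← Real.rpow_natCast, ← Real.rpow_mul hl0, ← Real.rpow_mul hl0]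
        congr 1
        ring
      have h5 : (psize π : ℝ) ≤ n := by
        refine h3.trans ((Real.rpow_le_rpow_of_exponent_le one_le_two ?_).trans (le_of_eq
          (Real.rpow_logb zero_lt_two (by norm_num) hn1)))
        calc 504 * ((m + 1 : ℕ) : ℝ) * ((min n ⌊Real.logb 2 n ^ m⌋₊ : ℕ) : ℝ) ^ ((1 : ℝ) / ((m + 1 : ℕ) : ℝ))
            ≤ y * y ^ m := by
              refine mul_le_mul ?_ h4 (Real.rpow_nonneg (Nat.cast_nonneg _) _) hy0
              push_cast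
              exact hy5
          _ = Real.logb 2 n := by rw [← hyp]; ring
      exact_mod_cast h5
    · intro S hS
      obtain ⟨N, hN⟩ := hL p hp S hS
      obtain ⟨X₀, hX₀⟩ := HierC_log d
      obtain ⟨n₀, hn₀⟩ := Filter.eventually_atTop.1 (HierC_ev m hm1 (max N X₀))
      refine ⟨n₀, fun n hn π' hπ' => ?_⟩
      obtain ⟨a1, a0, a2, a3⟩ := hn₀ n hn
      have h1 := hN _ ((le_max_left _ _).trans a3) d (hX₀ _ ((le_max_right _ _).trans a3)) π' hπ'
      refine le_trans (Real.rpow_le_rpow_of_exponent_le one_le_two ?_) h1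
      have hl0 : 0 ≤ Real.logb 2 n := le_trans (by norm_num) a1
      have hl1 : 1 ≤ Real.logb 2 n := le_trans (by norm_num) a1
      have hmin : min n ⌊Real.logb 2 n ^ m⌋₊ = ⌊Real.logb 2 n ^ m⌋₊ := by
        refine min_eq_right ?_
        have := (Nat.floor_le (pow_nonneg hl0 m)).trans a2
        exact_mod_cast this
      have h2 : Real.logb 2 n ^ (5000 * (d + 1) * K) ≤ ((min n ⌊Real.logb 2 n ^ m⌋₊ : ℕ) : ℝ) := by
        rw [hmin]
        have h3 : Real.logb 2 n ^ m < (⌊Real.logb 2 n ^ m⌋₊ : ℝ) + 1 := Nat.lt_floor_add_one _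
        have h4 : Real.logb 2 n ^ (5000 * (d + 1) * K + 1) ≤ Real.logb 2 n ^ m := by rw [hm]
        have h5 : 1 ≤ Real.logb 2 n ^ (5000 * (d + 1) * K) := one_le_pow₀ hl1
        rw [pow_succ] at h4
        nlinarith
      have hd : (0 : ℝ) < 5000 * ((d : ℝ) + 1) := by positivity
      calc Real.logb 2 n ^ K = (Real.logb 2 n ^ (5000 * (d + 1) * K)) ^ ((1 : ℝ) / (5000 * (d + 1))) := by
            rw [← Real.rpow_natCast _ (5000 * (d + 1) * K), ← Real.rpow_mul hl0, ← Real.rpow_natCast _ K]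
            congr 1
            push_cast
            field_simp
        _ ≤ _ := Real.rpow_le_rpow (pow_nonneg hl0 _) h2 (by positivity)

end ACpHier
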