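import Pool.Agent.H42.SH.Defs

/-!
ROW Fml (about 120 lines): formulas as lists. PROOFS. `ofFn_get_map`: `List.ofFn_get`, `List.map_ofFn`. `cn_eq`: see `cn_eq` of
Pool/Agent/H98/AF/AFm.lean (same proof). `inst_orS` etc.: unfold `orS`, `Sch.inst`, then `ofFn_get_map`. `size_cnL`: `Fm.size`,
`Finset.sum` over `Fin l.length` = sum of the mapped list (`List.sum_ofFn`, `ofFn_get_map`). depths: unfold `Fm.dep`; only the outer
`if` depends on `c`; `Finset.le_sup`, `Finset.sup_le`; members of `l` are `l.get i` (`List.mem_iff_get`).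
-/

set_option autoImplicit false

namespace ACpHier

open ACpFrege

variable {p : ℕ}

theorem ofFn_get_map {α β : Type} (l : List α) (f : α → β) : (List.ofFn fun i => f (l.get i)) = l.map f := by
  have h : List.map f (List.ofFn l.get) = List.ofFn (f ∘ l.get) := List.map_ofFn
  rw [List.ofFn_get] at h
  exact h.symm

private theorem cn_aux (k : Bool) {m m' : ℕ} (h : m' = m) (A : Fin m → Fm p) (A' : Fin m' → Fm p)
    (hA : ∀ i : Fin m', A' i = A (Fin.cast h i)) : Fm.cn k m A = Fm.cn k m' A' := by
  subst h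
  congr 1
  funext i
  exact (hA i).symm

theorem cn_eq (k : Bool) (m : ℕ) (A : Fin m → Fm p) : Fm.cn k m A = cnL k (List.ofFn A) := by
  unfold cnL
  exact cn_aux k List.length_ofFn A _ fun i => List.get_ofFn A i

theorem inst_orS (s : ℕ → Fm p) (G : ℕ → List (Fm p)) (l : List (Sch p)) :
    (orS l).inst s G = [cnL true (l.map (Sch.inst s G)).flatten] := by
  unfold orS
  rw [Sch.inst, ofFn_get_map l (Sch.inst s G)]

theorem inst_andS (s : ℕ → Fm p) (G : ℕ → List (Fm p)) (l : List (Sch p)) :
    (andS l).inst s G = [cnL false (l.map (Sch.inst s G)).flatten] := by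
  unfold andS
  rw [Sch.inst, ofFn_get_map l (Sch.inst s G)]

theorem ev_orS (v : ℕ → Bool) (w : ℕ → List Bool) (l : List (Sch p)) :
    (orS l).ev v w = [((l.map (Sch.ev v w)).flatten.any id)] := by
  unfold orS
  rw [Sch.ev, ofFn_get_map l (Sch.ev v w)]

theorem ev_andS (v : ℕ → Bool) (w : ℕ → List Bool) (l : List (Sch p)) :
    (andS l).ev v w = [((l.map (Sch.ev v w)).flatten.all id)] := by
  unfold andS
  rw [Sch.ev, ofFn_get_map l (Sch.ev v w)]

theorem size_cnL (k : Bool) (l : List (Fm p)) : (cnL k l).size = 1 + (l.map Fm.size).sum := by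
  unfold cnL
  rw [Fm.size, ← List.sum_ofFn, ofFn_get_map l Fm.size]

theorem size_pos (A : Fm p) : 1 ≤ A.size := by
  cases A <;> simp [Fm.size]

theorem size_neg (A : Fm p) : (Fm.neg A).size = A.size + 1 := rfl

theorem dep_le_depth (A : Fm p) (c : ℕ) : A.dep c ≤ A.depth := by
  unfold Fm.depth
  cases A with
  | var x => simp [Fm.dep]
  | neg A =>
    simp only [Fm.dep, zero_ne_one, if_false]
    by_cases h : c = 1
    · rw [if_pos h]; omega
    · rw [if_neg h]
  | cn k m A =>
    have h0 : ¬ (0 = if k = true then 2 else 3) := by cases k <;> simp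
    simp only [Fm.dep]
    rw [if_neg h0]
    by_cases h : c = (if k = true then 2 else 3)
    · rw [if_pos h]; omega
    · rw [if_neg h]
  | md r m A => simp [Fm.dep]

theorem depth_le_dep (A : Fm p) (c : ℕ) : A.depth ≤ A.dep c + 1 := by
  unfold Fm.depth
  cases A with
  | var x => simp [Fm.dep]
  | neg A =>
    simp only [Fm.dep, zero_ne_one, if_false]
    omega
  | cn k m A =>
    have h0 : ¬ (0 = if k = true then 2 else 3) := by cases k <;> simp
    simp only [Fm.dep]
    rw [if_neg h0]
    omega
  | md r m A => simp [Fm.dep]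

theorem depth_cnL_le {k : Bool} {l : List (Fm p)} {e : ℕ} (h : ∀ A ∈ l, A.depth ≤ e) : (cnL k l).depth ≤ e + 1 := by
  unfold cnL Fm.depth
  simp only [Fm.dep]
  have h1 : (Finset.univ.sup fun i => (l.get i).dep (if k then 2 else 3)) ≤ e := by
    apply Finset.sup_le
    intro i _
    exact (dep_le_depth _ _).trans (h _ (List.get_mem l i))
  have h0 : ¬ (0 = if k = true then 2 else 3) := by cases k <;> simp
  rw [if_neg h0]
  omega

theorem depth_neg_le (A : Fm p) : (Fm.neg A).depth ≤ A.depth + 1 := by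
  unfold Fm.depth
  simp only [Fm.dep]
  have := dep_le_depth A 1
  unfold Fm.depth at this
  simp only [zero_ne_one, if_false]
  omega

theorem depth_mem {k : Bool} {l : List (Fm p)} {A : Fm p} (h : A ∈ l) : A.depth ≤ (cnL k l).depth := by
  obtain ⟨i, rfl⟩ := List.mem_iff_get.1 h
  have h1 := depth_le_dep (l.get i) (if k then 2 else 3)
  have h2 : (l.get i).dep (if k then 2 else 3) ≤ Finset.univ.sup fun i => (l.get i).dep (if k then 2 else 3) :=
    Finset.le_sup (f := fun i => (l.get i).dep (if k then 2 else 3)) (Finset.mem_univ i)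
  have h3 : (cnL k l).depth = 1 + Finset.univ.sup fun i => (l.get i).dep (if k then 2 else 3) := by
    unfold cnL Fm.depth
    simp only [Fm.dep]
    cases k <;> simp
  omega

theorem depth_neg_sub (A : Fm p) : A.depth ≤ (Fm.neg A).depth := by
  have h1 := depth_le_dep A 1
  have h3 : (Fm.neg A).depth = 1 + A.dep 1 := by
    unfold Fm.depth
    simp [Fm.dep]
  omega

theorem depth_sub {k : Bool} {l l' : List (Fm p)} (h : ∀ A ∈ l', A ∈ l) : (cnL k l').depth ≤ (cnL k l).depth := by
  have h3 : ∀ l : List (Fm p), (cnL k l).depth = 1 + Finset.univ.sup fun i => (l.get i).dep (if k then 2 else 3) := by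
    intro l
    unfold cnL Fm.depth
    simp only [Fm.dep]
    cases k <;> simp
  rw [h3, h3]
  apply Nat.add_le_add_left
  apply Finset.sup_le
  intro i _
  obtain ⟨j, hj⟩ := List.mem_iff_get.1 (h _ (List.get_mem l' i))
  rw [← hj]
  exact Finset.le_sup (f := fun i => (l.get i).dep (if k then 2 else 3)) (Finset.mem_univ j)

end ACpHier
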