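import Pool.Agent.H42.SH.HDefs
import Pool.Agent.H42.SH.Fml

/-!
ROW FreeL (about 120 lines): MOD connectives can be removed from refutations in `S0`. PROOF. `fz` replaces every subformula `md ..` by the constant `cnL true []`. By structural induction over the scheme: for schemes without `md` the instances satisfy
`(S.inst s G).map fz = S.inst (fz ∘ s) (fun j => (G j).map fz)`; all schemes of `S0` are without `md` (define `SFree : Sch p → Prop`; check the 13 rules; `inst_orS`, `inst_andS` or structural induction with `List.map_flatten`, `List.map_ofFn`, and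
`fz (cnL k l) = cnL k (l.map fz)`). `fz (clauseFm C) = clauseFm C`. So `π.map fz` is a refutation: `Step` is preserved (`prev.map fz`), `(fz A).size ≤ A.size`, `(fz A).dep c ≤ A.dep c` (induction on `A`; for `md`: `dep c` of `md` is at least 1 and `dep c` of the constant is at most 1), `Free (fz A)`.
-/

set_option autoImplicit false

namespace ACpHier

open ACpFrege

variable {p : ℕ}

/-- replace every subformula with a MOD connective on top by the constant false -/
private def fz : Fm p → Fm p
  | .var x => .var x
  | .neg A => .neg (fz A)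
  | .cn k n A => .cn k n fun i => fz (A i)
  | .md _ _ _ => cnL true []

private theorem fz_cnL (k : Bool) (l : List (Fm p)) : fz (cnL k l) = cnL k (l.map fz) := by
  have h : fz (cnL k l) = Fm.cn k l.length fun i => fz (l.get i) := rfl
  rw [h, cn_eq, ofFn_get_map l fz]

/-- schemes without MOD connectives -/
private def SFree : Sch p → Prop
  | .mv _ => True
  | .sq _ => True
  | .neg S => SFree S
  | .cn _ _ S => ∀ i, SFree (S i)
  | .md _ _ _ => False

private theorem SFree_orS (l : List (Sch p)) : SFree (orS l) ↔ ∀ S ∈ l, SFree S := by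
  unfold orS
  constructor
  · intro h S hS
    obtain ⟨i, rfl⟩ := List.mem_iff_get.1 hS
    exact h i
  · intro h i
    exact h _ (List.get_mem l i)

private theorem SFree_andS (l : List (Sch p)) : SFree (andS l) ↔ ∀ S ∈ l, SFree S := by
  unfold andS
  constructor
  · intro h S hS
    obtain ⟨i, rfl⟩ := List.mem_iff_get.1 hS
    exact h i
  · intro h i
    exact h _ (List.get_mem l i)

private theorem SFree_mv (i : ℕ) : SFree (Sch.mv i : Sch p) := trivial

private theorem SFree_sq (i : ℕ) : SFree (Sch.sq i : Sch p) := trivial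

private theorem SFree_neg (S : Sch p) : SFree (Sch.neg S) ↔ SFree S := Iff.rfl

private theorem inst_fz (s : ℕ → Fm p) (G : ℕ → List (Fm p)) : ∀ S : Sch p, SFree S →
    (S.inst s G).map fz = S.inst (fun i => fz (s i)) (fun j => (G j).map fz)
  | .mv i, _ => by simp [Sch.inst]
  | .sq j, _ => by simp [Sch.inst]
  | .neg S, h => by
    rw [Sch.inst, Sch.inst, ← inst_fz s G S h, List.map_map, List.map_map]
    rfl
  | .cn k n S, h => by
    have ih := fun i => inst_fz s G (S i) (h i)
    rw [Sch.inst, Sch.inst, List.map_singleton, fz_cnL, List.map_flatten, List.map_ofFn]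
    have e : (List.map fz ∘ fun i => (S i).inst s G) =
        fun i => (S i).inst (fun i => fz (s i)) (fun j => (G j).map fz) := by
      funext i
      exact ih i
    rw [e]
  | .md _ _ _, h => h.elim

private theorem S0_free : ∀ R ∈ S0 p, SFree R.concl ∧ ∀ P ∈ R.prem, SFree P := by
  intro R hR
  unfold S0 at hR
  simp only [List.mem_cons, List.not_mem_nil, or_false] at hR
  rcases hR with rfl | rfl | rfl | rfl | rfl | rfl | rfl | rfl | rfl | rfl | rfl | rfl | rfl <;>
    simp [SFree_orS, SFree_andS, SFree_mv, SFree_sq, SFree_neg]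

private theorem fz_clause (C : List Lit) : fz (clauseFm C : Fm p) = clauseFm C := by
  unfold clauseFm
  rw [fz_cnL, List.map_map]
  congr 1
  refine List.map_congr_left fun l _ => ?_
  simp only [Function.comp_apply]
  split
  · rfl
  · rfl

private theorem fz_size : ∀ A : Fm p, (fz A).size ≤ A.size
  | .var x => le_refl _
  | .neg A => by
    have := fz_size A
    simp only [fz, Fm.size]
    omega
  | .cn k n A => by
    simp only [fz, Fm.size]
    exact Nat.add_le_add_left (Finset.sum_le_sum fun i _ => fz_size (A i)) 1
  | .md r n A => by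
    simp [fz, Fm.size, cnL]

private theorem fz_dep : ∀ (A : Fm p) (c : ℕ), (fz A).dep c ≤ A.dep c
  | .var x, _ => le_refl _
  | .neg A, c => by
    have := fz_dep A 1
    simp only [fz, Fm.dep]
    omega
  | .cn k n A, c => by
    simp only [fz, Fm.dep]
    exact Nat.add_le_add_left (Finset.sup_mono_fun fun i _ => fz_dep (A i) _) _
  | .md r n A, c => by
    have h0 : (cnL true [] : Fm p).dep c ≤ 1 := by
      have h1 := dep_le_depth (cnL true [] : Fm p) c
      have h2 := depth_cnL_le (p := p) (k := true) (l := []) (e := 0) (fun A hA => by simp at hA)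
      omega
    have h3 : (fz (Fm.md r n A)).dep c = (cnL true [] : Fm p).dep c := rfl
    rw [h3, Fm.dep]
    omega

private theorem fz_free : ∀ A : Fm p, Free (fz A)
  | .var _ => trivial
  | .neg A => fz_free A
  | .cn _ _ A => fun i => fz_free (A i)
  | .md _ _ _ => fun i => i.elim0

theorem freeze {F : CNF} {d : ℕ} {π : List (Fm p)} (h : Refutes (S0 p) d F π) :
    ∃ π' : List (Fm p), Refutes (S0 p) d F π' ∧ psize π' ≤ psize π ∧ ∀ A ∈ π', Free A := by
  obtain ⟨h1, h2, h3⟩ := h
  refine ⟨π.map fz, ⟨?_, ?_, ?_⟩, ?_, ?_⟩
  · intro A hA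
    obtain ⟨B, hB, rfl⟩ := List.mem_map.1 hA
    exact (fz_dep B 0).trans (h1 B hB)
  · intro i hi
    have hi' : i < π.length := by rwa [List.length_map] at hi
    rw [List.getElem_map, ← List.map_take]
    rcases h2 i hi' with ⟨C, hC, e⟩ | ⟨R, hR, s, G, e, hP⟩
    · refine Or.inl ⟨C, hC, ?_⟩
      rw [e, fz_clause]
    · refine Or.inr ⟨R, hR, fun i => fz (s i), fun j => (G j).map fz, ?_, ?_⟩
      · rw [← inst_fz s G _ (S0_free R hR).1, e]
        rfl
      · intro P hPm B hB
        rw [← inst_fz s G _ ((S0_free R hR).2 P hPm)] at hB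
        obtain ⟨B', hB', rfl⟩ := List.mem_map.1 hB
        exact List.mem_map.2 ⟨B', hP P hPm B' hB', rfl⟩
  · refine List.mem_map.2 ⟨_, h3, ?_⟩
    rw [fz_cnL]
    rfl
  · unfold psize
    rw [List.map_map]
    exact List.sum_le_sum fun A _ => fz_size A
  · intro A hA
    obtain ⟨B, _, rfl⟩ := List.mem_map.1 hA
    exact fz_free B

end ACpHier
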