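import Pool.Agent.H42.SH.HDefs
import Pool.Agent.H42.SH.CombU
import Pool.Agent.H42.SH.FreeL

/-!
helper42 (project MP_28250c_SH): the upper bounds, uniformly in the depth: for all `n` and `h ≥ 1` the CNF `FF n` has a refutation
in `S0` without MOD connectives, of depth `2 h + 8` and size at most `2^(504 h n^(1/h))`; in particular one of depth `O(log n)` and
polynomial size.
-/

set_option autoImplicit false

namespace ACpHier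

open ACpFrege ACpB

private theorem UpU_core (h r M : ℕ) (hh : 1 ≤ h) (hr : 1 ≤ r) (hMr : M ≤ r ^ h) :
    10 ^ 8 * (M + 1) ^ 4 * ((h + 2) * (5 * (r ^ h) ^ 2 * cst 4 r 20 h)) ≤ 2 ^ (126 * (h * r ^ 2)) := by
  have a1 : 10 ^ 8 ≤ 2 ^ 27 := by norm_num
  have a2 : r ≤ 2 ^ r := Nat.lt_two_pow_self.le
  have a3 : r ^ h ≤ 2 ^ (h * r) := by
    rw [mul_comm h r, pow_mul]
    exact Nat.pow_le_pow_left a2 h
  have a5 : (M + 1) ^ 4 ≤ 2 ^ (4 + 4 * (h * r)) := by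
    have h0 : 1 ≤ 2 ^ (h * r) := Nat.one_le_two_pow
    have h1 : M + 1 ≤ 2 * 2 ^ (h * r) := by omega
    calc (M + 1) ^ 4 ≤ (2 * 2 ^ (h * r)) ^ 4 := Nat.pow_le_pow_left h1 4
      _ = 2 ^ (4 + 4 * (h * r)) := by ring
  have a6 : h + 2 ≤ 2 ^ (h + 1) := by
    have h1 : h + 1 ≤ 2 ^ h := Nat.lt_two_pow_self
    rw [pow_succ]
    omega
  have a7 : (r ^ h) ^ 2 ≤ 2 ^ (2 * (h * r)) := by
    calc (r ^ h) ^ 2 ≤ (2 ^ (h * r)) ^ 2 := Nat.pow_le_pow_left a3 2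
      _ = 2 ^ (2 * (h * r)) := by ring
  have a8 : 60 * r ^ 2 * 4 ^ 4 * ((4 * 4) ^ (h * r ^ 2) * 20) ≤ 2 ^ (19 + 2 * r + 4 * (h * r ^ 2)) := by
    have h1 : r ^ 2 ≤ 2 ^ (2 * r) := by
      calc r ^ 2 ≤ (2 ^ r) ^ 2 := Nat.pow_le_pow_left a2 2
        _ = 2 ^ (2 * r) := by ring
    have h2 : (4 * 4 : ℕ) ^ (h * r ^ 2) = 2 ^ (4 * (h * r ^ 2)) := by
      rw [pow_mul 2 4 (h * r ^ 2)]
      norm_num
    rw [h2]
    calc 60 * r ^ 2 * 4 ^ 4 * (2 ^ (4 * (h * r ^ 2)) * 20)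
        ≤ 2 ^ 6 * 2 ^ (2 * r) * 2 ^ 8 * (2 ^ (4 * (h * r ^ 2)) * 2 ^ 5) := by
          refine Nat.mul_le_mul (Nat.mul_le_mul (Nat.mul_le_mul (by norm_num) h1) (by norm_num))
            (Nat.mul_le_mul (le_refl _) (by norm_num))
      _ = 2 ^ (19 + 2 * r + 4 * (h * r ^ 2)) := by
          rw [← pow_add, ← pow_add, ← pow_add, ← pow_add]
          refine congrArg (fun t => 2 ^ t) ?_
          omega
  have a9 : cst 4 r 20 h ≤ 2 ^ (12 * r ^ 2 + 60 + 4 * r + 8 * (h * r ^ 2)) := by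
    unfold cst sz
    have h1 : 3 * r ^ 2 * 4 + 4 * 4 + 1 = 12 * r ^ 2 + 17 := by ring
    rw [h1]
    calc 2 ^ (12 * r ^ 2 + 17) * (30 * (60 * r ^ 2 * 4 ^ 4 * ((4 * 4) ^ (h * r ^ 2) * 20)) ^ 2)
        ≤ 2 ^ (12 * r ^ 2 + 17) * (2 ^ 5 * (2 ^ (19 + 2 * r + 4 * (h * r ^ 2))) ^ 2) :=
          Nat.mul_le_mul (le_refl _) (Nat.mul_le_mul (by norm_num) (Nat.pow_le_pow_left a8 2))
      _ = 2 ^ (12 * r ^ 2 + 60 + 4 * r + 8 * (h * r ^ 2)) := by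
          rw [← pow_mul, ← pow_add, ← pow_add]
          refine congrArg (fun t => 2 ^ t) ?_
          omega
  have b1 : h * r ≤ h * r ^ 2 := Nat.mul_le_mul (le_refl _) (by rw [pow_two]; exact Nat.le_mul_of_pos_left _ hr)
  have b2 : h ≤ h * r ^ 2 := Nat.le_mul_of_pos_right _ (pow_pos hr 2)
  have b3 : r ^ 2 ≤ h * r ^ 2 := Nat.le_mul_of_pos_left _ hh
  have b4 : r ≤ h * r := Nat.le_mul_of_pos_left _ hh
  calc 10 ^ 8 * (M + 1) ^ 4 * ((h + 2) * (5 * (r ^ h) ^ 2 * cst 4 r 20 h))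
      ≤ 2 ^ 27 * 2 ^ (4 + 4 * (h * r)) * (2 ^ (h + 1) * (2 ^ 3 * 2 ^ (2 * (h * r)) *
          2 ^ (12 * r ^ 2 + 60 + 4 * r + 8 * (h * r ^ 2)))) :=
        Nat.mul_le_mul (Nat.mul_le_mul a1 a5) (Nat.mul_le_mul a6
          (Nat.mul_le_mul (Nat.mul_le_mul (by norm_num) a7) a9))
    _ = 2 ^ (27 + (4 + 4 * (h * r)) + ((h + 1) + (3 + 2 * (h * r) + (12 * r ^ 2 + 60 + 4 * r + 8 * (h * r ^ 2))))) := by
        rw [pow_add _ (27 + (4 + 4 * (h * r))), pow_add _ 27, pow_add _ (h + 1), pow_add _ (3 + 2 * (h * r)),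
          pow_add _ 3]
    _ ≤ 2 ^ (126 * (h * r ^ 2)) := Nat.pow_le_pow_right (by norm_num) (by omega)

private theorem UpU_num (h M n : ℕ) (hh : 1 ≤ h) (hM1 : 1 ≤ M) (hMn : M * M ≤ n) : ∃ r : ℕ, 1 ≤ r ∧ M ≤ r ^ h ∧
    ((10 ^ 8 * (M + 1) ^ 4 * ((h + 2) * (5 * (r ^ h) ^ 2 * cst 4 r 20 h)) : ℕ) : ℝ) ≤
      (2 : ℝ) ^ (504 * (h : ℝ) * (n : ℝ) ^ ((1 : ℝ) / h)) := by
  have hh0 : (0 : ℝ) < h := by exact_mod_cast hh
  have hM1' : (1 : ℝ) ≤ M := by exact_mod_cast hM1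
  have hM0 : (0 : ℝ) ≤ M := by linarith
  set x : ℝ := (M : ℝ) ^ ((1 : ℝ) / h) with hx
  have hx1 : 1 ≤ x := Real.one_le_rpow hM1' (by positivity)
  have hxh : x ^ h = M := by
    rw [hx, ← Real.rpow_natCast, ← Real.rpow_mul hM0, one_div_mul_cancel hh0.ne', Real.rpow_one]
  have hr1 : 1 ≤ ⌈x⌉₊ := Nat.one_le_ceil_iff.2 (by linarith)
  have hrx : (⌈x⌉₊ : ℝ) ≤ 2 * x := by
    have := Nat.ceil_lt_add_one (a := x) (by linarith)
    linarith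
  have hMr : M ≤ ⌈x⌉₊ ^ h := by
    have h1 : (M : ℝ) ≤ (⌈x⌉₊ : ℝ) ^ h := by
      rw [← hxh]
      exact pow_le_pow_left₀ (by linarith) (Nat.le_ceil x) h
    exact_mod_cast h1
  refine ⟨⌈x⌉₊, hr1, hMr, ?_⟩
  have hc := UpU_core h ⌈x⌉₊ M hh hr1 hMr
  have hc' : ((10 ^ 8 * (M + 1) ^ 4 * ((h + 2) * (5 * (⌈x⌉₊ ^ h) ^ 2 * cst 4 ⌈x⌉₊ 20 h)) : ℕ) : ℝ) ≤
      ((2 ^ (126 * (h * ⌈x⌉₊ ^ 2)) : ℕ) : ℝ) := Nat.cast_le.2 hc
  refine hc'.trans ?_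
  rw [Nat.cast_pow, Nat.cast_ofNat, ← Real.rpow_natCast]
  refine Real.rpow_le_rpow_of_exponent_le (by norm_num) ?_
  rw [Nat.cast_mul, Nat.cast_mul, Nat.cast_pow, Nat.cast_ofNat]
  have h1 : (⌈x⌉₊ : ℝ) ^ 2 ≤ 4 * x ^ 2 := by
    have h2 := pow_le_pow_left₀ (by positivity) hrx 2
    calc (⌈x⌉₊ : ℝ) ^ 2 ≤ (2 * x) ^ 2 := h2
      _ = 4 * x ^ 2 := by ring
  have h3 : x ^ 2 ≤ (n : ℝ) ^ ((1 : ℝ) / h) := by
    have h4 : x ^ 2 = ((M : ℝ) * M) ^ ((1 : ℝ) / h) := by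
      rw [Real.mul_rpow hM0 hM0, pow_two]
    rw [h4]
    refine Real.rpow_le_rpow (by positivity) ?_ (by positivity)
    exact_mod_cast hMn
  calc 126 * ((h : ℝ) * (⌈x⌉₊ : ℝ) ^ 2) ≤ 126 * ((h : ℝ) * (4 * x ^ 2)) := by gcongr
    _ ≤ 126 * ((h : ℝ) * (4 * (n : ℝ) ^ ((1 : ℝ) / h))) := by gcongr
    _ = 504 * (h : ℝ) * (n : ℝ) ^ ((1 : ℝ) / h) := by ring

/-- The upper bounds, uniformly in the depth. -/
theorem upperU (p n h : ℕ) (hh : 1 ≤ h) : ∃ π : List (Fm p), Refutes (S0 p) (2 * h + 8) (FF n) π ∧ (∀ A ∈ π, Free A) ∧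
    (psize π : ℝ) ≤ (2 : ℝ) ^ (504 * (h : ℝ) * (n : ℝ) ^ ((1 : ℝ) / h)) := by
  by_cases h1 : 1 ≤ Nat.sqrt (n / 100)
  · have hMn : Nat.sqrt (n / 100) * Nat.sqrt (n / 100) ≤ n := (Nat.sqrt_le _).trans (Nat.div_le_self _ _)
    obtain ⟨r, hr, hMr, hnum⟩ := UpU_num h _ n hh h1 hMn
    obtain ⟨π₀, hπ₀, hs₀⟩ := combU p (Nat.sqrt (n / 100)) r h h1 hr hMr
    obtain ⟨π, hπ, hs₁, hfree⟩ := freeze hπ₀
    have hs := hs₁.trans hs₀
    refine ⟨π, ?_, hfree, ?_⟩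
    · unfold FF
      rw [if_pos h1]
      exact hπ
    · exact (Nat.cast_le.2 hs).trans hnum
  · refine ⟨[cnL true []], ⟨?_, ?_, ?_⟩, ?_, ?_⟩
    · intro A hA
      rw [List.mem_singleton] at hA
      subst hA
      have : (cnL true [] : Fm p).depth ≤ 1 := by
        unfold cnL Fm.depth Fm.dep
        simp
      omega
    · intro i hi
      have hi0 : i = 0 := by simpa using hi
      subst hi0
      left
      refine ⟨[], ?_, ?_⟩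
      · unfold FF
        rw [if_neg h1]
        simp
      · simp [clauseFm]
    · simp
    · intro A hA
      rw [List.mem_singleton] at hA
      subst hA
      intro i
      exact i.elim0
    · have e1 : psize [(cnL true [] : Fm p)] = 1 := by
        unfold psize cnL
        simp [Fm.size]
      rw [e1, Nat.cast_one]
      exact Real.one_le_rpow (by norm_num) (by positivity)

/-- Polynomial size in depth `O(log n)`. -/
theorem upperPoly (p n : ℕ) (hn : 2 ≤ n) : ∃ π : List (Fm p), Refutes (S0 p) (12 * Nat.log 2 n) (FF n) π ∧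
    (∀ A ∈ π, Free A) ∧ psize π ≤ n ^ 2016 := by
  have hl : 1 ≤ Nat.log 2 n := Nat.log_pos (by norm_num) hn
  obtain ⟨π, h1, h2, h3⟩ := upperU p n (Nat.log 2 n + 1) (by omega)
  refine ⟨π, ⟨fun A hA => (h1.1 A hA).trans (by omega), h1.2⟩, h2, ?_⟩
  have hn0 : (0 : ℝ) < n := by exact_mod_cast (by omega : 0 < n)
  set k := Nat.log 2 n + 1 with hk
  have hk0 : (0 : ℝ) < k := by
    have : 0 < k := by omega
    exact_mod_cast this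
  have h4 : (n : ℝ) ≤ (2 : ℝ) ^ k := by
    have : n < 2 ^ k := Nat.lt_pow_succ_log_self (by norm_num) n
    exact_mod_cast this.le
  have h5 : (n : ℝ) ^ ((1 : ℝ) / k) ≤ 2 := by
    calc (n : ℝ) ^ ((1 : ℝ) / k) ≤ ((2 : ℝ) ^ k) ^ ((1 : ℝ) / k) := Real.rpow_le_rpow hn0.le h4 (by positivity)
      _ = 2 := by
        rw [← Real.rpow_natCast, ← Real.rpow_mul (by norm_num), mul_one_div_cancel hk0.ne', Real.rpow_one]
  have h6 : (psize π : ℝ) ≤ ((2 ^ k : ℕ) : ℝ) ^ 1008 := by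
    refine h3.trans ?_
    have h7 : 504 * (k : ℝ) * (n : ℝ) ^ ((1 : ℝ) / k) ≤ ((k * 1008 : ℕ) : ℝ) := by
      push_cast
      nlinarith
    refine (Real.rpow_le_rpow_of_exponent_le (by norm_num) h7).trans ?_
    rw [Real.rpow_natCast, pow_mul]
    push_cast
    exact le_refl _
  have h8 : psize π ≤ (2 ^ k) ^ 1008 := by exact_mod_cast h6
  have h9 : 2 ^ k ≤ n ^ 2 := by
    rw [hk, pow_succ]
    have : 2 ^ Nat.log 2 n ≤ n := Nat.pow_log_le_self 2 (by omega)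
    nlinarith
  calc psize π ≤ (2 ^ k) ^ 1008 := h8
    _ ≤ (n ^ 2) ^ 1008 := Nat.pow_le_pow_left h9 _
    _ = n ^ 2016 := by rw [← pow_mul]

end ACpHier
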