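import Pool.Agent.H42.SH.Defs
import Pool.Agent.H65.AF.Assemble

/-!
helper42 (project MP_28250c_SH): the two inputs and the final statement.
-/

set_option autoImplicit false

namespace ACpHier

open ACpFrege

/-- The formula contains no MOD connective. -/
def Free {p : ℕ} : Fm p → Prop
  | .var _ => True
  | .neg A => Free A
  | .cn _ _ A => ∀ i, Free (A i)
  | .md _ _ _ => False

/-- The upper bounds: depth `2 h + 8`, size `2^(n^(2/h))`, without MOD connectives. -/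
def UpperFF : Prop :=
  ∀ p h : ℕ, 1 ≤ h → ∃ n₀ : ℕ, ∀ n ≥ n₀, ∃ π : List (Fm p), Refutes (S0 p) (2 * h + 8) (FF n) π ∧ (∀ A ∈ π, Free A) ∧
    (psize π : ℝ) ≤ (2 : ℝ) ^ ((n : ℝ) ^ ((2 : ℝ) / h))

/-- The lower bounds of project AF, for the CNFs `FF n`. -/
def LowerFF : Prop :=
  ∀ p : ℕ, p.Prime → ∀ S : List (Rule p), (∀ R ∈ S, R.Sound) → ∃ n₀ : ℕ, ∀ n ≥ n₀, ∀ d : ℕ,
    Real.log n ^ (d + 1) ≤ (n : ℝ) ^ ((1 : ℝ) / 5000) →
    ∀ π : List (Fm p), Refutes S d (FF n) π → (2 : ℝ) ^ ((n : ℝ) ^ ((1 : ℝ) / (5000 * (d + 1)))) ≤ psize π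

/-- `F` is a family of unsatisfiable CNFs of width at most 8 in at most `n` variables, of size at most `(n + 2)^c`. -/
def Family (c : ℕ) (F : ℕ → CNF) : Prop :=
  ∀ n, (F n).Unsat ∧ (F n).size ≤ (n + 2) ^ c ∧ ∀ C ∈ F n, C.length ≤ 8 ∧ ∀ l ∈ C, l.1 < n

/-- The strict depth hierarchy, all sizes: for every depth `d` and every `K`, MOD-free refutations of some larger depth of size
`s`, while all refutations of depth `d` in all systems have size at least `2^((log s)^K)`. -/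
def HierA : Prop :=
  ∃ (c : ℕ) (F : ℕ → CNF), Family c F ∧ ∀ p : ℕ, p.Prime → ∃ S₀ : List (Rule p), (∀ R ∈ S₀, R.Sound) ∧
    (∀ h : ℕ, 1 ≤ h → ∃ n₀ : ℕ, ∀ n ≥ n₀, ∃ π : List (Fm p), Refutes S₀ (2 * h + 8) (F n) π ∧ (∀ A ∈ π, Free A) ∧
      (psize π : ℝ) ≤ (2 : ℝ) ^ ((n : ℝ) ^ ((2 : ℝ) / h))) ∧
    ∀ S : List (Rule p), (∀ R ∈ S, R.Sound) → ∀ d K : ℕ, 1 ≤ K → ∃ n₀ : ℕ, ∀ n ≥ n₀,
      (∀ π' : List (Fm p), Refutes S d (F n) π' → (2 : ℝ) ^ ((n : ℝ) ^ ((1 : ℝ) / (5000 * (d + 1)))) ≤ psize π') ∧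
      ∃ π : List (Fm p), Refutes S₀ (20010 * K * (d + 1)) (F n) π ∧ (∀ A ∈ π, Free A) ∧
        ∀ π' : List (Fm p), Refutes S d (F n) π' → (2 : ℝ) ^ (Real.logb 2 (psize π) ^ K) ≤ psize π'

/-- The strict depth hierarchy, polynomial size: CNFs with MOD-free refutations of some depth of size `n`, while all refutations
of depth `d` in all systems have size at least `2^((log n)^K)`. -/
def HierB : Prop :=
  ∃ c : ℕ, ∀ d K : ℕ, ∃ (D : ℕ) (G : ℕ → CNF), Family c G ∧ ∀ p : ℕ, p.Prime → ∃ S₀ : List (Rule p), (∀ R ∈ S₀, R.Sound) ∧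
    (∃ n₀ : ℕ, ∀ n ≥ n₀, ∃ π : List (Fm p), Refutes S₀ D (G n) π ∧ (∀ A ∈ π, Free A) ∧ psize π ≤ n) ∧
    ∀ S : List (Rule p), (∀ R ∈ S, R.Sound) → ∃ n₀ : ℕ, ∀ n ≥ n₀, ∀ π' : List (Fm p), Refutes S d (G n) π' →
      (2 : ℝ) ^ (Real.logb 2 n ^ K) ≤ psize π'

end ACpHier
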