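import Pool.Agent.H42.SH.HDefs
import Pool.Agent.H42.SH.Snd
import Pool.Agent.H42.SH.Fml

/-!
ROW HierA (about 100 lines): numerics of the hierarchy.
PROOF: `c := 30`, `F := FF` (`FF_ok`), `S₀ := S0 p` (`S0_sound`). Given `S`, `d`, `K ≥ 1` take `h := 10000 * K * (d + 1)`; `2 h + 8 ≤ 20010 K (d + 1)`, and a refutation of depth `D` is one of every larger depth. `n₀` from `hU p h` and `hL p _ S`,
and such that `log n ^ (d + 1) ≤ n ^ (1/5000)` (true for large `n`, `isLittleO_log_rpow_atTop` or `isLittleO_pow_log_id_atTop`), `1 ≤ n`. `s := psize π ≤ 2^(n^(2/h))`, `1 ≤ s` (a refutation contains a line, sizes are positive: `size_pos`), so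
`0 ≤ logb 2 s ≤ n^(2/h)`, `(logb 2 s)^K ≤ n^(2 K / h) = n^(1/(5000 (d + 1)))`.
-/

set_option autoImplicit false

namespace ACpHier

open ACpFrege

/-- for large `n` the depth `d` is admissible -/
theorem ev_depth (d : ℕ) : ∃ n₀ : ℕ, ∀ n ≥ n₀, Real.log n ^ (d + 1) ≤ (n : ℝ) ^ ((1 : ℝ) / 5000) := by
  have h := (isLittleO_log_rpow_rpow_atTop (s := (1 : ℝ) / 5000) ((d + 1 : ℕ) : ℝ) (by norm_num)).bound
    (show (0 : ℝ) < 1 by norm_num)
  have h2 := (tendsto_natCast_atTop_atTop (R := ℝ)).eventually h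
  rw [Filter.eventually_atTop] at h2
  obtain ⟨n₀, h3⟩ := h2
  refine ⟨n₀, fun n hn => ?_⟩
  have h4 := h3 n hn
  rw [one_mul, Real.rpow_natCast, Real.norm_eq_abs, Real.norm_eq_abs,
    abs_of_nonneg (Real.rpow_nonneg (Nat.cast_nonneg n) _)] at h4
  exact (le_abs_self _).trans h4

theorem psize_pos {p : ℕ} {S : List (Rule p)} {d : ℕ} {F : CNF} {π : List (Fm p)} (h : Refutes S d F π) : 1 ≤ psize π := by
  have h1 := h.2.2
  have h2 : (cnL true [] : Fm p).size ∈ π.map Fm.size := List.mem_map_of_mem h1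
  have h3 : (cnL true [] : Fm p).size ≤ (π.map Fm.size).sum := List.single_le_sum (fun _ _ => Nat.zero_le _) _ h2
  exact (size_pos _).trans h3

private theorem HierA_mono {p : ℕ} {S : List (Rule p)} {d d' : ℕ} {F : CNF} {π : List (Fm p)} (hd : d ≤ d')
    (h : Refutes S d F π) : Refutes S d' F π :=
  ⟨fun A hA => (h.1 A hA).trans hd, h.2⟩

theorem hierA (hL : LowerFF) (hU : UpperFF) : HierA := by
  refine ⟨30, FF, FF_ok, fun p hp => ⟨S0 p, S0_sound p, hU p, ?_⟩⟩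
  intro S hS d K hK
  obtain ⟨n1, h1⟩ := hL p hp S hS
  obtain ⟨n2, h2⟩ := ev_depth d
  have hpos : 1 ≤ K * (d + 1) := Nat.mul_pos hK (Nat.succ_pos d)
  obtain ⟨n3, h3⟩ := hU p (10000 * K * (d + 1)) (by rw [mul_assoc]; omega)
  refine ⟨max n1 (max n2 n3), fun n hn => ?_⟩
  have a1 : n1 ≤ n := (le_max_left _ _).trans hn
  have a2 : n2 ≤ n := ((le_max_left _ _).trans (le_max_right _ _)).trans hn
  have a3 : n3 ≤ n := ((le_max_right _ _).trans (le_max_right _ _)).trans hn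
  have hlow := h1 n a1 d (h2 n a2)
  refine ⟨hlow, ?_⟩
  obtain ⟨π, hπ, hfr, hs⟩ := h3 n a3
  refine ⟨π, HierA_mono (by rw [mul_assoc, mul_assoc]; omega) hπ, hfr, fun π' hπ' => le_trans ?_ (hlow π' hπ')⟩
  apply Real.rpow_le_rpow_of_exponent_le (by norm_num)
  have hs1 : (1 : ℝ) ≤ psize π := by exact_mod_cast psize_pos hπ
  have l0 : 0 ≤ Real.logb 2 (psize π) := Real.logb_nonneg (by norm_num) hs1
  have l1 : Real.logb 2 (psize π) ≤ (n : ℝ) ^ ((2 : ℝ) / ((10000 * K * (d + 1) : ℕ) : ℝ)) := by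
    rw [Real.logb_le_iff_le_rpow (by norm_num) (by linarith)]
    exact hs
  have hK0 : (K : ℝ) ≠ 0 := by
    have : (0 : ℝ) < K := by exact_mod_cast hK
    exact this.ne'
  have hd0 : ((d : ℝ) + 1) ≠ 0 := by positivity
  calc Real.logb 2 (psize π) ^ K ≤ ((n : ℝ) ^ ((2 : ℝ) / ((10000 * K * (d + 1) : ℕ) : ℝ))) ^ K :=
        pow_le_pow_left₀ l0 l1 K
    _ = (n : ℝ) ^ ((2 : ℝ) / ((10000 * K * (d + 1) : ℕ) : ℝ) * K) := by
        rw [← Real.rpow_natCast, ← Real.rpow_mul (Nat.cast_nonneg n)]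
    _ = (n : ℝ) ^ ((1 : ℝ) / (5000 * (d + 1))) := by
        congr 1
        push_cast
        field_simp
        norm_num

end ACpHier
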