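import Pool.Agent.H42.SH.HDefs
import Pool.Agent.H42.SH.Snd

/-!
ROW HierB (about 150 lines): numerics of the hierarchy, polynomial size.
PROOF: `c := 30`. Given `d`, `K`: `m := 10000 * (d + 1) * (K + 1)`, `h := 2 * m`, `D := 2 h + 8`, `G n := FF (min n ⌊(logb 2 n)^m⌋₊)`. `Family`: the index is at most `n` (monotone bounds of `FF_ok`; variables `< index ≤ n`). For large `n`: `x := ⌊(logb 2 n)^m⌋₊ ≤ n`, `x → ∞`
(so `x` is above the thresholds of `hU p h`, of `hL p _ S`, and `log x ^ (d + 1) ≤ x ^ (1/5000)`: `isLittleO_log_rpow_atTop`);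
upper: `x^(2/h) = x^(1/m) ≤ logb 2 n`, so `psize π ≤ 2^(logb 2 n) = n`. Lower: `x ≥ (logb 2 n)^m / 2`, `x^(1/(5000 (d+1))) ≥ (logb 2 n)^(2 (K+1)) / 2 ≥ (logb 2 n)^K` for large `n`.
-/

set_option autoImplicit false

namespace ACpHier

open ACpFrege

private theorem HierB_log (d : ℕ) : ∃ X₀ : ℕ, ∀ x : ℕ, X₀ ≤ x →
    Real.log x ^ (d + 1) ≤ (x : ℝ) ^ ((1 : ℝ) / 5000) := by
  have hr : (0 : ℝ) < 1 / (5000 * (d + 1)) := by positivity
  have h1 : ∀ᶠ x : ℝ in Filter.atTop, ‖Real.log x‖ ≤ 1 * ‖x ^ ((1 : ℝ) / (5000 * (d + 1)))‖ :=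
    (isLittleO_log_rpow_atTop hr).bound one_pos
  obtain ⟨X, hX⟩ := Filter.eventually_atTop.1 h1
  refine ⟨max ⌈X⌉₊ 1, fun x hx => ?_⟩
  have hx1 : (1 : ℝ) ≤ x := by exact_mod_cast (le_max_right _ _).trans hx
  have hx0 : (0 : ℝ) ≤ x := zero_le_one.trans hx1
  have h2 := hX x ((Nat.le_ceil X).trans (by exact_mod_cast (le_max_left _ _).trans hx))
  have hl : 0 ≤ Real.log x := Real.log_nonneg hx1
  rw [Real.norm_of_nonneg hl, Real.norm_of_nonneg (Real.rpow_nonneg hx0 _), one_mul] at h2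
  calc Real.log x ^ (d + 1) ≤ ((x : ℝ) ^ ((1 : ℝ) / (5000 * (d + 1)))) ^ (d + 1) := pow_le_pow_left₀ hl h2 _
    _ = (x : ℝ) ^ ((1 : ℝ) / 5000) := by
      rw [← Real.rpow_natCast, ← Real.rpow_mul hx0]
      congr 1
      push_cast
      field_simp

private theorem HierB_ev (m : ℕ) (hm : 1 ≤ m) (B : ℕ) : ∀ᶠ n : ℕ in Filter.atTop,
    (2 : ℝ) ≤ Real.logb 2 n ∧ Real.logb 2 n ^ m ≤ n ∧ B ≤ min n ⌊Real.logb 2 n ^ m⌋₊ := by
  have t1 : Filter.Tendsto (fun n : ℕ => Real.logb 2 (n : ℝ)) Filter.atTop Filter.atTop :=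
    (Real.tendsto_logb_atTop one_lt_two).comp tendsto_natCast_atTop_atTop
  have e1 := t1.eventually_ge_atTop (2 : ℝ)
  have e2 := t1.eventually_ge_atTop (B : ℝ)
  have hl2 : (0 : ℝ) < Real.log 2 := Real.log_pos one_lt_two
  have h3 : ∀ᶠ x : ℝ in Filter.atTop, ‖Real.log x ^ m‖ ≤ Real.log 2 ^ m * ‖id x‖ :=
    (Real.isLittleO_pow_log_id_atTop (n := m)).bound (by positivity)
  have e3 := tendsto_natCast_atTop_atTop.eventually h3
  filter_upwards [e1, e2, e3, Filter.eventually_ge_atTop (max B 1)] with n a1 a2 a3 a4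
  have hn1 : (1 : ℝ) ≤ n := by exact_mod_cast (le_max_right _ _).trans a4
  have hl : 0 ≤ Real.log n := Real.log_nonneg hn1
  refine ⟨a1, ?_, ?_⟩
  · rw [id, Real.norm_of_nonneg (pow_nonneg hl m), Real.norm_of_nonneg (zero_le_one.trans hn1)] at a3
    unfold Real.logb
    rw [div_pow, div_le_iff₀ (by positivity)]
    linarith
  · refine le_min ((le_max_left _ _).trans a4) (Nat.le_floor ?_)
    exact a2.trans (le_self_pow₀ (by linarith) (by omega))

theorem hierB (hL : LowerFF) (hU : UpperFF) : HierB := by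
  refine ⟨30, fun d K => ?_⟩
  obtain ⟨m, hm⟩ : ∃ m, m = 10000 * (d + 1) * (K + 1) := ⟨_, rfl⟩
  have hm1 : 1 ≤ m := by
    rw [hm]
    exact Nat.one_le_iff_ne_zero.2 (by positivity)
  have hmK : 5000 * (d + 1) * K + 1 ≤ m := by
    rw [hm]
    nlinarith [Nat.zero_le (d * K)]
  refine ⟨2 * (2 * m) + 8, fun n => FF (min n ⌊Real.logb 2 n ^ m⌋₊), ?_, ?_⟩
  · intro n
    have h1 := FF_ok (min n ⌊Real.logb 2 n ^ m⌋₊)
    have h2 : min n ⌊Real.logb 2 n ^ m⌋₊ ≤ n := min_le_left _ _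
    refine ⟨h1.1, h1.2.1.trans (Nat.pow_le_pow_left (by omega) 30), fun C hC => ?_⟩
    exact ⟨(h1.2.2 C hC).1, fun l hl => lt_of_lt_of_le ((h1.2.2 C hC).2 l hl) h2⟩
  · intro p hp
    refine ⟨S0 p, S0_sound p, ?_, ?_⟩
    · obtain ⟨N, hN⟩ := hU p (2 * m) (by omega)
      obtain ⟨n₀, hn₀⟩ := Filter.eventually_atTop.1 (HierB_ev m hm1 N)
      refine ⟨max n₀ 1, fun n hn => ?_⟩
      obtain ⟨a1, a2, a3⟩ := hn₀ n ((le_max_left _ _).trans hn)
      obtain ⟨π, h1, h2, h3⟩ := hN _ a3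
      refine ⟨π, h1, h2, ?_⟩
      have hn1 : (0 : ℝ) < n := by
        exact_mod_cast lt_of_lt_of_le Nat.one_pos ((le_max_right _ _).trans hn)
      have hl0 : 0 ≤ Real.logb 2 n := le_trans (by norm_num) a1
      have hx : ((min n ⌊Real.logb 2 n ^ m⌋₊ : ℕ) : ℝ) ≤ Real.logb 2 n ^ m :=
        le_trans (by exact_mod_cast min_le_right _ _) (Nat.floor_le (pow_nonneg hl0 m))
      have h4 : ((min n ⌊Real.logb 2 n ^ m⌋₊ : ℕ) : ℝ) ^ ((2 : ℝ) / ((2 * m : ℕ) : ℝ)) ≤ Real.logb 2 n := by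
        refine (Real.rpow_le_rpow (Nat.cast_nonneg _) hx (by positivity)).trans (le_of_eq ?_)
        rw [← Real.rpow_natCast, ← Real.rpow_mul hl0]
        have hm0 : (m : ℝ) ≠ 0 := by
          have : m ≠ 0 := by omega
          exact_mod_cast this
        have : (m : ℝ) * ((2 : ℝ) / ((2 * m : ℕ) : ℝ)) = 1 := by
          push_cast
          field_simp
        rw [this, Real.rpow_one]
      have h5 : (psize π : ℝ) ≤ n := by
        refine h3.trans ((Real.rpow_le_rpow_of_exponent_le one_le_two h4).trans (le_of_eq ?_))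
        exact Real.rpow_logb zero_lt_two (by norm_num) hn1
      exact_mod_cast h5
    · intro S hS
      obtain ⟨N, hN⟩ := hL p hp S hS
      obtain ⟨X₀, hX₀⟩ := HierB_log d
      obtain ⟨n₀, hn₀⟩ := Filter.eventually_atTop.1 (HierB_ev m hm1 (max N X₀))
      refine ⟨n₀, fun n hn π' hπ' => ?_⟩
      obtain ⟨a1, a2, a3⟩ := hn₀ n hn
      have h1 := hN _ ((le_max_left _ _).trans a3) d (hX₀ _ ((le_max_right _ _).trans a3)) π' hπ'
      refine le_trans (Real.rpow_le_rpow_of_exponent_le one_le_two ?_) h1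
      have hl0 : 0 ≤ Real.logb 2 n := le_trans (by norm_num) a1
      have hl1 : 1 ≤ Real.logb 2 n := le_trans (by norm_num) a1
      have hmin : min n ⌊Real.logb 2 n ^ m⌋₊ = ⌊Real.logb 2 n ^ m⌋₊ := by
        refine min_eq_right ?_
        have := (Nat.floor_le (pow_nonneg hl0 m)).trans a2
        exact_mod_cast this
      have h2 : Real.logb 2 n ^ (5000 * (d + 1) * K) ≤ ((min n ⌊Real.logb 2 n ^ m⌋₊ : ℕ) : ℝ) := by
        rw [hmin]
        have h3 : Real.logb 2 n ^ m < (⌊Real.logb 2 n ^ m⌋₊ : ℝ) + 1 := Nat.lt_floor_add_one _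
        have h4 : Real.logb 2 n ^ (5000 * (d + 1) * K + 1) ≤ Real.logb 2 n ^ m := pow_le_pow_right₀ hl1 hmK
        have h5 : 1 ≤ Real.logb 2 n ^ (5000 * (d + 1) * K) := one_le_pow₀ hl1
        rw [pow_succ] at h4
        nlinarith
      have hd : (0 : ℝ) < 5000 * ((d : ℝ) + 1) := by positivity
      calc Real.logb 2 n ^ K = (Real.logb 2 n ^ (5000 * (d + 1) * K)) ^ ((1 : ℝ) / (5000 * (d + 1))) := by
            rw [← Real.rpow_natCast _ (5000 * (d + 1) * K), ← Real.rpow_mul hl0, ← Real.rpow_natCast _ K]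
            congr 1
            push_cast
            field_simp
        _ ≤ _ := Real.rpow_le_rpow (pow_nonneg hl0 _) h2 (by positivity)

end ACpHier
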