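import Pool.Agent.H42.SH.TmL

/-!
ROW SemF (about 100 lines): meaning of the templates. PROOF. Unfold, `tr_cnT_true`, `tr_cnT_false`, `List.mem_map`, `Finset.mem_toList`. `tr_SumT`: some `τ` with sum `j` has `N i (τ i)` true for all `i`, i.e.
`τ i = v i` for all `i`, i.e. `∑ v i = j`. `tr_LinT`: the conjunction for `τ` says: for all `i`, `j`: `N i j` is true iff `τ i = j`.
-/

set_option autoImplicit false

namespace ACpHier

variable {q : ℕ} [NeZero q] {ι κ : Type} [Fintype κ] [DecidableEq κ]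

theorem tr_SumT {σ : ι → Prop} {N : κ → ZMod q → Tm ι} {v : κ → ZMod q} (h : ∀ i, Has (fun j => (N i j).tr σ) (v i)) :
    Has (fun j => (SumT N j).tr σ) (∑ i, v i) := by
  intro j
  show (SumT N j).tr σ ↔ j = ∑ i, v i
  unfold SumT
  rw [tr_cnT_true]
  constructor
  · rintro ⟨T, hT, ht⟩
    obtain ⟨τ, hτ, rfl⟩ := List.mem_map.1 hT
    rw [Finset.mem_toList, Finset.mem_filter] at hτ
    rw [tr_cnT_false] at ht
    have e : τ = v := by
      funext i
      refine (h i (τ i)).1 (ht _ (List.mem_map.2 ⟨i, ?_, rfl⟩))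
      rw [Finset.mem_toList]
      exact Finset.mem_univ _
    rw [← e]
    exact hτ.2.symm
  · rintro rfl
    refine ⟨_, List.mem_map.2 ⟨v, ?_, rfl⟩, ?_⟩
    · rw [Finset.mem_toList, Finset.mem_filter]
      exact ⟨Finset.mem_univ _, rfl⟩
    · rw [tr_cnT_false]
      intro T hT
      obtain ⟨i, _, rfl⟩ := List.mem_map.1 hT
      exact (h i (v i)).2 rfl

theorem tr_LinT {σ : ι → Prop} {N : κ → ZMod q → Tm ι} {c : κ → ZMod q} {b : ZMod q} :
    (LinT N c b).tr σ ↔ ∃ τ : κ → ZMod q, ∑ i, c i * τ i = b ∧ ∀ i, Has (fun j => (N i j).tr σ) (τ i) := by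
  unfold LinT
  rw [tr_cnT_true]
  constructor
  · rintro ⟨T, hT, ht⟩
    obtain ⟨τ, hτ, rfl⟩ := List.mem_map.1 hT
    rw [Finset.mem_toList, Finset.mem_filter] at hτ
    rw [tr_cnT_false] at ht
    refine ⟨τ, hτ.2, fun i j => ?_⟩
    have h1 := ht _ (List.mem_map.2 ⟨(i, j), by rw [Finset.mem_toList]; exact Finset.mem_univ _, rfl⟩)
    show (N i j).tr σ ↔ j = τ i
    by_cases e : τ i = j
    · rw [if_pos e] at h1
      exact ⟨fun _ => e.symm, fun _ => h1⟩
    · rw [if_neg e] at h1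
      have h2 : ¬ (N i j).tr σ := h1
      exact ⟨fun h => absurd h h2, fun h => absurd h.symm e⟩
  · rintro ⟨τ, hs, hh⟩
    refine ⟨_, List.mem_map.2 ⟨τ, ?_, rfl⟩, ?_⟩
    · rw [Finset.mem_toList, Finset.mem_filter]
      exact ⟨Finset.mem_univ _, hs⟩
    · rw [tr_cnT_false]
      intro T hT
      obtain ⟨x, _, rfl⟩ := List.mem_map.1 hT
      have h3 : (N x.1 x.2).tr σ ↔ x.2 = τ x.1 := hh x.1 x.2
      by_cases e : τ x.1 = x.2
      · rw [if_pos e]
        exact h3.2 e.symm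
      · rw [if_neg e]
        show ¬ (N x.1 x.2).tr σ
        exact fun h => e (h3.1 h).symm

theorem Has.unique {N : ZMod q → Prop} {v v' : ZMod q} (h : Has N v) (h' : Has N v') : v = v' :=
  (h' v).1 ((h v).2 rfl)

end ACpHier
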