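import Pool.Agent.H42.SH.TmL

/-!
ROW SizeF (about 120 lines): sizes and depths of `SumF`, `LinF`, and the connection with the templates. PROOF: `sb_cnT`, `List.map_map`; `size_cnL`, sums over lists are at most
length times maximum (`List.sum_le_card_nsmul`), `Finset.length_toList`, `Finset.card_filter_le`, `Fintype.card_fun`, `ZMod.card`; `depth_cnL_le` twice, `depth_neg_le`.
-/

set_option autoImplicit false

namespace ACpHier

open ACpFrege

variable {p q : ℕ} [NeZero q] {ι κ : Type} [Fintype κ] [DecidableEq κ]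

private theorem SizeF_sum_le {α : Type} (l : List α) (f : α → ℕ) (B : ℕ) (h : ∀ x ∈ l, f x ≤ B) :
    (l.map f).sum ≤ l.length * B := by
  have h1 : (l.map f).sum ≤ (l.map f).length • B := by
    refine List.sum_le_card_nsmul _ _ fun x hx => ?_
    obtain ⟨y, hy, rfl⟩ := List.mem_map.mp hx
    exact h y hy
  rwa [List.length_map, smul_eq_mul] at h1

private theorem SizeF_cnL (k : Bool) {α : Type} (l : List α) (f : α → Fm p) (n B : ℕ) (hn : l.length ≤ n)
    (h : ∀ x ∈ l, (f x).size ≤ B) : (cnL k (l.map f)).size ≤ 1 + n * B := by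
  rw [size_cnL, List.map_map]
  refine Nat.add_le_add_left ((SizeF_sum_le l (Fm.size ∘ f) B h).trans (Nat.mul_le_mul_right B hn)) 1

private theorem SizeF_card (P : (κ → ZMod q) → Prop) [DecidablePred P] :
    ((Finset.univ : Finset (κ → ZMod q)).filter P).toList.length ≤ q ^ Fintype.card κ := by
  rw [Finset.length_toList]
  refine (Finset.card_filter_le _ _).trans ?_
  rw [Finset.card_univ, Fintype.card_fun, ZMod.card]

theorem sb_SumT (a : ι → Fm p) (N : κ → ZMod q → Tm ι) (j : ZMod q) : (SumT N j).sb a = SumF (fun i v => (N i v).sb a) j := by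
  unfold SumT SumF
  rw [sb_cnT, List.map_map]
  congr 1
  refine List.map_congr_left fun τ _ => ?_
  show (cnT false _).sb a = _
  rw [sb_cnT, List.map_map]
  rfl

theorem sb_LinT (a : ι → Fm p) (N : κ → ZMod q → Tm ι) (c : κ → ZMod q) (b : ZMod q) :
    (LinT N c b).sb a = LinF (fun i v => (N i v).sb a) c b := by
  unfold LinT LinF
  rw [sb_cnT, List.map_map]
  congr 1
  refine List.map_congr_left fun τ _ => ?_
  show (cnT false _).sb a = _
  rw [sb_cnT, List.map_map]
  congr 1
  refine List.map_congr_left fun x _ => ?_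
  show (if τ x.1 = x.2 then N x.1 x.2 else .neg (N x.1 x.2)).sb a = _
  by_cases hx : τ x.1 = x.2
  · rw [if_pos hx, if_pos hx]
  · rw [if_neg hx, if_neg hx]
    rfl

theorem size_SumF {N : κ → ZMod q → Fm p} {s : ℕ} (h : ∀ i v, (N i v).size ≤ s) (j : ZMod q) :
    (SumF N j).size ≤ 1 + q ^ Fintype.card κ * (1 + Fintype.card κ * s) := by
  unfold SumF
  refine SizeF_cnL true _ _ _ _ (SizeF_card _) fun τ _ => ?_
  refine SizeF_cnL false _ _ _ _ (le_of_eq ?_) fun i _ => h i (τ i)
  rw [Finset.length_toList, Finset.card_univ]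

theorem depth_SumF {N : κ → ZMod q → Fm p} {e : ℕ} (h : ∀ i v, (N i v).depth ≤ e) (j : ZMod q) : (SumF N j).depth ≤ e + 2 := by
  unfold SumF
  refine depth_cnL_le fun A hA => ?_
  obtain ⟨τ, _, rfl⟩ := List.mem_map.mp hA
  refine depth_cnL_le fun B hB => ?_
  obtain ⟨i, _, rfl⟩ := List.mem_map.mp hB
  exact h i (τ i)

theorem size_LinF {N : κ → ZMod q → Fm p} {s : ℕ} (h : ∀ i v, (N i v).size ≤ s) (c : κ → ZMod q) (b : ZMod q) :
    (LinF N c b).size ≤ 1 + q ^ Fintype.card κ * (1 + Fintype.card κ * q * (s + 1)) := by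
  unfold LinF
  refine SizeF_cnL true _ _ _ _ (SizeF_card _) fun τ _ => ?_
  refine SizeF_cnL false _ _ _ _ (le_of_eq ?_) fun x _ => ?_
  · rw [Finset.length_toList, Finset.card_univ, Fintype.card_prod, ZMod.card]
  · have hx := h x.1 x.2
    show (if τ x.1 = x.2 then N x.1 x.2 else .neg (N x.1 x.2)).size ≤ s + 1
    split_ifs
    · omega
    · rw [size_neg]
      omega

theorem depth_LinF {N : κ → ZMod q → Fm p} {e : ℕ} (h : ∀ i v, (N i v).depth ≤ e) (c : κ → ZMod q) (b : ZMod q) :
    (LinF N c b).depth ≤ e + 3 := by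
  unfold LinF
  refine depth_cnL_le fun A hA => ?_
  obtain ⟨τ, _, rfl⟩ := List.mem_map.mp hA
  refine depth_cnL_le fun B hB => ?_
  obtain ⟨x, _, rfl⟩ := List.mem_map.mp hB
  have hx := h x.1 x.2
  show (if τ x.1 = x.2 then N x.1 x.2 else .neg (N x.1 x.2)).depth ≤ e + 1
  split_ifs
  · omega
  · exact (depth_neg_le _).trans (by omega)

end ACpHier
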