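import Pool.Agent.H42.SH.TDefs
import Pool.Agent.H42.SH.Compl
import Pool.Agent.H42.SH.SizeF
import Pool.Agent.H42.SH.SemF

/-!
ROW StepT (about 150 lines): one step of the recursion, in general.
PROOF of `par_sum`: `T j := SumT (fun i v => .at (some (f i, v))) j`, `sb_SumT`, `tr_SumT`.  `par_self`: `T j := .at (some (i, j))`.
PROOF of `step`: `complete` with `ι := Option (κ × ZMod q)` (card `card κ * q + 1`), `a := atm B N`, `Hy k := cnT true [LinT (fun i j => .at (some (nd k i, j))) (c k) (b k), .at none]`,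
conclusion `cnT true [LinT (fun i j => T i j) C b', .at none]` with the templates `T i` from `hP i` (`choose`); `sb` is computed with `sb_cnT`, `sb_LinT`. Meaning: if `σ none` both are true; otherwise all `LinT` hold;
`cover` and `tr_LinT`, `Has.unique` give one value `v x` for every `x : κ` (choice), the equations hold for `v`, `alg` and `hP` give the conclusion with `τ e := g e v`.
Sizes: `Fact` has size at most `1 + (1 + q^3 (1 + 3 q (s + 1))) + s`, plus 5 is at most `20 q^4 s` (`1 ≤ s` by `size_pos B`, `1 ≤ q`); `∑ (size + 1) ≤ (card κ * q + 1) (s + 1)`. Depth of `Fact`: at most `e + 4`; `δ := e + 4`.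
-/

set_option autoImplicit false

namespace ACpHier

open ACpFrege

variable {p q : ℕ} [NeZero q] {F : CNF} {d : ℕ}

theorem size_Fact {B : Fm p} {N : Fin 3 → ZMod q → Fm p} {s : ℕ} (hB : B.size ≤ s) (h : ∀ i v, (N i v).size ≤ s)
    (c : Fin 3 → ZMod q) (b : ZMod q) : (Fact B N c b).size + 5 ≤ 20 * q ^ 4 * s := by
  have hs : 1 ≤ s := (size_pos B).trans hB
  have hq : 1 ≤ q := Nat.one_le_iff_ne_zero.2 (NeZero.ne q)
  have h1 : (Fact B N c b).size = 1 + ((LinF N c b).size + B.size) := by
    unfold Fact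
    rw [size_cnL, List.map_cons, List.map_cons, List.map_nil, List.sum_cons, List.sum_cons, List.sum_nil, add_zero]
  have h2 := size_LinF h c b
  rw [Fintype.card_fin] at h2
  have h3 : 1 ≤ q ^ 4 * s := Nat.mul_pos (pow_pos hq 4) hs
  have h4 : q ^ 3 ≤ q ^ 4 * s := by
    calc q ^ 3 = q ^ 3 * 1 := (mul_one _).symm
      _ ≤ q ^ 3 * (q * s) := Nat.mul_le_mul_left _ (Nat.mul_pos hq hs)
      _ = q ^ 4 * s := by ring
  have h5 : s ≤ q ^ 4 * s := Nat.le_mul_of_pos_left _ (pow_pos hq 4)
  have h6 : q ^ 4 ≤ q ^ 4 * s := Nat.le_mul_of_pos_right _ hs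
  have h7 : q ^ 3 * (1 + 3 * q * (s + 1)) = q ^ 3 + 3 * (q ^ 4 * s) + 3 * q ^ 4 := by ring
  rw [h7] at h2
  rw [h1, mul_assoc]
  omega

theorem depth_Fact {B : Fm p} {N : Fin 3 → ZMod q → Fm p} {e : ℕ} (hB : B.depth ≤ e) (h : ∀ i v, (N i v).depth ≤ e)
    (c : Fin 3 → ZMod q) (b : ZMod q) : (Fact B N c b).depth ≤ e + 4 := by
  unfold Fact
  refine depth_cnL_le (e := e + 3) fun A hA => ?_
  rw [List.mem_cons, List.mem_singleton] at hA
  rcases hA with rfl | rfl
  · exact depth_LinF h c b
  · exact hB.trans (Nat.le_add_right _ _)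

theorem par_sum {κ Λ : Type} [Fintype Λ] [DecidableEq Λ] (B : Fm p) (N : κ → ZMod q → Fm p) (f : Λ → κ) :
    Par B N (SumF fun i => N (f i)) (fun v => ∑ i, v (f i)) := by
  refine ⟨fun j => SumT (fun i v => .at (some (f i, v))) j, fun j => ?_, fun σ v h => ?_⟩
  · show (SumT _ j).sb (atm B N) = _
    rw [sb_SumT]
    rfl
  · exact tr_SumT (v := fun i => v (f i)) fun i => h (f i)

theorem par_self {κ : Type} (B : Fm p) (N : κ → ZMod q → Fm p) (i : κ) : Par B N (N i) (fun v => v i) := by
  exact ⟨fun j => .at (some (i, j)), fun j => rfl, fun σ v h => h i⟩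

theorem step {κ K : Type} [Fintype κ] [DecidableEq κ] (B : Fm p) (N : κ → ZMod q → Fm p) (nd : K → Fin 3 → κ)
    (c : K → Fin 3 → ZMod q) (b : K → ZMod q) (P : Fin 3 → ZMod q → Fm p) (g : Fin 3 → (κ → ZMod q) → ZMod q)
    (hP : ∀ e, Par B N (P e) (g e)) (C : Fin 3 → ZMod q) (b' : ZMod q) (cover : ∀ x, ∃ k e, nd k e = x)
    (alg : ∀ v : κ → ZMod q, (∀ k, ∑ e, c k e * v (nd k e) = b k) → ∑ e, C e * g e v = b')
    {e s Z : ℕ} (hB : B.depth ≤ e) (hN : ∀ i j, (N i j).depth ≤ e) (hPd : ∀ i j, (P i j).depth ≤ e) (hd : e + 6 ≤ d)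
    (sB : B.size ≤ s) (sN : ∀ i j, (N i j).size ≤ s) (sP : ∀ i j, (P i j).size ≤ s)
    (hZ : (Fintype.card κ * q + 1) * (s + 1) + 20 * q ^ 4 * s ≤ Z) :
    Rch F d (2 ^ (Fintype.card κ * q + 1) * (30 * Z ^ 2)) (Set.range fun k => Fact B (fun i => N (nd k i)) (c k) (b k))
      {Fact B P C b'} := by
  classical
  choose T hT1 hT2 using hP
  have hHsb : ∀ k, (cnT true [LinT (fun i j => Tm.at (some (nd k i, j))) (c k) (b k), .at none]).sb (atm B N) =
      Fact B (fun i => N (nd k i)) (c k) (b k) := by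
    intro k
    rw [sb_cnT, List.map_cons, List.map_cons, List.map_nil, sb_LinT]
    rfl
  have hCsb : (cnT true [LinT T C b', .at none]).sb (atm B N) = Fact B P C b' := by
    rw [sb_cnT, List.map_cons, List.map_cons, List.map_nil, sb_LinT]
    have h1 : (fun i v => (T i v).sb (atm B N)) = P := by
      funext i v
      exact hT1 i v
    rw [h1]
    rfl
  have hcard : Fintype.card (Option (κ × ZMod q)) = Fintype.card κ * q + 1 := by
    rw [Fintype.card_option, Fintype.card_prod, ZMod.card]
  have hsum : ∑ i : Option (κ × ZMod q), ((atm B N i).size + 1) ≤ (Fintype.card κ * q + 1) * (s + 1) := by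
    have h1 := Finset.sum_le_card_nsmul (Finset.univ : Finset (Option (κ × ZMod q))) (fun i => (atm B N i).size + 1) (s + 1)
      (fun i _ => by
        rcases i with _ | x
        · exact Nat.succ_le_succ sB
        · exact Nat.succ_le_succ (sN x.1 x.2))
    rw [Finset.card_univ, hcard, smul_eq_mul] at h1
    exact h1
  have hmain := complete (F := F) (d := d) (δ := e + 4) (Z := Z) (atm B N)
    (fun k => cnT true [LinT (fun i j => Tm.at (some (nd k i, j))) (c k) (b k), .at none])
    (cnT true [LinT T C b', .at none]) ?_ ?_ ?_ ?_ hd ?_ ?_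
  · rw [hcard, hCsb] at hmain
    have h2 : (Set.range fun k => (cnT true [LinT (fun i j => Tm.at (some (nd k i, j))) (c k) (b k),
        .at none]).sb (atm B N)) = Set.range fun k => Fact B (fun i => N (nd k i)) (c k) (b k) := by
      rw [funext hHsb]
    rw [h2] at hmain
    exact hmain
  · intro σ hσ
    rw [tr_cnT_true]
    by_cases h0 : σ none
    · exact ⟨.at none, List.mem_cons_of_mem _ (List.mem_singleton.2 rfl), h0⟩
    · have h1 : ∀ k, ∃ τ : Fin 3 → ZMod q, ∑ i, c k i * τ i = b k ∧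
          ∀ i, Has (fun j => (Tm.at (some (nd k i, j))).tr σ) (τ i) := by
        intro k
        obtain ⟨T', hT', ht⟩ := (tr_cnT_true σ _).1 (hσ k)
        rw [List.mem_cons, List.mem_singleton] at hT'
        rcases hT' with rfl | rfl
        · exact tr_LinT.1 ht
        · exact absurd ht h0
      choose τ hτ1 hτ2 using h1
      choose kx ex hx using cover
      have hv : ∀ x, Has (fun j => σ (some (x, j))) (τ (kx x) (ex x)) := by
        intro x
        have h2 := hτ2 (kx x) (ex x)
        rw [hx x] at h2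
        exact h2
      have hu : ∀ k i, τ (kx (nd k i)) (ex (nd k i)) = τ k i := fun k i => (hv (nd k i)).unique (hτ2 k i)
      have h3 := alg (fun x => τ (kx x) (ex x)) (fun k => by
        rw [← hτ1 k]
        refine Finset.sum_congr rfl fun i _ => ?_
        show c k i * τ (kx (nd k i)) (ex (nd k i)) = c k i * τ k i
        rw [hu k i])
      refine ⟨LinT T C b', List.mem_cons_self, tr_LinT.2 ⟨fun i => g i (fun x => τ (kx x) (ex x)), h3, fun i => ?_⟩⟩
      exact hT2 i σ _ hv
  · intro i
    rcases i with _ | x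
    · exact hB.trans (Nat.le_add_right _ _)
    · exact (hN x.1 x.2).trans (Nat.le_add_right _ _)
  · intro k
    show ((cnT true [LinT (fun i j => Tm.at (some (nd k i, j))) (c k) (b k), .at none]).sb (atm B N)).depth ≤ e + 4
    rw [hHsb k]
    exact depth_Fact hB (fun i v => hN (nd k i) v) (c k) (b k)
  · rw [hCsb]
    exact depth_Fact hB hPd C b'
  · intro k
    show _ + ((cnT true [LinT (fun i j => Tm.at (some (nd k i, j))) (c k) (b k), .at none]).sb (atm B N)).size + 5 ≤ Z
    rw [hHsb k]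
    have h1 := size_Fact sB (fun i v => sN (nd k i) v) (c k) (b k)
    omega
  · rw [hCsb]
    have h1 := size_Fact sB sP C b'
    omega

end ACpHier
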