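import Pool.Agent.H42.SH.LeafG
import Pool.Agent.H42.SH.StepT

/-!
ROW Leaf (about 150 lines): the leaf lemma. PROOF. `complete` with `ι := Option (Fin 4 × ZMod q)` (card `4 q + 1`), `a none := B`, `a (some (e, j)) := .var (bvar q (ν e) j + s)`; hypotheses indexed by `Fin G.length` (or `{D // D ∈ G}`):
`cnT true [cnT true (D.map fun l => if l.2 then .at (some l.1) else .neg (.at (some l.1))), .at none]`, which becomes `cnL true [clauseFm (shiftC s (gmap ν D)), B] ∈ HC`; conclusion: `cnT true [LinT (fun e j => (tn (nd e) j)) c b, .at none]` where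
`tn none j := cnT (decide (j ≠ 0)) []`, `tn (some e) j := .at (some (e, j))`, which becomes `Fact B (fun e => LN p q s ((nd e).map ν)) c b`. Meaning: `sem` with `σ' e j := σ (some (e, j))`. `δ := 6`: `Fact` has depth at most `2 + 4` (`depth_Fact`, `e := 2`).
Sizes: all at most `Z := 60 q^4 S`.
-/

set_option autoImplicit false

namespace ACpHier

open ACpFrege ACpB

variable {p q : ℕ} [NeZero q] {F : CNF} {d M : ℕ}

/-- The truth of the node. -/
def ndp (σ : Fin 4 → ZMod q → Prop) : Option (Fin 4) → ZMod q → Prop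
  | none => fun j => j = 0
  | some e => σ e

private def Leaf_a (B : Fm p) (s : ℕ) (ν : Fin 4 → Vr M) : Option (Fin 4 × ZMod q) → Fm p
  | none => B
  | some x => .var (bvar q (ν x.1) x.2 + s)

private def Leaf_lit (l : (Fin 4 × ZMod q) × Bool) : Tm (Option (Fin 4 × ZMod q)) :=
  if l.2 then .at (some l.1) else .neg (.at (some l.1))

private def Leaf_tn : Option (Fin 4) → ZMod q → Tm (Option (Fin 4 × ZMod q))
  | none => fun j => cnT (decide (j ≠ 0)) []
  | some e => fun j => .at (some (e, j))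

private theorem Leaf_clause (B : Fm p) (s : ℕ) (ν : Fin 4 → Vr M) (D : GC q) :
    (cnT true [cnT true (D.map Leaf_lit), .at none]).sb (Leaf_a (p := p) B s ν) =
      cnL true [clauseFm (shiftC s (gmap ν D)), B] := by
  have h : (cnT true (D.map Leaf_lit)).sb (Leaf_a (p := p) B s ν) = clauseFm (shiftC s (gmap ν D)) := by
    rw [sb_cnT]
    unfold clauseFm shiftC gmap
    rw [List.map_map, List.map_map, List.map_map]
    congr 1
    refine List.map_congr_left fun l _ => ?_
    show (Leaf_lit l).sb (Leaf_a B s ν) = if l.2 then .var (bvar q (ν l.1.1) l.1.2 + s) else .neg (.var (bvar q (ν l.1.1) l.1.2 + s))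
    unfold Leaf_lit
    by_cases hl : l.2 = true
    · rw [if_pos hl, if_pos hl]
      rfl
    · rw [if_neg hl, if_neg hl]
      rfl
  rw [sb_cnT, List.map_cons, List.map_cons, List.map_nil, h]
  rfl

private theorem Leaf_node (B : Fm p) (s : ℕ) (ν : Fin 4 → Vr M) (n : Option (Fin 4)) (j : ZMod q) :
    (Leaf_tn n j).sb (Leaf_a (p := p) B s ν) = LN p q s (n.map ν) j := by
  cases n with
  | none =>
    show (cnT (decide (j ≠ 0)) []).sb (Leaf_a (p := p) B s ν) = cnL (decide (j ≠ 0)) []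
    rw [sb_cnT, List.map_nil]
  | some e => rfl

private theorem Leaf_node_tr (σ : Option (Fin 4 × ZMod q) → Prop) (n : Option (Fin 4)) (j : ZMod q) :
    (Leaf_tn n j).tr σ ↔ ndp (fun e j => σ (some (e, j))) n j := by
  cases n with
  | none =>
    show (cnT (decide (j ≠ 0)) []).tr σ ↔ j = 0
    by_cases h : j = 0
    · have e : decide (j ≠ 0) = false := by
        rw [decide_eq_false_iff_not]
        exact fun h' => h' h
      rw [e, tr_cnT_false]
      exact ⟨fun _ => h, fun _ T hT => absurd hT List.not_mem_nil⟩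
    · have e : decide (j ≠ 0) = true := by
        rw [decide_eq_true_eq]
        exact h
      rw [e, tr_cnT_true]
      constructor
      · rintro ⟨T, hT, _⟩
        exact absurd hT List.not_mem_nil
      · intro h'
        exact absurd h' h
  | some e => exact Iff.rfl

private theorem Leaf_tr (σ : Option (Fin 4 × ZMod q) → Prop) (D : GC q) (h : (cnT true (D.map Leaf_lit)).tr σ) :
    gtr (fun e j => σ (some (e, j))) D := by
  obtain ⟨T, hT, ht⟩ := (tr_cnT_true σ _).1 h
  obtain ⟨l, hl, rfl⟩ := List.mem_map.1 hT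
  refine ⟨l, hl, ?_⟩
  unfold Leaf_lit at ht
  by_cases h2 : l.2 = true
  · rw [if_pos h2] at ht
    exact ⟨fun _ => h2, fun _ => ht⟩
  · rw [if_neg h2] at ht
    exact ⟨fun h3 => absurd h3 ht, fun h3 => absurd h3 h2⟩

private theorem Leaf_lit_size (B : Fm p) (s : ℕ) (ν : Fin 4 → Vr M) (l : (Fin 4 × ZMod q) × Bool) :
    ((Leaf_lit l).sb (Leaf_a (p := p) B s ν)).size ≤ 2 := by
  unfold Leaf_lit
  by_cases h2 : l.2 = true
  · rw [if_pos h2]
    show 1 ≤ 2
    omega
  · rw [if_neg h2]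
    exact le_refl 2

private theorem Leaf_lit_depth (B : Fm p) (s : ℕ) (ν : Fin 4 → Vr M) (l : (Fin 4 × ZMod q) × Bool) :
    ((Leaf_lit l).sb (Leaf_a (p := p) B s ν)).depth ≤ 1 := by
  unfold Leaf_lit
  by_cases h2 : l.2 = true
  · rw [if_pos h2]
    exact Nat.zero_le _
  · rw [if_neg h2]
    exact depth_neg_le (.var _)

private theorem Leaf_clause_size (B : Fm p) (s : ℕ) (ν : Fin 4 → Vr M) (D : GC q) (S : ℕ) (sB : B.size ≤ S)
    (hl : D.length ≤ q + 3) :
    ((cnT true [cnT true (D.map Leaf_lit), .at none]).sb (Leaf_a (p := p) B s ν)).size ≤ 2 * q + 8 + S := by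
  rw [sb_cnT, List.map_cons, List.map_cons, List.map_nil, size_cnL, sb_cnT, List.map_cons, List.map_cons, List.map_nil,
    List.sum_cons, List.sum_cons, List.sum_nil, size_cnL]
  have h1 : (((D.map Leaf_lit).map (Tm.sb (Leaf_a (p := p) B s ν))).map Fm.size).sum ≤ D.length * 2 := by
    rw [List.map_map, List.map_map]
    have h2 : (D.map (Fm.size ∘ Tm.sb (Leaf_a (p := p) B s ν) ∘ Leaf_lit)).sum ≤
        (D.map (Fm.size ∘ Tm.sb (Leaf_a (p := p) B s ν) ∘ Leaf_lit)).length • 2 := by
      refine List.sum_le_card_nsmul _ _ fun x hx => ?_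
      obtain ⟨y, _, rfl⟩ := List.mem_map.1 hx
      exact Leaf_lit_size B s ν y
    rwa [List.length_map, smul_eq_mul] at h2
  have h3 : ((Tm.at (none : Option (Fin 4 × ZMod q))).sb (Leaf_a (p := p) B s ν)).size = B.size := rfl
  rw [h3]
  omega

private theorem Leaf_clause_depth (B : Fm p) (s : ℕ) (ν : Fin 4 → Vr M) (D : GC q) (hB : B.depth ≤ 2) :
    ((cnT true [cnT true (D.map Leaf_lit), .at none]).sb (Leaf_a (p := p) B s ν)).depth ≤ 6 := by
  rw [sb_cnT, List.map_cons, List.map_cons, List.map_nil]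
  refine (depth_cnL_le (e := 2) fun A hA => ?_).trans (by omega)
  rw [List.mem_cons, List.mem_singleton] at hA
  rcases hA with rfl | rfl
  · rw [sb_cnT]
    refine depth_cnL_le (e := 1) fun A hA => ?_
    obtain ⟨T, hT, rfl⟩ := List.mem_map.1 hA
    obtain ⟨l, _, rfl⟩ := List.mem_map.1 hT
    exact Leaf_lit_depth B s ν l
  · exact hB

private theorem Leaf_LN_size (s S : ℕ) (hS : 1 ≤ S) (n : Option (Vr M)) (j : ZMod q) : (LN p q s n j).size ≤ S := by
  cases n with
  | none =>
    show (cnL (decide (j ≠ 0)) ([] : List (Fm p))).size ≤ S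
    rw [size_cnL, List.map_nil, List.sum_nil]
    omega
  | some x => exact hS

private theorem Leaf_LN_depth (s : ℕ) (n : Option (Vr M)) (j : ZMod q) : (LN p q s n j).depth ≤ 2 := by
  cases n with
  | none =>
    exact depth_cnL_le (e := 1) fun A hA => absurd hA List.not_mem_nil
  | some x => exact Nat.zero_le _

private theorem Leaf_sum (B : Fm p) (s : ℕ) (ν : Fin 4 → Vr M) (S : ℕ) (sB : B.size ≤ S) (hS : 1 ≤ S) :
    ∑ i : Option (Fin 4 × ZMod q), ((Leaf_a (p := p) B s ν i).size + 1) ≤ (4 * q + 1) * (S + 1) := by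
  have hcard : Fintype.card (Option (Fin 4 × ZMod q)) = 4 * q + 1 := by
    rw [Fintype.card_option, Fintype.card_prod, ZMod.card, Fintype.card_fin]
  have h1 := Finset.sum_le_card_nsmul (Finset.univ : Finset (Option (Fin 4 × ZMod q)))
    (fun i => (Leaf_a (p := p) B s ν i).size + 1) (S + 1) (fun i _ => by
      rcases i with _ | x
      · exact Nat.succ_le_succ sB
      · exact Nat.succ_le_succ hS)
  rw [Finset.card_univ, hcard, smul_eq_mul] at h1
  exact h1

theorem leaf (B : Fm p) (s S : ℕ) (ν : Fin 4 → Vr M) (G : List (GC q)) (hG : ∀ D ∈ G, gmap ν D ∈ ASM M q)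
    (hl : ∀ D ∈ G, D.length ≤ q + 3) (nd : Fin 3 → Option (Fin 4)) (c : Fin 3 → ZMod q) (b : ZMod q)
    (sem : ∀ σ : Fin 4 → ZMod q → Prop, (∀ D ∈ G, gtr σ D) →
      ∃ τ : Fin 3 → ZMod q, ∑ e, c e * τ e = b ∧ ∀ e, Has (ndp σ (nd e)) (τ e))
    (hB : B.depth ≤ 2) (sB : B.size ≤ S) (hd : 8 ≤ d) :
    Rch F d (2 ^ (4 * q + 1) * (30 * (60 * q ^ 4 * S) ^ 2)) (HC p q s M B) {Fact B (fun e => LN p q s ((nd e).map ν)) c b} := by
  classical
  have hS : 1 ≤ S := (size_pos B).trans sB
  have hq : 1 ≤ q := Nat.one_le_iff_ne_zero.2 (NeZero.ne q)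
  have hcard : Fintype.card (Option (Fin 4 × ZMod q)) = 4 * q + 1 := by
    rw [Fintype.card_option, Fintype.card_prod, ZMod.card, Fintype.card_fin]
  have hCsb : (cnT true [LinT (fun e j => Leaf_tn (nd e) j) c b, .at none]).sb (Leaf_a (p := p) B s ν) =
      Fact B (fun e => LN p q s ((nd e).map ν)) c b := by
    rw [sb_cnT, List.map_cons, List.map_cons, List.map_nil, sb_LinT]
    have h1 : (fun i v => (Leaf_tn (nd i) v).sb (Leaf_a (p := p) B s ν)) = fun e => LN p q s ((nd e).map ν) := by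
      funext i v
      exact Leaf_node B s ν (nd i) v
    rw [h1]
    rfl
  have hsum := Leaf_sum (q := q) B s ν S sB hS
  have hqS : 1 ≤ q * S := Nat.mul_pos hq hS
  have hq4 : q * S ≤ q ^ 4 * S := by
    refine Nat.mul_le_mul_right S ?_
    calc q = q ^ 1 := (pow_one q).symm
      _ ≤ q ^ 4 := Nat.pow_le_pow_right hq (by omega)
  have hqa : q ≤ q * S := Nat.le_mul_of_pos_right q hS
  have hqb : S ≤ q * S := Nat.le_mul_of_pos_left S hq
  have hW : (4 * q + 1) * (S + 1) ≤ 10 * (q * S) := by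
    have h1 : (4 * q + 1) * (S + 1) = 4 * (q * S) + 4 * q + S + 1 := by ring
    rw [h1]
    omega
  have hZ : 60 * q ^ 4 * S = 60 * (q ^ 4 * S) := by ring
  have hmain := complete (F := F) (d := d) (δ := 6) (Z := 60 * q ^ 4 * S) (Leaf_a (p := p) B s ν)
    (fun D : {D // D ∈ G} => cnT true [cnT true (D.1.map Leaf_lit), .at none])
    (cnT true [LinT (fun e j => Leaf_tn (nd e) j) c b, .at none]) ?_ ?_ ?_ ?_ hd ?_ ?_
  · rw [hcard, hCsb] at hmain
    refine Rch.mono hmain ?_ (le_refl _) (le_refl _)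
    rintro _ ⟨D, rfl⟩
    exact ⟨gmap ν D.1, hG D.1 D.2, Leaf_clause B s ν D.1⟩
  · intro σ hσ
    rw [tr_cnT_true]
    by_cases h0 : σ none
    · exact ⟨.at none, List.mem_cons_of_mem _ (List.mem_singleton.2 rfl), h0⟩
    · obtain ⟨τ, hτ1, hτ2⟩ := sem (fun e j => σ (some (e, j))) (fun D hD => by
        obtain ⟨T', hT', ht⟩ := (tr_cnT_true σ _).1 (hσ ⟨D, hD⟩)
        rw [List.mem_cons, List.mem_singleton] at hT'
        rcases hT' with rfl | rfl
        · exact Leaf_tr σ D ht
        · exact absurd ht h0)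
      refine ⟨LinT (fun e j => Leaf_tn (nd e) j) c b, List.mem_cons_self, tr_LinT.2 ⟨τ, hτ1, fun i j => ?_⟩⟩
      exact (Leaf_node_tr σ (nd i) j).trans (hτ2 i j)
  · intro i
    rcases i with _ | x
    · exact hB.trans (by omega)
    · exact Nat.zero_le _
  · intro D
    exact Leaf_clause_depth B s ν D.1 hB
  · rw [hCsb]
    exact depth_Fact (e := 2) hB (fun i v => Leaf_LN_depth s _ v) c b
  · intro D
    have h1 := Leaf_clause_size B s ν D.1 S sB (hl D.1 D.2)
    show ∑ i, ((Leaf_a (p := p) B s ν i).size + 1) +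
      ((cnT true [cnT true (D.1.map Leaf_lit), .at none]).sb (Leaf_a (p := p) B s ν)).size + 5 ≤ 60 * q ^ 4 * S
    rw [hZ]
    omega
  · rw [hCsb]
    have h1 := size_Fact (q := q) sB (N := fun e => LN p q s ((nd e).map ν)) (fun i v => Leaf_LN_size s S hS _ v) c b
    have h2 : 20 * q ^ 4 * S = 20 * (q ^ 4 * S) := by ring
    rw [h2] at h1
    rw [hZ]
    omega

end ACpHier
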