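import Pool.Agent.H42.SH.TDefs
import Pool.Agent.H42.SH.SizeF

/-!
ROW TSize (about 100 lines): sizes and depths of the nodes. PROOF. Induction on `l` with `size_SumF`, `depth_SumF` (`card (Fin r × Fin r) = r^2`, `card (Fin r) = r ≤ r^2`). Level 0: size 1, depth at most 1. Step: `1 + q^R (1 + R s) ≤ (4 q)^R s`
for `R = r^2 ≥ 1`, `s ≥ 1` (since `2 + R ≤ 4^R`), for `col` with `R = r ≤ r^2`.
-/

set_option autoImplicit false

namespace ACpHier

open ACpFrege ACpB

variable {p q : ℕ} [NeZero q]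

private theorem TSize_pos (q : ℕ) [NeZero q] : 1 ≤ 4 * q := by
  have h := Nat.pos_of_ne_zero (NeZero.ne q)
  omega

theorem sz_mono (q r S : ℕ) [NeZero q] {l l' : ℕ} (h : l ≤ l') : sz q r S l ≤ sz q r S l' := by
  unfold sz
  exact Nat.mul_le_mul_right S (Nat.pow_le_pow_right (TSize_pos q) (Nat.mul_le_mul_right _ h))

theorem sz_ge (q r S l : ℕ) [NeZero q] : S ≤ sz q r S l := by
  unfold sz
  exact Nat.le_mul_of_pos_left S (Nat.pow_pos (TSize_pos q))

private theorem TSize_sz_succ (q r S l : ℕ) : sz q r S (l + 1) = (4 * q) ^ (r ^ 2) * sz q r S l := by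
  unfold sz
  rw [← mul_assoc, ← pow_add]
  congr 2
  ring

private theorem TSize_four (R : ℕ) (hR : 1 ≤ R) : 2 + R ≤ 4 ^ R := by
  induction R with
  | zero => omega
  | succ n ih =>
    by_cases hn : n = 0
    · rw [hn]
      norm_num
    · have h1 := ih (by omega)
      rw [pow_succ]
      omega

private theorem TSize_ineq (q R T s : ℕ) [NeZero q] (hR : 1 ≤ R) (hT : R ≤ T) (hs : 1 ≤ s) :
    1 + q ^ R * (1 + R * s) ≤ (4 * q) ^ T * s := by
  have hq : 1 ≤ q := Nat.pos_of_ne_zero (NeZero.ne q)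
  have h1 : 1 ≤ q ^ R := Nat.one_le_pow _ _ hq
  have h2 : 1 + R * s + 1 ≤ (2 + R) * s := by nlinarith
  calc 1 + q ^ R * (1 + R * s) ≤ q ^ R * 1 + q ^ R * (1 + R * s) := by omega
    _ = q ^ R * (1 + R * s + 1) := by ring
    _ ≤ q ^ R * ((2 + R) * s) := Nat.mul_le_mul_left _ h2
    _ ≤ q ^ R * (4 ^ R * s) := Nat.mul_le_mul_left _ (Nat.mul_le_mul_right _ (TSize_four R hR))
    _ = (4 * q) ^ R * s := by rw [mul_pow]; ring
    _ ≤ (4 * q) ^ T * s := Nat.mul_le_mul_right _ (Nat.pow_le_pow_right (TSize_pos q) hT)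

private theorem TSize_LN_size (s : ℕ) {M : ℕ} (o : Option (Vr M)) (z : ZMod q) : (LN p q s o z).size = 1 := by
  cases o with
  | none =>
    show (cnL (decide (z ≠ 0)) []).size = 1
    rw [size_cnL]
    rfl
  | some ν => rfl

private theorem TSize_LN_depth (s : ℕ) {M : ℕ} (o : Option (Vr M)) (z : ZMod q) : (LN p q s o z).depth ≤ 1 := by
  cases o with
  | none =>
    show (cnL (decide (z ≠ 0)) []).depth ≤ 1
    exact depth_cnL_le (e := 0) fun A hA => absurd hA (List.not_mem_nil)
  | some ν => exact Nat.zero_le 1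

theorem blk_size (s M r S : ℕ) (hr : 1 ≤ r) (hS : 1 ≤ S) (l i j : ℕ) (z : ZMod q) :
    (blk p q s M r l i j z).size ≤ sz q r S l := by
  induction l generalizing i j z with
  | zero =>
    show (LN p q s (nx M i j) z).size ≤ _
    rw [TSize_LN_size]
    exact hS.trans (sz_ge q r S 0)
  | succ l ih =>
    show (SumF (fun x : Fin r × Fin r => blk p q s M r l (r * i + x.1) (r * j + x.2)) z).size ≤ _
    refine (size_SumF (fun x v => ih _ _ v) z).trans ?_
    rw [TSize_sz_succ]
    have hc : Fintype.card (Fin r × Fin r) = r ^ 2 := by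
      rw [Fintype.card_prod, Fintype.card_fin, sq]
    rw [hc]
    exact TSize_ineq q (r ^ 2) (r ^ 2) _ (Nat.one_le_pow _ _ hr) le_rfl (hS.trans (sz_ge q r S l))

theorem col_size (s M r S : ℕ) (hr : 1 ≤ r) (hS : 1 ≤ S) (l i t : ℕ) (z : ZMod q) :
    (col p q s M r l i t z).size ≤ sz q r S l := by
  induction l generalizing i z with
  | zero =>
    show (LN p q s (ny M i t) z).size ≤ _
    rw [TSize_LN_size]
    exact hS.trans (sz_ge q r S 0)
  | succ l ih =>
    show (SumF (fun x : Fin r => col p q s M r l (r * i + x) t) z).size ≤ _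
    refine (size_SumF (fun x v => ih _ v) z).trans ?_
    rw [TSize_sz_succ, Fintype.card_fin]
    exact TSize_ineq q r (r ^ 2) _ hr (Nat.le_self_pow (by norm_num) r) (hS.trans (sz_ge q r S l))

theorem blk_depth (s M r l i j : ℕ) (z : ZMod q) : (blk p q s M r l i j z).depth ≤ 2 * l + 1 := by
  induction l generalizing i j z with
  | zero =>
    show (LN p q s (nx M i j) z).depth ≤ _
    exact TSize_LN_depth s _ z
  | succ l ih =>
    show (SumF (fun x : Fin r × Fin r => blk p q s M r l (r * i + x.1) (r * j + x.2)) z).depth ≤ _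
    exact (depth_SumF (fun x v => ih _ _ v) z).trans (by omega)

theorem col_depth (s M r l i t : ℕ) (z : ZMod q) : (col p q s M r l i t z).depth ≤ 2 * l + 1 := by
  induction l generalizing i z with
  | zero =>
    show (LN p q s (ny M i t) z).depth ≤ _
    exact TSize_LN_depth s _ z
  | succ l ih =>
    show (SumF (fun x : Fin r => col p q s M r l (r * i + x) t) z).depth ≤ _
    exact (depth_SumF (fun x v => ih _ v) z).trans (by omega)

end ACpHier
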