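import Pool.Agent.H42.SH.Leaf
import Pool.Agent.H42.SH.TSize

/-!
ROW LeafF (about 200 lines): the facts of level 0. PROOF. Each is `leaf` and `Rch.mono` (the cost of `leaf` is at most `cst q r S h`: `60 q^4 S ≤ 60 r^2 q^4 sz q r S h`). `G` is made of `oneG`, `cstG`, `addG` (`oneC ν`, ... are in `ASM`: unfold `ASM`, `List.mem_append`,
`List.mem_flatMap`; every variable is in `allV M`).
`f1`: `i, j < M`: `ν := ![x_ij, x_ji, y_(i,0), y_(i,0)]`, `G := oneG 0 ++ oneG 1 ++ oneG 2 ++ cstG 2 0 ++ addG 0 1 2`, `nd := ![some 0, some 1, some 0]`; otherwise both nodes are `none`, `G := []` (any `ν`, `0 < M`).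
`f2`: `i < M`: `x_ii`, `oneG`, `cstG 0 0`. `f3`: (`r ^ 0 = 1`) `i, j < M`: `y_(i,j) + x_ij = y_(i,j+1)` (`min j M = j`, `min (j+1) M = j+1`), `i < M ≤ j`: both columns are `y_(i,M)`, the block is `none`; `M ≤ i`: all `none`.
`f4`: `y_(i,0) = 0`, or `none`. `f5`: `M ≤ T`: `y_(i,M) = cM q i`, or `none` and `e0 q i = 0` (`i ≥ M > 0`).
-/

set_option autoImplicit false

namespace ACpHier

open ACpFrege ACpB

variable {p q : ℕ} [NeZero q] {F : CNF} {d : ℕ}

/-! ### Clauses of `ASM` -/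

private theorem LeafF_vr {M : ℕ} (x : Vr M) : x ∈ allV M := by
  unfold allV
  rw [List.mem_append]
  rcases x with ⟨u, v⟩ | ⟨v, t⟩
  · exact Or.inl (List.mem_flatMap.2 ⟨u, List.mem_finRange u, List.mem_map.2 ⟨v, List.mem_finRange v, rfl⟩⟩)
  · exact Or.inr (List.mem_flatMap.2 ⟨v, List.mem_finRange v, List.mem_map.2 ⟨t, List.mem_finRange t, rfl⟩⟩)

omit [NeZero q] in
private theorem LeafF_one {M : ℕ} (x : Vr M) {C : List Lit} (h : C ∈ oneC q x) : C ∈ ASM M q := by
  unfold ASM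
  rw [List.mem_append, List.mem_append, List.mem_append]
  exact Or.inl (Or.inl (Or.inl (List.mem_flatMap.2 ⟨x, LeafF_vr x, h⟩)))

omit [NeZero q] in
private theorem LeafF_cst {M : ℕ} (v : Fin M) {C : List Lit}
    (h : C ∈ cstC q (.inl (v, v)) 0 ++ cstC q (.inr (v, 0)) 0 ++ cstC q (.inr (v, Fin.last M)) (cM q v)) : C ∈ ASM M q := by
  unfold ASM
  rw [List.mem_append, List.mem_append, List.mem_append]
  exact Or.inl (Or.inl (Or.inr (List.mem_flatMap.2 ⟨v, List.mem_finRange v, h⟩)))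

omit [NeZero q] in
private theorem LeafF_add {M : ℕ} (u v : Fin M) {C : List Lit} (h : C ∈ addC q (.inl (u, v)) (.inl (v, u)) (.inr (u, 0))) :
    C ∈ ASM M q := by
  unfold ASM
  rw [List.mem_append, List.mem_append]
  exact Or.inl (Or.inr (List.mem_flatMap.2 ⟨u, List.mem_finRange u, List.mem_flatMap.2 ⟨v, List.mem_finRange v, h⟩⟩))

omit [NeZero q] in
private theorem LeafF_add' {M : ℕ} (v t : Fin M) {C : List Lit}
    (h : C ∈ addC q (.inr (v, t.castSucc)) (.inl (v, t)) (.inr (v, t.succ))) : C ∈ ASM M q := by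
  unfold ASM
  rw [List.mem_append]
  exact Or.inr (List.mem_flatMap.2 ⟨v, List.mem_finRange v, List.mem_flatMap.2 ⟨t, List.mem_finRange t, h⟩⟩)

omit [NeZero q] in
private theorem LeafF_cstlen (e : Fin 4) (c : ZMod q) : ∀ D ∈ cstG q e c, D.length ≤ q + 3 := by
  intro D hD
  rw [List.mem_singleton.1 hD]
  show 1 ≤ q + 3
  omega

/-! ### The cost -/

private theorem LeafF_cost (r h S : ℕ) (hr : 1 ≤ r) :
    2 ^ (4 * q + 1) * (30 * (60 * q ^ 4 * S) ^ 2) ≤ cst q r S h := by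
  unfold cst
  refine Nat.mul_le_mul (Nat.pow_le_pow_right (by norm_num) (by omega)) (Nat.mul_le_mul_left _ (Nat.pow_le_pow_left ?_ 2))
  have h1 : S ≤ sz q r S h := sz_ge q r S h
  have h2 : 1 ≤ r ^ 2 := Nat.one_le_pow _ _ hr
  calc 60 * q ^ 4 * S = 60 * 1 * q ^ 4 * S := by ring
    _ ≤ 60 * r ^ 2 * q ^ 4 * sz q r S h :=
      Nat.mul_le_mul (Nat.mul_le_mul_right _ (Nat.mul_le_mul_left _ h2)) h1

private theorem LeafF_go {M : ℕ} (r h : ℕ) (hr : 1 ≤ r) (B : Fm p) (s S : ℕ) (ν : Fin 4 → Vr M) (G : List (GC q))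
    (hG : ∀ D ∈ G, gmap ν D ∈ ASM M q) (hl : ∀ D ∈ G, D.length ≤ q + 3) (nd : Fin 3 → Option (Fin 4))
    (c : Fin 3 → ZMod q) (b : ZMod q)
    (sem : ∀ σ : Fin 4 → ZMod q → Prop, (∀ D ∈ G, gtr σ D) →
      ∃ τ : Fin 3 → ZMod q, ∑ e, c e * τ e = b ∧ ∀ e, Has (ndp σ (nd e)) (τ e))
    (hB : B.depth ≤ 2) (sB : B.size ≤ S) (hd : 8 ≤ d) {N : Fin 3 → ZMod q → Fm p}
    (hN : ∀ e, LN p q s ((nd e).map ν) = N e) : Rch F d (cst q r S h) (HC p q s M B) {Fact B N c b} := by
  have hN' : (fun e => LN p q s ((nd e).map ν)) = N := funext hN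
  have h1 := leaf (F := F) (d := d) B s S ν G hG hl nd c b sem hB sB hd
  rw [hN'] at h1
  exact Rch.mono h1 (le_refl _) (le_refl _) (LeafF_cost r h S hr)

omit [NeZero q] in
private theorem LeafF_none (σ : Fin 4 → ZMod q → Prop) : Has (ndp σ none) 0 := fun _ => Iff.rfl

/-- all nodes are `none` -/
private theorem LeafF_zero {M : ℕ} (hM : 0 < M) (r h : ℕ) (hr : 1 ≤ r) (B : Fm p) (s S : ℕ) (c : Fin 3 → ZMod q)
    (hB : B.depth ≤ 2) (sB : B.size ≤ S) (hd : 8 ≤ d) {N : Fin 3 → ZMod q → Fm p}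
    (hN : ∀ e, LN p q s (M := M) none = N e) : Rch F d (cst q r S h) (HC p q s M B) {Fact B N c 0} := by
  refine LeafF_go r h hr B s S (fun _ => .inl (⟨0, hM⟩, ⟨0, hM⟩)) [] (fun D hD => absurd hD List.not_mem_nil)
    (fun D hD => absurd hD List.not_mem_nil) (fun _ => none) c 0 (fun σ _ => ⟨fun _ => 0, ?_, fun _ => LeafF_none σ⟩) hB sB hd hN
  simp

/-- one node with a constant value -/
private theorem LeafF_const {M : ℕ} (r h : ℕ) (hr : 1 ≤ r) (B : Fm p) (s S : ℕ) (x : Vr M) (b : ZMod q)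
    (hx : ∀ C ∈ cstC q x b, C ∈ ASM M q) (hB : B.depth ≤ 2) (sB : B.size ≤ S) (hd : 8 ≤ d) {N : ZMod q → Fm p}
    (hN : LN p q s (some x) = N) : Rch F d (cst q r S h) (HC p q s M B) {Fact1 B N b} := by
  refine LeafF_go r h hr B s S (fun _ => x) (oneG q 0 ++ cstG q 0 b) ?_ ?_ (fun _ => some 0) ![1, 0, 0] b ?_ hB sB hd
    (N := ![N, N, N]) ?_
  · intro D hD
    rcases List.mem_append.1 hD with h | h
    · exact LeafF_one _ (oneG_mem (fun _ => x) 0 D h)
    · exact hx _ (cstG_mem (fun _ => x) 0 b D h)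
  · intro D hD
    rcases List.mem_append.1 hD with h | h
    · exact oneG_len 0 D h
    · exact LeafF_cstlen 0 b D h
  · intro σ hσ
    obtain ⟨v, hv⟩ := oneG_sem (σ := σ) (e := 0) fun D hD => hσ D (List.mem_append_left _ hD)
    have h0 : σ 0 b := cstG_sem fun D hD => hσ D (List.mem_append_right _ hD)
    have hb : b = v := (hv b).1 h0
    refine ⟨fun _ => v, ?_, fun _ => hv⟩
    rw [Fin.sum_univ_three, hb]
    simp
  · intro e
    fin_cases e <;> exact hN

private theorem LeafF_nx {M i j : ℕ} (hi : i < M) (hj : j < M) : nx M i j = some (.inl (⟨i, hi⟩, ⟨j, hj⟩)) :=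
  dif_pos ⟨hi, hj⟩

private theorem LeafF_nx' {M i j : ℕ} (h : ¬ (i < M ∧ j < M)) : nx M i j = none := dif_neg h

private theorem LeafF_ny {M i t : ℕ} (hi : i < M) (t' : Fin (M + 1)) (ht : t'.val = min t M) :
    ny M i t = some (.inr (⟨i, hi⟩, t')) := by
  unfold ny
  rw [dif_pos hi]
  have : t' = ⟨min t M, by omega⟩ := Fin.ext ht
  rw [this]

private theorem LeafF_ny' {M i t : ℕ} (hi : ¬ i < M) : ny M i t = none := dif_neg hi

theorem f1 (s M r h S i j : ℕ) (B : Fm p) (hM : 0 < M) (hr : 1 ≤ r) (hB : B.depth ≤ 2) (sB : B.size ≤ S) (hd : 8 ≤ d) :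
    Rch F d (cst q r S h) (HC p q s M B) {F1 p q s M r B 0 i j} := by
  show Rch F d (cst q r S h) (HC p q s M B)
    {Fact B ![LN p q s (nx M i j), LN p q s (nx M j i), LN p q s (nx M i j)] ![1, 1, 0] 0}
  by_cases hij : i < M ∧ j < M
  · obtain ⟨hi, hj⟩ := hij
    rw [LeafF_nx hi hj, LeafF_nx hj hi]
    set ν : Fin 4 → Vr M := ![.inl (⟨i, hi⟩, ⟨j, hj⟩), .inl (⟨j, hj⟩, ⟨i, hi⟩), .inr (⟨i, hi⟩, 0), .inr (⟨i, hi⟩, 0)] with hν
    refine LeafF_go r h hr B s S ν (oneG q 0 ++ (oneG q 1 ++ (oneG q 2 ++ (cstG q 2 0 ++ addG q 0 1 2)))) ?_ ?_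
      ![some 0, some 1, some 0] ![1, 1, 0] 0 ?_ hB sB hd ?_
    · intro D hD
      rw [List.mem_append, List.mem_append, List.mem_append, List.mem_append] at hD
      rcases hD with h | h | h | h | h
      · exact LeafF_one _ (oneG_mem ν 0 D h)
      · exact LeafF_one _ (oneG_mem ν 1 D h)
      · exact LeafF_one _ (oneG_mem ν 2 D h)
      · exact LeafF_cst ⟨i, hi⟩ (List.mem_append_left _ (List.mem_append_right _ (cstG_mem ν 2 0 D h)))
      · exact LeafF_add ⟨i, hi⟩ ⟨j, hj⟩ (addG_mem ν 0 1 2 D h)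
    · intro D hD
      rw [List.mem_append, List.mem_append, List.mem_append, List.mem_append] at hD
      rcases hD with h | h | h | h | h
      · exact oneG_len 0 D h
      · exact oneG_len 1 D h
      · exact oneG_len 2 D h
      · exact LeafF_cstlen 2 0 D h
      · exact addG_len 0 1 2 D h
    · intro σ hσ
      obtain ⟨v0, h0⟩ := oneG_sem (σ := σ) (e := 0) fun D hD => hσ D (by
        rw [List.mem_append]; exact Or.inl hD)
      obtain ⟨v1, h1⟩ := oneG_sem (σ := σ) (e := 1) fun D hD => hσ D (by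
        rw [List.mem_append, List.mem_append]; exact Or.inr (Or.inl hD))
      obtain ⟨v2, h2⟩ := oneG_sem (σ := σ) (e := 2) fun D hD => hσ D (by
        rw [List.mem_append, List.mem_append, List.mem_append]; exact Or.inr (Or.inr (Or.inl hD)))
      have h3 : σ 2 0 := cstG_sem fun D hD => hσ D (by
        rw [List.mem_append, List.mem_append, List.mem_append, List.mem_append]; exact Or.inr (Or.inr (Or.inr (Or.inl hD))))
      have h4 : v0 + v1 = v2 := addG_sem h0 h1 h2 fun D hD => hσ D (by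
        rw [List.mem_append, List.mem_append, List.mem_append, List.mem_append]; exact Or.inr (Or.inr (Or.inr (Or.inr hD))))
      have h5 : (0 : ZMod q) = v2 := (h2 0).1 h3
      refine ⟨![v0, v1, v0], ?_, ?_⟩
      · rw [Fin.sum_univ_three]
        show 1 * v0 + 1 * v1 + 0 * v0 = 0
        rw [one_mul, one_mul, zero_mul, add_zero, h4, ← h5]
      · intro e
        fin_cases e
        · exact h0
        · exact h1
        · exact h0
    · intro e
      fin_cases e <;> rfl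
  · rw [LeafF_nx' hij, LeafF_nx' (fun h => hij ⟨h.2, h.1⟩)]
    refine LeafF_zero hM r h hr B s S _ hB sB hd fun e => ?_
    fin_cases e <;> rfl

theorem f2 (s M r h S i : ℕ) (B : Fm p) (hM : 0 < M) (hr : 1 ≤ r) (hB : B.depth ≤ 2) (sB : B.size ≤ S) (hd : 8 ≤ d) :
    Rch F d (cst q r S h) (HC p q s M B) {F2 p q s M r B 0 i} := by
  show Rch F d (cst q r S h) (HC p q s M B) {Fact1 B (LN p q s (nx M i i)) 0}
  by_cases hi : i < M
  · rw [LeafF_nx hi hi]
    exact LeafF_const r h hr B s S (.inl (⟨i, hi⟩, ⟨i, hi⟩)) 0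
      (fun C hC => LeafF_cst ⟨i, hi⟩ (List.mem_append_left _ (List.mem_append_left _ hC))) hB sB hd rfl
  · rw [LeafF_nx' (fun h => hi h.1)]
    refine LeafF_zero hM r h hr B s S _ hB sB hd fun e => ?_
    fin_cases e <;> rfl

theorem f3 (s M r h S i j : ℕ) (B : Fm p) (hM : 0 < M) (hr : 1 ≤ r) (hB : B.depth ≤ 2) (sB : B.size ≤ S) (hd : 8 ≤ d) :
    Rch F d (cst q r S h) (HC p q s M B) {F3 p q s M r B 0 i j} := by
  show Rch F d (cst q r S h) (HC p q s M B)
    {Fact B ![LN p q s (ny M i (j * r ^ 0)), LN p q s (nx M i j), LN p q s (ny M i ((j + 1) * r ^ 0))] ![1, 1, -1] 0}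
  rw [pow_zero, mul_one, mul_one]
  by_cases hi : i < M
  · by_cases hj : j < M
    · rw [LeafF_ny hi (Fin.castSucc ⟨j, hj⟩) (by show j = min j M; omega), LeafF_nx hi hj,
        LeafF_ny hi (Fin.succ ⟨j, hj⟩) (by show j + 1 = min (j + 1) M; omega)]
      set ν : Fin 4 → Vr M := ![.inr (⟨i, hi⟩, Fin.castSucc ⟨j, hj⟩), .inl (⟨i, hi⟩, ⟨j, hj⟩),
        .inr (⟨i, hi⟩, Fin.succ ⟨j, hj⟩), .inr (⟨i, hi⟩, 0)] with hν
      refine LeafF_go r h hr B s S ν (oneG q 0 ++ (oneG q 1 ++ (oneG q 2 ++ addG q 0 1 2))) ?_ ?_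
        ![some 0, some 1, some 2] ![1, 1, -1] 0 ?_ hB sB hd ?_
      · intro D hD
        rw [List.mem_append, List.mem_append, List.mem_append] at hD
        rcases hD with h | h | h | h
        · exact LeafF_one _ (oneG_mem ν 0 D h)
        · exact LeafF_one _ (oneG_mem ν 1 D h)
        · exact LeafF_one _ (oneG_mem ν 2 D h)
        · exact LeafF_add' ⟨i, hi⟩ ⟨j, hj⟩ (addG_mem ν 0 1 2 D h)
      · intro D hD
        rw [List.mem_append, List.mem_append, List.mem_append] at hD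
        rcases hD with h | h | h | h
        · exact oneG_len 0 D h
        · exact oneG_len 1 D h
        · exact oneG_len 2 D h
        · exact addG_len 0 1 2 D h
      · intro σ hσ
        obtain ⟨v0, h0⟩ := oneG_sem (σ := σ) (e := 0) fun D hD => hσ D (by
          rw [List.mem_append]; exact Or.inl hD)
        obtain ⟨v1, h1⟩ := oneG_sem (σ := σ) (e := 1) fun D hD => hσ D (by
          rw [List.mem_append, List.mem_append]; exact Or.inr (Or.inl hD))
        obtain ⟨v2, h2⟩ := oneG_sem (σ := σ) (e := 2) fun D hD => hσ D (by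
          rw [List.mem_append, List.mem_append, List.mem_append]; exact Or.inr (Or.inr (Or.inl hD)))
        have h4 : v0 + v1 = v2 := addG_sem h0 h1 h2 fun D hD => hσ D (by
          rw [List.mem_append, List.mem_append, List.mem_append]; exact Or.inr (Or.inr (Or.inr hD)))
        refine ⟨![v0, v1, v2], ?_, ?_⟩
        · rw [Fin.sum_univ_three]
          show 1 * v0 + 1 * v1 + -1 * v2 = 0
          rw [one_mul, one_mul, h4, neg_one_mul, add_neg_cancel]
        · intro e
          fin_cases e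
          · exact h0
          · exact h1
          · exact h2
      · intro e
        fin_cases e <;> rfl
    · rw [LeafF_ny hi (Fin.last M) (by show M = min j M; omega), LeafF_nx' (fun h => hj h.2),
        LeafF_ny hi (Fin.last M) (by show M = min (j + 1) M; omega)]
      refine LeafF_go r h hr B s S (fun _ => .inr (⟨i, hi⟩, Fin.last M)) (oneG q 0) ?_ ?_
        ![some 0, none, some 0] ![1, 1, -1] 0 ?_ hB sB hd ?_
      · intro D hD
        exact LeafF_one _ (oneG_mem _ 0 D hD)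
      · intro D hD
        exact oneG_len 0 D hD
      · intro σ hσ
        obtain ⟨v0, h0⟩ := oneG_sem (σ := σ) (e := 0) hσ
        refine ⟨![v0, 0, v0], ?_, ?_⟩
        · rw [Fin.sum_univ_three]
          show 1 * v0 + 1 * 0 + -1 * v0 = 0
          rw [one_mul, mul_zero, add_zero, neg_one_mul, add_neg_cancel]
        · intro e
          fin_cases e
          · exact h0
          · exact LeafF_none σ
          · exact h0
      · intro e
        fin_cases e <;> rfl
  · rw [LeafF_ny' hi, LeafF_nx' (fun h => hi h.1), LeafF_ny' hi]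
    refine LeafF_zero hM r h hr B s S _ hB sB hd fun e => ?_
    fin_cases e <;> rfl

theorem f4 (s M r h S i : ℕ) (B : Fm p) (hM : 0 < M) (hr : 1 ≤ r) (hB : B.depth ≤ 2) (sB : B.size ≤ S) (hd : 8 ≤ d) :
    Rch F d (cst q r S h) (HC p q s M B) {F4 p q s M r B 0 i 0 0} := by
  show Rch F d (cst q r S h) (HC p q s M B) {Fact1 B (LN p q s (ny M i 0)) 0}
  by_cases hi : i < M
  · rw [LeafF_ny hi 0 (by show 0 = min 0 M; omega)]
    exact LeafF_const r h hr B s S (.inr (⟨i, hi⟩, 0)) 0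
      (fun C hC => LeafF_cst ⟨i, hi⟩ (List.mem_append_left _ (List.mem_append_right _ hC))) hB sB hd rfl
  · rw [LeafF_ny' hi]
    refine LeafF_zero hM r h hr B s S _ hB sB hd fun e => ?_
    fin_cases e <;> rfl

theorem f5 (s M r h S i T : ℕ) (B : Fm p) (hM : 0 < M) (hT : M ≤ T) (hr : 1 ≤ r) (hB : B.depth ≤ 2) (sB : B.size ≤ S)
    (hd : 8 ≤ d) : Rch F d (cst q r S h) (HC p q s M B) {F4 p q s M r B 0 i T (e0 q i)} := by
  show Rch F d (cst q r S h) (HC p q s M B) {Fact1 B (LN p q s (ny M i T)) (e0 q i)}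
  by_cases hi : i < M
  · rw [LeafF_ny hi (Fin.last M) (by show M = min T M; omega)]
    exact LeafF_const r h hr B s S (.inr (⟨i, hi⟩, Fin.last M)) (e0 q i)
      (fun C hC => LeafF_cst ⟨i, hi⟩ (List.mem_append_right _ hC)) hB sB hd rfl
  · have he : e0 q i = 0 := by
      unfold e0
      rw [if_neg (by omega)]
    rw [LeafF_ny' hi, he]
    refine LeafF_zero hM r h hr B s S _ hB sB hd fun e => ?_
    fin_cases e <;> rfl

end ACpHier
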