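import Pool.Agent.H42.SH.TDefs

/-!
ROW LeafG (about 120 lines): the clauses of `ASM` over abstract variables `Fin 4`. PROOF. `*_mem`: unfold both sides, same list operations. `*_sem`: a literal `(x, ε)` is true iff (`σ x ↔ ε = true`). `oneG_sem`: the first clause gives a value,
the two-literal clauses uniqueness (`ZMod.val_injective`, every `j` is in `vals q`: `ZMod.natCast_zmod_val`). `addG_sem`: if `v₁ + v₂ ≠ v₃` the clause for `(v₁, v₂, v₃)` is false.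
-/

set_option autoImplicit false

namespace ACpHier

open ACpFrege ACpB

variable {q : ℕ} [NeZero q] {M : ℕ}

/-- A clause over the abstract variables. -/
abbrev GC (q : ℕ) := List ((Fin 4 × ZMod q) × Bool)

/-- The actual clause. -/
def gmap (ν : Fin 4 → Vr M) (D : GC q) : List Lit := D.map fun l => (bvar q (ν l.1.1) l.1.2, l.2)

/-- The clause is true. -/
def gtr (σ : Fin 4 → ZMod q → Prop) (D : GC q) : Prop := ∃ l ∈ D, (σ l.1.1 l.1.2 ↔ l.2 = true)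

def oneG (q : ℕ) (e : Fin 4) : List (GC q) :=
  ((vals q).map fun j => ((e, j), true)) ::
    (vals q).flatMap fun j => ((vals q).filter fun j' => j'.val ≠ j.val).map fun j' => [((e, j), false), ((e, j'), false)]

def cstG (q : ℕ) (e : Fin 4) (c : ZMod q) : List (GC q) := [[((e, c), true)]]

def addG (q : ℕ) (e₁ e₂ e₃ : Fin 4) : List (GC q) :=
  (vals q).flatMap fun i => (vals q).flatMap fun j => ((vals q).filter fun k => k.val ≠ (i + j).val).map fun k =>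
    [((e₁, i), false), ((e₂, j), false), ((e₃, k), false)]

omit [NeZero q] in
private theorem LeafG_valsEq : vals q = (List.range q).map (fun i : ℕ => (i : ZMod q)) := by
  unfold vals
  simp [List.map_eq_flatMap]

private theorem LeafG_vals (j : ZMod q) : j ∈ vals q := by
  rw [LeafG_valsEq]
  exact List.mem_map.2 ⟨j.val, List.mem_range.2 (ZMod.val_lt j), ZMod.natCast_zmod_val j⟩

omit [NeZero q] in
private theorem LeafG_one {e : Fin 4} {D : GC q} :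
    D ∈ oneG q e ↔ D = ((vals q).map fun j => ((e, j), true)) ∨
      ∃ j ∈ vals q, ∃ j' ∈ vals q, j'.val ≠ j.val ∧ D = [((e, j), false), ((e, j'), false)] := by
  unfold oneG
  rw [List.mem_cons, List.mem_flatMap]
  refine or_congr Iff.rfl ⟨?_, ?_⟩
  · rintro ⟨j, hj, hD⟩
    obtain ⟨j', hj', rfl⟩ := List.mem_map.1 hD
    obtain ⟨h1, h2⟩ := List.mem_filter.1 hj'
    exact ⟨j, hj, j', h1, of_decide_eq_true h2, rfl⟩
  · rintro ⟨j, hj, j', hj', hne, rfl⟩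
    exact ⟨j, hj, List.mem_map.2 ⟨j', List.mem_filter.2 ⟨hj', decide_eq_true hne⟩, rfl⟩⟩

omit [NeZero q] in
private theorem LeafG_add {e₁ e₂ e₃ : Fin 4} {D : GC q} :
    D ∈ addG q e₁ e₂ e₃ ↔ ∃ i ∈ vals q, ∃ j ∈ vals q, ∃ k ∈ vals q, k.val ≠ (i + j).val ∧
      D = [((e₁, i), false), ((e₂, j), false), ((e₃, k), false)] := by
  unfold addG
  rw [List.mem_flatMap]
  constructor
  · rintro ⟨i, hi, hD⟩
    obtain ⟨j, hj, hD'⟩ := List.mem_flatMap.1 hD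
    obtain ⟨k, hk, rfl⟩ := List.mem_map.1 hD'
    obtain ⟨h1, h2⟩ := List.mem_filter.1 hk
    exact ⟨i, hi, j, hj, k, h1, of_decide_eq_true h2, rfl⟩
  · rintro ⟨i, hi, j, hj, k, hk, hne, rfl⟩
    exact ⟨i, hi, List.mem_flatMap.2 ⟨j, hj, List.mem_map.2 ⟨k, List.mem_filter.2 ⟨hk, decide_eq_true hne⟩, rfl⟩⟩⟩

theorem oneG_mem (ν : Fin 4 → Vr M) (e : Fin 4) : ∀ D ∈ oneG q e, gmap ν D ∈ oneC q (ν e) := by
  intro D hD
  unfold oneC
  rw [List.mem_cons, List.mem_flatMap]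
  rcases LeafG_one.1 hD with rfl | ⟨j, hj, j', hj', hne, rfl⟩
  · left
    unfold gmap
    rw [List.map_map]
    rfl
  · right
    exact ⟨j, hj, List.mem_map.2 ⟨j', List.mem_filter.2 ⟨hj', decide_eq_true hne⟩, rfl⟩⟩

theorem cstG_mem (ν : Fin 4 → Vr M) (e : Fin 4) (c : ZMod q) : ∀ D ∈ cstG q e c, gmap ν D ∈ cstC q (ν e) c := by
  intro D hD
  unfold cstG at hD
  rw [List.mem_singleton] at hD
  subst hD
  exact List.mem_singleton.2 rfl

theorem addG_mem (ν : Fin 4 → Vr M) (e₁ e₂ e₃ : Fin 4) : ∀ D ∈ addG q e₁ e₂ e₃, gmap ν D ∈ addC q (ν e₁) (ν e₂) (ν e₃) := by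
  intro D hD
  obtain ⟨i, hi, j, hj, k, hk, hne, rfl⟩ := LeafG_add.1 hD
  unfold addC
  exact List.mem_flatMap.2 ⟨i, hi, List.mem_flatMap.2 ⟨j, hj, List.mem_map.2
    ⟨k, List.mem_filter.2 ⟨hk, decide_eq_true hne⟩, rfl⟩⟩⟩

theorem oneG_len (e : Fin 4) : ∀ D ∈ oneG q e, D.length ≤ q + 3 := by
  intro D hD
  rcases LeafG_one.1 hD with rfl | ⟨j, hj, j', hj', hne, rfl⟩
  · rw [List.length_map, LeafG_valsEq, List.length_map, List.length_range]
    omega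
  · show 2 ≤ q + 3
    omega

theorem addG_len (e₁ e₂ e₃ : Fin 4) : ∀ D ∈ addG q e₁ e₂ e₃, D.length ≤ q + 3 := by
  intro D hD
  obtain ⟨i, hi, j, hj, k, hk, hne, rfl⟩ := LeafG_add.1 hD
  show 3 ≤ q + 3
  omega

theorem oneG_sem {σ : Fin 4 → ZMod q → Prop} {e : Fin 4} (h : ∀ D ∈ oneG q e, gtr σ D) : ∃ v, Has (σ e) v := by
  obtain ⟨l, hl, hσ⟩ := h _ (LeafG_one.2 (Or.inl rfl))
  obtain ⟨v, _, rfl⟩ := List.mem_map.1 hl
  have hv : σ e v := hσ.2 rfl
  refine ⟨v, fun j => ⟨fun hj => ?_, fun hj => hj ▸ hv⟩⟩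
  by_contra hne
  have hval : j.val ≠ v.val := fun h' => hne (ZMod.val_injective q h')
  obtain ⟨l, hl, hσ'⟩ := h _ (LeafG_one.2 (Or.inr ⟨v, LeafG_vals v, j, LeafG_vals j, hval, rfl⟩))
  rw [List.mem_cons, List.mem_singleton] at hl
  rcases hl with rfl | rfl
  · exact absurd (hσ'.1 hv) Bool.false_ne_true
  · exact absurd (hσ'.1 hj) Bool.false_ne_true

theorem cstG_sem {σ : Fin 4 → ZMod q → Prop} {e : Fin 4} {c : ZMod q} (h : ∀ D ∈ cstG q e c, gtr σ D) : σ e c := by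
  obtain ⟨l, hl, hσ⟩ := h _ (List.mem_singleton.2 rfl)
  rw [List.mem_singleton] at hl
  subst hl
  exact hσ.2 rfl

theorem addG_sem {σ : Fin 4 → ZMod q → Prop} {e₁ e₂ e₃ : Fin 4} {v₁ v₂ v₃ : ZMod q} (h₁ : Has (σ e₁) v₁) (h₂ : Has (σ e₂) v₂)
    (h₃ : Has (σ e₃) v₃) (h : ∀ D ∈ addG q e₁ e₂ e₃, gtr σ D) : v₁ + v₂ = v₃ := by
  by_contra hne
  have hval : v₃.val ≠ (v₁ + v₂).val := fun h' => hne (ZMod.val_injective q h').symm
  obtain ⟨l, hl, hσ⟩ := h _ (LeafG_add.2 ⟨v₁, LeafG_vals v₁, v₂, LeafG_vals v₂, v₃, LeafG_vals v₃, hval, rfl⟩)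
  rw [List.mem_cons, List.mem_cons, List.mem_singleton] at hl
  rcases hl with rfl | rfl | rfl
  · exact absurd (hσ.1 ((h₁ v₁).2 rfl)) Bool.false_ne_true
  · exact absurd (hσ.1 ((h₂ v₂).2 rfl)) Bool.false_ne_true
  · exact absurd (hσ.1 ((h₃ v₃).2 rfl)) Bool.false_ne_true

end ACpHier
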