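import Pool.Agent.H42.SH.HDefs

/-!
The lower bounds of project AF for the CNFs `FF n` (the proof of `assembleX`, Pool/Agent/H65/AF/Assemble.lean, by helper65).
-/

set_option autoImplicit false

namespace ACpHier

open ACpFrege ACpB

theorem lowerFF (hA : ∀ (p : ℕ) [Fact p.Prime], OutAU p) (hB : OutBW) (h3 : PartW 3) (h4 : PartW 4) : LowerFF := by
  intro p hp S hS
  have : Fact p.Prime := ⟨hp⟩
  obtain ⟨C0, hC0⟩ := hA p S hS 8
  obtain ⟨M3, hM3⟩ := h3
  obtain ⟨M4, hM4⟩ := h4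
  obtain ⟨n₀, hn₀⟩ := num_ex p (C0 + 1) (max M3 M4) hp.one_lt.le (by omega)
  refine ⟨n₀, fun n hn d hd π hπ => ?_⟩
  obtain ⟨k1, k2, R, L, t, N, k3, k4, k5, k6, k7, k8⟩ := hn₀ n hn d hd
  have hFF : FF n = combC (nv (Nat.sqrt (n / 100)) 3) (ASM (Nat.sqrt (n / 100)) 3) (ASM (Nat.sqrt (n / 100)) 4) := by
    unfold FF
    rw [if_pos k2]
  have hs : HasSlow p (nv (Nat.sqrt (n / 100)) 3 + nv (Nat.sqrt (n / 100)) 4) (FF n) L (Nat.sqrt (n / 100) ^ 2) := by
    rw [hFF]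
    by_cases hp3 : p = 3
    · have hco : Nat.Coprime 4 p := by subst hp3; norm_num
      refine slow_combR (hB p 4 (Or.inr rfl) hco _ k2 R L k4 ?_) ASM_vars
      exact hM4 _ (le_trans (le_max_right _ _) k1) R k3
    · have hco : Nat.Coprime 3 p := by
        rw [Nat.coprime_primes Nat.prime_three hp]
        exact fun h => hp3 h.symm
      refine slow_combL (hB p 3 (Or.inl rfl) hco _ k2 R L k4 ?_) ASM_vars
      exact hM3 _ (le_trans (le_max_left _ _) k1) R k3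
  have hv : ∀ D ∈ FF n, D.length ≤ 8 ∧ ∀ l ∈ D, l.1 < nv (Nat.sqrt (n / 100)) 3 + nv (Nat.sqrt (n / 100)) 4 := by
    intro D hD
    refine ⟨((FF_ok n).2.2 D hD).1, fun l hl => ?_⟩
    rw [hFF] at hD
    exact combC_vars ASM_vars ASM_vars D hD l hl
  have hfin := hC0 d _ (FF n) L (Nat.sqrt (n / 100) ^ 2) N t hs hv k5
    (le_trans (Nat.mul_le_mul_right _ (Nat.le_succ C0)) k6)
    (lt_of_le_of_lt (Nat.mul_le_mul_right _ (Nat.mul_le_mul_right _ (Nat.mul_le_mul_left _ (Nat.le_succ C0)))) k8) π hπ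
  exact k7.trans (by exact_mod_cast hfin.le)

end ACpHier
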