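import Pool.Agent.H42.SH.TDefs

/-!
ROW NumU (about 120 lines): numerics. PROOF. `M := Nat.sqrt (n / 100)`, so `M ≤ sqrt n / 10`, and `1 ≤ M` for `n ≥ 100`. `r := ⌈M^(1/h)⌉₊` (real power): `M ≤ r^h`, `1 ≤ r`, `r ≤ 2 M^(1/h)`. All is at most `2 ^ (126 h r^2)`: `10^8 ≤ 2^27`, `(M+1)^4 ≤ (2 r^h)^4 ≤ 2^(4 + 4 h r)`
(`r ≤ 2^r`), `h + 2 ≤ 2^(h+1)`, `5 ≤ 2^3`, `(r^h)^2 ≤ 2^(2 h r)`, `cst 4 r 20 h = 2^(12 r^2 + 17) * (30 * (60 r^2 256 (16^(h r^2) 20))^2)`, `30 ≤ 2^5`, `60 ≤ 2^6`, `r^2 ≤ 2^(2 r)`, `20 ≤ 2^5`: exponent at most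
`27 + 4 + 4 h r + h + 1 + 3 + 2 h r + 12 r^2 + 17 + 5 + 2 (6 + 2 r + 8 + 4 h r^2 + 5) ≤ 126 h r^2`. Finally `126 h r^2 ≤ 504 h M^(2/h) ≤ 504 h n^(1/h) ≤ n^(2/h)` for `n ≥ (504 h)^h`.
-/

set_option autoImplicit false

namespace ACpHier

private theorem NumU_core (h r M : ℕ) (hh : 1 ≤ h) (hr : 1 ≤ r) (hM : 1 ≤ M) (hMr : M ≤ r ^ h) :
    10 ^ 8 * (M + 1) ^ 4 * ((h + 2) * (5 * (r ^ h) ^ 2 * cst 4 r 20 h)) ≤ 2 ^ (126 * (h * r ^ 2)) := by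
  have a1 : 10 ^ 8 ≤ 2 ^ 27 := by norm_num
  have a2 : r ≤ 2 ^ r := Nat.lt_two_pow_self.le
  have a3 : r ^ h ≤ 2 ^ (h * r) := by
    rw [mul_comm h r, pow_mul]
    exact Nat.pow_le_pow_left a2 h
  have a5 : (M + 1) ^ 4 ≤ 2 ^ (4 + 4 * (h * r)) := by
    have h1 : M + 1 ≤ 2 * 2 ^ (h * r) := by omega
    calc (M + 1) ^ 4 ≤ (2 * 2 ^ (h * r)) ^ 4 := Nat.pow_le_pow_left h1 4
      _ = 2 ^ (4 + 4 * (h * r)) := by ring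
  have a6 : h + 2 ≤ 2 ^ (h + 1) := by
    have h1 : h + 1 ≤ 2 ^ h := Nat.lt_two_pow_self
    rw [pow_succ]
    omega
  have a7 : (r ^ h) ^ 2 ≤ 2 ^ (2 * (h * r)) := by
    calc (r ^ h) ^ 2 ≤ (2 ^ (h * r)) ^ 2 := Nat.pow_le_pow_left a3 2
      _ = 2 ^ (2 * (h * r)) := by ring
  have a8 : 60 * r ^ 2 * 4 ^ 4 * ((4 * 4) ^ (h * r ^ 2) * 20) ≤ 2 ^ (19 + 2 * r + 4 * (h * r ^ 2)) := by
    have h1 : r ^ 2 ≤ 2 ^ (2 * r) := by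
      calc r ^ 2 ≤ (2 ^ r) ^ 2 := Nat.pow_le_pow_left a2 2
        _ = 2 ^ (2 * r) := by ring
    have h2 : (4 * 4 : ℕ) ^ (h * r ^ 2) = 2 ^ (4 * (h * r ^ 2)) := by
      rw [pow_mul 2 4 (h * r ^ 2)]
      norm_num
    rw [h2]
    calc 60 * r ^ 2 * 4 ^ 4 * (2 ^ (4 * (h * r ^ 2)) * 20)
        ≤ 2 ^ 6 * 2 ^ (2 * r) * 2 ^ 8 * (2 ^ (4 * (h * r ^ 2)) * 2 ^ 5) := by
          refine Nat.mul_le_mul (Nat.mul_le_mul (Nat.mul_le_mul (by norm_num) h1) (by norm_num))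
            (Nat.mul_le_mul (le_refl _) (by norm_num))
      _ = 2 ^ (19 + 2 * r + 4 * (h * r ^ 2)) := by
          rw [← pow_add, ← pow_add, ← pow_add, ← pow_add]
          refine congrArg (fun t => 2 ^ t) ?_
          omega
  have a9 : cst 4 r 20 h ≤ 2 ^ (12 * r ^ 2 + 60 + 4 * r + 8 * (h * r ^ 2)) := by
    unfold cst sz
    have h1 : 3 * r ^ 2 * 4 + 4 * 4 + 1 = 12 * r ^ 2 + 17 := by ring
    rw [h1]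
    calc 2 ^ (12 * r ^ 2 + 17) * (30 * (60 * r ^ 2 * 4 ^ 4 * ((4 * 4) ^ (h * r ^ 2) * 20)) ^ 2)
        ≤ 2 ^ (12 * r ^ 2 + 17) * (2 ^ 5 * (2 ^ (19 + 2 * r + 4 * (h * r ^ 2))) ^ 2) :=
          Nat.mul_le_mul (le_refl _) (Nat.mul_le_mul (by norm_num) (Nat.pow_le_pow_left a8 2))
      _ = 2 ^ (12 * r ^ 2 + 60 + 4 * r + 8 * (h * r ^ 2)) := by
          rw [← pow_mul, ← pow_add, ← pow_add]
          refine congrArg (fun t => 2 ^ t) ?_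
          omega
  have b1 : h * r ≤ h * r ^ 2 := Nat.mul_le_mul (le_refl _) (by rw [pow_two]; exact Nat.le_mul_of_pos_left _ hr)
  have b2 : h ≤ h * r ^ 2 := Nat.le_mul_of_pos_right _ (pow_pos hr 2)
  have b3 : r ^ 2 ≤ h * r ^ 2 := Nat.le_mul_of_pos_left _ hh
  have b4 : r ≤ h * r := Nat.le_mul_of_pos_left _ hh
  calc 10 ^ 8 * (M + 1) ^ 4 * ((h + 2) * (5 * (r ^ h) ^ 2 * cst 4 r 20 h))
      ≤ 2 ^ 27 * 2 ^ (4 + 4 * (h * r)) * (2 ^ (h + 1) * (2 ^ 3 * 2 ^ (2 * (h * r)) *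
          2 ^ (12 * r ^ 2 + 60 + 4 * r + 8 * (h * r ^ 2)))) :=
        Nat.mul_le_mul (Nat.mul_le_mul a1 a5) (Nat.mul_le_mul a6
          (Nat.mul_le_mul (Nat.mul_le_mul (by norm_num) a7) a9))
    _ = 2 ^ (27 + (4 + 4 * (h * r)) + ((h + 1) + (3 + 2 * (h * r) + (12 * r ^ 2 + 60 + 4 * r + 8 * (h * r ^ 2))))) := by
        rw [pow_add _ (27 + (4 + 4 * (h * r))), pow_add _ 27, pow_add _ (h + 1), pow_add _ (3 + 2 * (h * r)),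
          pow_add _ 3]
    _ ≤ 2 ^ (126 * (h * r ^ 2)) := Nat.pow_le_pow_right (by norm_num) (by omega)

theorem numU (h : ℕ) (hh : 1 ≤ h) : ∃ n₀ : ℕ, ∀ n ≥ n₀, 1 ≤ Nat.sqrt (n / 100) ∧ ∃ r : ℕ, 1 ≤ r ∧ Nat.sqrt (n / 100) ≤ r ^ h ∧
    ((10 ^ 8 * (Nat.sqrt (n / 100) + 1) ^ 4 * ((h + 2) * (5 * (r ^ h) ^ 2 * cst 4 r 20 h)) : ℕ) : ℝ) ≤
      (2 : ℝ) ^ ((n : ℝ) ^ ((2 : ℝ) / h)) := by
  refine ⟨(504 * h) ^ h + 100, fun n hn => ?_⟩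
  have hM1 : 1 ≤ Nat.sqrt (n / 100) := by
    rw [Nat.le_sqrt]
    omega
  have hMn : Nat.sqrt (n / 100) * Nat.sqrt (n / 100) ≤ n := (Nat.sqrt_le _).trans (Nat.div_le_self _ _)
  refine ⟨hM1, ?_⟩
  generalize Nat.sqrt (n / 100) = M at hM1 hMn
  have hh0 : (0 : ℝ) < h := by exact_mod_cast hh
  have hM1' : (1 : ℝ) ≤ M := by exact_mod_cast hM1
  have hM0 : (0 : ℝ) ≤ M := by linarith
  set x : ℝ := (M : ℝ) ^ ((1 : ℝ) / h) with hx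
  have hx1 : 1 ≤ x := Real.one_le_rpow hM1' (by positivity)
  have hxh : x ^ h = M := by
    rw [hx, ← Real.rpow_natCast, ← Real.rpow_mul hM0, one_div_mul_cancel hh0.ne', Real.rpow_one]
  have hr1 : 1 ≤ ⌈x⌉₊ := Nat.one_le_ceil_iff.2 (by linarith)
  have hrx : (⌈x⌉₊ : ℝ) ≤ 2 * x := by
    have := Nat.ceil_lt_add_one (a := x) (by linarith)
    linarith
  have hMr : M ≤ ⌈x⌉₊ ^ h := by
    have h1 : (M : ℝ) ≤ (⌈x⌉₊ : ℝ) ^ h := by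
      rw [← hxh]
      exact pow_le_pow_left₀ (by linarith) (Nat.le_ceil x) h
    exact_mod_cast h1
  refine ⟨⌈x⌉₊, hr1, hMr, ?_⟩
  have hc := NumU_core h ⌈x⌉₊ M hh hr1 hM1 hMr
  have hc' : ((10 ^ 8 * (M + 1) ^ 4 * ((h + 2) * (5 * (⌈x⌉₊ ^ h) ^ 2 * cst 4 ⌈x⌉₊ 20 h)) : ℕ) : ℝ) ≤
      ((2 ^ (126 * (h * ⌈x⌉₊ ^ 2)) : ℕ) : ℝ) := Nat.cast_le.2 hc
  refine hc'.trans ?_
  rw [Nat.cast_pow, Nat.cast_ofNat, ← Real.rpow_natCast]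
  refine Real.rpow_le_rpow_of_exponent_le (by norm_num) ?_
  rw [Nat.cast_mul, Nat.cast_mul, Nat.cast_pow, Nat.cast_ofNat]
  have h1 : (⌈x⌉₊ : ℝ) ^ 2 ≤ 4 * x ^ 2 := by
    have h2 := pow_le_pow_left₀ (by positivity) hrx 2
    calc (⌈x⌉₊ : ℝ) ^ 2 ≤ (2 * x) ^ 2 := h2
      _ = 4 * x ^ 2 := by ring
  have hn0 : (0 : ℝ) ≤ n := Nat.cast_nonneg n
  set y : ℝ := (n : ℝ) ^ ((1 : ℝ) / h) with hy
  have hy0 : 0 ≤ y := Real.rpow_nonneg hn0 _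
  have h3 : x ^ 2 ≤ y := by
    have h4 : x ^ 2 = ((M : ℝ) * M) ^ ((1 : ℝ) / h) := by
      rw [Real.mul_rpow hM0 hM0, pow_two]
    rw [h4]
    refine Real.rpow_le_rpow (by positivity) ?_ (by positivity)
    exact_mod_cast hMn
  have h5 : 504 * (h : ℝ) ≤ y := by
    have h6 : ((504 * (h : ℝ)) ^ h) ^ ((1 : ℝ) / h) = 504 * (h : ℝ) := by
      rw [← Real.rpow_natCast, ← Real.rpow_mul (by positivity), mul_one_div_cancel hh0.ne', Real.rpow_one]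
    rw [← h6]
    refine Real.rpow_le_rpow (by positivity) ?_ (by positivity)
    have h7 : (504 * h) ^ h ≤ n := by omega
    exact_mod_cast h7
  have h8 : (n : ℝ) ^ ((2 : ℝ) / h) = y * y := by
    rw [hy, ← Real.rpow_add_of_nonneg hn0 (by positivity) (by positivity)]
    refine congrArg (fun t => (n : ℝ) ^ t) ?_
    ring
  rw [h8]
  calc 126 * ((h : ℝ) * (⌈x⌉₊ : ℝ) ^ 2) ≤ 126 * ((h : ℝ) * (4 * x ^ 2)) := by gcongr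
    _ ≤ 126 * ((h : ℝ) * (4 * y)) := by gcongr
    _ = 504 * (h : ℝ) * y := by ring
    _ ≤ y * y := mul_le_mul_of_nonneg_right h5 hy0

end ACpHier
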