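import Pool.Agent.H42.SH.HDefs
import Pool.Agent.H42.SH.CombU
import Pool.Agent.H42.SH.NumU
import Pool.Agent.H42.SH.FreeL

/-!
ROW Upper (30 lines). PROOF: `combU`, `numU`, the definition of `FF`.
-/

set_option autoImplicit false

namespace ACpHier

open ACpFrege ACpB

theorem upperFF : UpperFF := by
  intro p h hh
  obtain ⟨n₀, hn₀⟩ := numU h hh
  refine ⟨n₀, fun n hn => ?_⟩
  obtain ⟨h1, r, hr, hMr, hnum⟩ := hn₀ n hn
  obtain ⟨π₀, hπ₀, hs₀⟩ := combU p (Nat.sqrt (n / 100)) r h h1 hr hMr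
  obtain ⟨π, hπ, hs₁, hfree⟩ := freeze hπ₀
  have hs := hs₁.trans hs₀
  refine ⟨π, ?_, hfree, ?_⟩
  · unfold FF
    rw [if_pos h1]
    exact hπ
  · exact (Nat.cast_le.2 hs).trans hnum

end ACpHier
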