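import Pool.Agent.H65.AF.Main
import Pool.Agent.H42.SH.Lower
import Pool.Agent.H42.SH.Upper
import Pool.Agent.H42.SH.HierA
import Pool.Agent.H42.SH.HierB

/-!
helper42 (project MP_28250c_SH): the strict depth hierarchy.
-/

set_option autoImplicit false

namespace ACpHier

open ACpFrege

theorem lower : LowerFF := lowerFF (fun p _ => outAU p) outBW (partC 3 (le_refl 3)) (partC 4 (by norm_num))

theorem main : HierA ∧ HierB := ⟨hierA lower upperFF, hierB lower upperFF⟩

end ACpHier
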