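import Pool.Agent.H42.SH.Eval

/-!
ROW Merge (about 120 lines): cutting all atoms. PROOF. Induction on `L` from the right (`List.reverseRecOn`/`List.reverseRec`), for all `c`. `L = P ++ [i]`, `i ∉ P`. For every `σ`: take `σ⁺`, `σ⁻` := `σ` with `i` true / false
(`Function.update`), they agree with `σ` on `P`, so there are `OR(P-lits ++ [neg (a i)] ++ [C])` and `OR(P-lits ++ [a i] ++ [C])`, cost `c` each; `str` turns them into `OR((P-lits ++ [C]) ++ [..])`
(cost at most `2 Z ^ 2` each: at most `Z` lines of size at most `2 Z`, since the size of such a line is at most `Z` and `length + 2 ≤ Z`), `r_cut` (cost `≤ Z`). So `OR(P-lits ++ [C])` costs `2 c + 5 Z ^ 2`; the induction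
hypothesis for `P` gives `2 ^ |P| (2 c + 5 Z ^ 2 + 5 Z ^ 2)`. Depths: all members have depth at most `δ + 1`.
-/

set_option autoImplicit false

namespace ACpHier

open ACpFrege

variable {p : ℕ} {F : CNF} {d : ℕ} {H : Set (Fm p)} {ι : Type}

private theorem Merge_lit_size (a : ι → Fm p) (σ : ι → Prop) (i : ι) : (lit a σ i).size ≤ (a i).size + 1 := by
  unfold lit
  split
  · rw [size_neg]
  · exact Nat.le_succ _

private theorem Merge_lit_depth (a : ι → Fm p) {δ : ℕ} (ha : ∀ i, (a i).depth ≤ δ) (σ : ι → Prop) (i : ι) :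
    (lit a σ i).depth ≤ δ + 1 := by
  unfold lit
  split
  · exact (depth_neg_le _).trans (Nat.succ_le_succ (ha i))
  · exact (ha i).trans (Nat.le_succ _)

private theorem Merge_sum_le (a : ι → Fm p) (σ : ι → Prop) (L : List ι) :
    ((L.map (lit a σ)).map Fm.size).sum ≤ (L.map fun i => (a i).size + 1).sum := by
  induction L with
  | nil => exact le_refl _
  | cons i L ih =>
    rw [List.map_cons, List.map_cons, List.map_cons, List.sum_cons, List.sum_cons]
    exact Nat.add_le_add (Merge_lit_size a σ i) ih

private theorem Merge_len_le (a : ι → Fm p) (L : List ι) : L.length ≤ (L.map fun i => (a i).size + 1).sum := by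
  induction L with
  | nil => exact le_refl _
  | cons i L ih =>
    rw [List.map_cons, List.sum_cons, List.length_cons]
    omega

private theorem Merge_lit_true (a : ι → Fm p) {σ : ι → Prop} {i : ι} (h : σ i) : lit a σ i = .neg (a i) := by
  unfold lit
  rw [if_pos h]

private theorem Merge_lit_false (a : ι → Fm p) {σ : ι → Prop} {i : ι} (h : ¬ σ i) : lit a σ i = a i := by
  unfold lit
  rw [if_neg h]

private theorem Merge_map_congr (a : ι → Fm p) {σ τ : ι → Prop} {L : List ι} (h : ∀ i ∈ L, σ i = τ i) :
    L.map (lit a σ) = L.map (lit a τ) := by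
  refine List.map_congr_left fun i hi => ?_
  unfold lit
  rw [h i hi]

open Classical in
/-- Cutting one atom. -/
private theorem Merge_one (a : ι → Fm p) (C : Fm p) {δ Z : ℕ} (ha : ∀ i, (a i).depth ≤ δ) (hC : C.depth ≤ δ) (hd : δ + 2 ≤ d)
    (P : List ι) (i : ι) (hi : i ∉ P) (hZ : ((P ++ [i]).map fun i => (a i).size + 1).sum + C.size + 5 ≤ Z) (c : ℕ)
    (h : ∀ σ : ι → Prop, Rch F d c H {cnL true ((P ++ [i]).map (lit a σ) ++ [C])}) (σ : ι → Prop) :
    Rch F d (2 * c + 5 * Z ^ 2) H {cnL true (P.map (lit a σ) ++ [C])} := by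
  have hp1 : P.map (lit a (Function.update σ i True)) = P.map (lit a σ) :=
    Merge_map_congr a fun j hj => Function.update_of_ne (fun e : j = i => hi (e ▸ hj)) _ _
  have hp2 : P.map (lit a (Function.update σ i False)) = P.map (lit a σ) :=
    Merge_map_congr a fun j hj => Function.update_of_ne (fun e : j = i => hi (e ▸ hj)) _ _
  have hl1 : lit a (Function.update σ i True) i = .neg (a i) :=
    Merge_lit_true a (by rw [Function.update_self]; trivial)
  have hl2 : lit a (Function.update σ i False) i = a i :=
    Merge_lit_false a (by rw [Function.update_self]; exact fun h => h)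
  have h1 := h (Function.update σ i True)
  have h2 := h (Function.update σ i False)
  rw [List.map_append, hp1, List.map_cons, List.map_nil, hl1] at h1
  rw [List.map_append, hp2, List.map_cons, List.map_nil, hl2] at h2
  set Q := P.map (lit a σ) with hQ
  have hsum := Merge_sum_le a σ P
  have hlen := Merge_len_le a P
  rw [List.map_append, List.sum_append, List.map_cons, List.map_nil, List.sum_cons, List.sum_nil] at hZ
  have hQs : (Q.map Fm.size).sum ≤ (P.map fun i => (a i).size + 1).sum := hsum
  have hQl : Q.length = P.length := by rw [hQ, List.length_map]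
  have hm : ∀ A ∈ Q, A.depth ≤ δ + 1 := by
    intro A hA
    obtain ⟨j, _, rfl⟩ := List.mem_map.1 hA
    exact Merge_lit_depth a ha σ j
  have hCd : C.depth ≤ δ + 1 := hC.trans (Nat.le_succ _)
  have had : (a i).depth ≤ δ + 1 := (ha i).trans (Nat.le_succ _)
  have hnd : (Fm.neg (a i)).depth ≤ δ + 1 := (depth_neg_le _).trans (Nat.succ_le_succ (ha i))
  have hZZ : Z ≤ Z ^ 2 := Nat.le_self_pow two_ne_zero Z
  -- the two rearrangements
  have key : ∀ B : Fm p, B.depth ≤ δ + 1 → B.size ≤ (a i).size + 1 → ∀ H' : Set (Fm p),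
      cnL true (Q ++ [B] ++ [C]) ∈ H' → Rch F d (2 * Z ^ 2) H' {cnL true ((Q ++ [C]) ++ [B])} := by
    intro B hB hBs H' hH
    have hmem : ∀ A ∈ (Q ++ [B] ++ [C]) ++ ((Q ++ [C]) ++ [B]), A.depth ≤ δ + 1 := by
      intro A hA
      simp only [List.mem_append, List.mem_singleton] at hA
      rcases hA with ((hA | rfl) | rfl) | ((hA | rfl) | rfl)
      · exact hm A hA
      · exact hB
      · exact hCd
      · exact hm A hA
      · exact hCd
      · exact hB
    have hs := str (F := F) (d := d) (H := H') (Γ := Q ++ [B] ++ [C]) (Δ := (Q ++ [C]) ++ [B])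
      (by
        intro A hA
        simp only [List.mem_append, List.mem_singleton] at hA ⊢
        tauto) hH ((depth_cnL_le hmem).trans (by omega))
    refine hs.mono (le_refl _) (le_refl _) ?_
    have e1 : (cnL true (Q ++ [B] ++ [C])).size ≤ Z := by
      rw [size_cnL, List.map_append, List.map_append, List.sum_append, List.sum_append, List.map_cons, List.map_nil,
        List.sum_cons, List.sum_nil, List.map_cons, List.map_nil, List.sum_cons, List.sum_nil]
      omega
    have e2 : (cnL true ((Q ++ [C]) ++ [B])).size ≤ Z := by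
      rw [size_cnL, List.map_append, List.map_append, List.sum_append, List.sum_append, List.map_cons, List.map_nil,
        List.sum_cons, List.sum_nil, List.map_cons, List.map_nil, List.sum_cons, List.sum_nil]
      omega
    have e3 : (Q ++ [B] ++ [C]).length + 1 ≤ Z := by
      rw [List.length_append, List.length_append, List.length_singleton, List.length_singleton, hQl]
      omega
    calc ((Q ++ [B] ++ [C]).length + 1) * ((cnL true (Q ++ [B] ++ [C])).size + (cnL true ((Q ++ [C]) ++ [B])).size)
        ≤ Z * (Z + Z) := Nat.mul_le_mul e3 (Nat.add_le_add e1 e2)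
      _ = 2 * Z ^ 2 := by ring
  have s1 := key (Fm.neg (a i)) hnd (by rw [size_neg]) ({cnL true (Q ++ [Fm.neg (a i)] ++ [C])} ∪ {cnL true (Q ++ [a i] ++ [C])})
    (Or.inl rfl)
  have s2 := key (a i) had (Nat.le_succ _) ({cnL true (Q ++ [Fm.neg (a i)] ++ [C])} ∪ {cnL true (Q ++ [a i] ++ [C])})
    (Or.inr rfl)
  have hcd : (cnL true (Q ++ [C])).depth ≤ d := by
    refine (depth_cnL_le (e := δ + 1) ?_).trans (by omega)
    intro A hA
    simp only [List.mem_append, List.mem_singleton] at hA
    rcases hA with hA | rfl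
    · exact hm A hA
    · exact hCd
  have hcut := r_cut (F := F) (d := d) (Γ := Q ++ [C]) (A := a i)
    (H := {cnL true ((Q ++ [C]) ++ [Fm.neg (a i)])} ∪ {cnL true ((Q ++ [C]) ++ [a i])}) (Or.inr rfl) (Or.inl rfl) hcd
  have hcs : (cnL true (Q ++ [C])).size ≤ Z := by
    rw [size_cnL, List.map_append, List.sum_append, List.map_cons, List.map_nil, List.sum_cons, List.sum_nil]
    omega
  exact ((h1.union h2).comp ((s1.union s2).comp hcut)).mono (le_refl _) (le_refl _) (by omega)

theorem merge (a : ι → Fm p) (C : Fm p) {δ Z : ℕ} (ha : ∀ i, (a i).depth ≤ δ) (hC : C.depth ≤ δ) (hd : δ + 2 ≤ d) (L : List ι)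
    (hn : L.Nodup) (hZ : (L.map fun i => (a i).size + 1).sum + C.size + 5 ≤ Z) (c : ℕ)
    (h : ∀ σ : ι → Prop, Rch F d c H {cnL true (L.map (lit a σ) ++ [C])}) :
    Rch F d (2 ^ L.length * (c + 5 * Z ^ 2)) H {cnL true [C]} := by
  induction L using List.reverseRecOn generalizing c with
  | nil =>
    refine (h fun _ => True).mono (le_refl _) (le_refl _) ?_
    rw [List.length_nil, pow_zero, one_mul]
    exact Nat.le_add_right _ _
  | append_singleton P i ih =>
    have hi : i ∉ P := by
      intro hmem
      exact (List.nodup_append.1 hn).2.2 i hmem i (List.mem_singleton.2 rfl) rfl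
    have hnP : P.Nodup := (List.nodup_append.1 hn).1
    have hZP : (P.map fun i => (a i).size + 1).sum + C.size + 5 ≤ Z := by
      rw [List.map_append, List.sum_append] at hZ
      omega
    have h1 := ih hnP hZP (2 * c + 5 * Z ^ 2) (Merge_one a C ha hC hd P i hi hZ c h)
    refine h1.mono (le_refl _) (le_refl _) (le_of_eq ?_)
    rw [List.length_append, List.length_singleton]
    ring

end ACpHier
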