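import Pool.Agent.H42.SH.RchL
import Pool.Agent.H42.SH.Fml

/-!
ROW One (about 150 lines): the rules of `S0` as one-step derivations. PROOF. Each is `Rch.rule` for the right member of `S0 p` (membership: `by simp [S0]`
or `List.mem_cons` chains), with `s := fun _ => A`, `G := fun j => if j = 0 then Γ else if j = 1 then Δ else Λ`; the instances are computed with
`inst_orS`, `inst_andS`, `Sch.inst` and `List.flatten`, `simp`.
-/

set_option autoImplicit false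

namespace ACpHier

open ACpFrege

variable {p : ℕ} {F : CNF} {d : ℕ} {H : Set (Fm p)}

private def gG (Γ Δ Λ : List (Fm p)) : ℕ → List (Fm p) := fun j => if j = 0 then Γ else if j = 1 then Δ else Λ

theorem r_em (Γ : List (Fm p)) (A : Fm p) (hd : (cnL true (Γ ++ [A, .neg A])).depth ≤ d) :
    Rch F d (cnL true (Γ ++ [A, .neg A])).size H {cnL true (Γ ++ [A, .neg A])} := by
  refine Rch.rule (R := ⟨[], orS [.sq 0, .mv 0, .neg (.mv 0)]⟩) (by simp [S0]) (fun _ => A) (gG Γ [] []) ?_ ?_ hd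
  · simp [inst_orS, inst_andS, Sch.inst, gG]
  · simp [inst_orS, inst_andS, Sch.inst, gG]

theorem r_lift (Γ : List (Fm p)) {A : Fm p} (hA : A ∈ H) (hd : (cnL true (Γ ++ [A])).depth ≤ d) :
    Rch F d (cnL true (Γ ++ [A])).size H {cnL true (Γ ++ [A])} := by
  refine Rch.rule (R := ⟨[.mv 0], orS [.sq 0, .mv 0]⟩) (by simp [S0]) (fun _ => A) (gG Γ [] []) ?_ ?_ hd
  · simp [inst_orS, inst_andS, Sch.inst, gG]
  · simp [inst_orS, inst_andS, Sch.inst, gG, hA]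

theorem r_drop {A : Fm p} (hA : cnL true [A] ∈ H) (hd : A.depth ≤ d) : Rch F d A.size H {A} := by
  refine Rch.rule (R := ⟨[orS [.mv 0]], .mv 0⟩) (by simp [S0]) (fun _ => A) (gG [] [] []) ?_ ?_ hd
  · simp [inst_orS, inst_andS, Sch.inst, gG]
  · simp [inst_orS, inst_andS, Sch.inst, gG, hA]

theorem r_weak {Γ : List (Fm p)} (Δ : List (Fm p)) (h : cnL true Γ ∈ H) (hd : (cnL true (Γ ++ Δ)).depth ≤ d) :
    Rch F d (cnL true (Γ ++ Δ)).size H {cnL true (Γ ++ Δ)} := by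
  refine Rch.rule (R := ⟨[orS [.sq 0]], orS [.sq 0, .sq 1]⟩) (by simp [S0]) (fun _ => cnL true []) (gG Γ Δ []) ?_ ?_ hd
  · simp [inst_orS, inst_andS, Sch.inst, gG]
  · simp [inst_orS, inst_andS, Sch.inst, gG, h]

theorem r_absorb {Γ Δ : List (Fm p)} {A : Fm p} (h : cnL true (A :: (Γ ++ A :: Δ)) ∈ H)
    (hd : (cnL true (Γ ++ A :: Δ)).depth ≤ d) : Rch F d (cnL true (Γ ++ A :: Δ)).size H {cnL true (Γ ++ A :: Δ)} := by
  refine Rch.rule (R := ⟨[orS [.mv 0, .sq 0, .mv 0, .sq 1]], orS [.sq 0, .mv 0, .sq 1]⟩) (by simp [S0]) (fun _ => A) (gG Γ Δ []) ?_ ?_ hd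
  · simp [inst_orS, inst_andS, Sch.inst, gG]
  · simp [inst_orS, inst_andS, Sch.inst, gG, h]

theorem r_cut {Γ : List (Fm p)} {A : Fm p} (h : cnL true (Γ ++ [A]) ∈ H) (h' : cnL true (Γ ++ [.neg A]) ∈ H)
    (hd : (cnL true Γ).depth ≤ d) : Rch F d (cnL true Γ).size H {cnL true Γ} := by
  refine Rch.rule (R := ⟨[orS [.sq 0, .mv 0], orS [.sq 0, .neg (.mv 0)]], orS [.sq 0]⟩) (by simp [S0]) (fun _ => A) (gG Γ [] []) ?_ ?_ hd
  · simp [inst_orS, inst_andS, Sch.inst, gG]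
  · simp [inst_orS, inst_andS, Sch.inst, gG, h, h']

theorem r_nn {Γ : List (Fm p)} {A : Fm p} (h : cnL true (Γ ++ [A]) ∈ H) (hd : (cnL true (Γ ++ [.neg (.neg A)])).depth ≤ d) :
    Rch F d (cnL true (Γ ++ [.neg (.neg A)])).size H {cnL true (Γ ++ [.neg (.neg A)])} := by
  refine Rch.rule (R := ⟨[orS [.sq 0, .mv 0]], orS [.sq 0, .neg (.neg (.mv 0))]⟩) (by simp [S0]) (fun _ => A) (gG Γ [] []) ?_ ?_ hd
  · simp [inst_orS, inst_andS, Sch.inst, gG]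
  · simp [inst_orS, inst_andS, Sch.inst, gG, h]

theorem r_or {Γ : List (Fm p)} (Δ Λ : List (Fm p)) {A : Fm p} (h : cnL true (Γ ++ [A]) ∈ H)
    (hd : (cnL true (Γ ++ [cnL true (Δ ++ A :: Λ)])).depth ≤ d) :
    Rch F d (cnL true (Γ ++ [cnL true (Δ ++ A :: Λ)])).size H {cnL true (Γ ++ [cnL true (Δ ++ A :: Λ)])} := by
  refine Rch.rule (R := ⟨[orS [.sq 0, .mv 0]], orS [.sq 0, orS [.sq 1, .mv 0, .sq 2]]⟩) (by simp [S0]) (fun _ => A) (gG Γ Δ Λ) ?_ ?_ hd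
  · simp [inst_orS, inst_andS, Sch.inst, gG]
  · simp [inst_orS, inst_andS, Sch.inst, gG, h]

theorem r_nor0 (Γ : List (Fm p)) (hd : (cnL true (Γ ++ [.neg (cnL true [])])).depth ≤ d) :
    Rch F d (cnL true (Γ ++ [.neg (cnL true [])])).size H {cnL true (Γ ++ [.neg (cnL true [])])} := by
  refine Rch.rule (R := ⟨[], orS [.sq 0, .neg (orS [])]⟩) (by simp [S0]) (fun _ => cnL true []) (gG Γ [] []) ?_ ?_ hd
  · simp [inst_orS, inst_andS, Sch.inst, gG]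
  · simp [inst_orS, inst_andS, Sch.inst, gG]

theorem r_nor {Γ Δ : List (Fm p)} {A : Fm p} (h : cnL true (Γ ++ [.neg (cnL true Δ)]) ∈ H) (h' : cnL true (Γ ++ [.neg A]) ∈ H)
    (hd : (cnL true (Γ ++ [.neg (cnL true (Δ ++ [A]))])).depth ≤ d) :
    Rch F d (cnL true (Γ ++ [.neg (cnL true (Δ ++ [A]))])).size H {cnL true (Γ ++ [.neg (cnL true (Δ ++ [A]))])} := by
  refine Rch.rule (R := ⟨[orS [.sq 0, .neg (orS [.sq 1])], orS [.sq 0, .neg (.mv 0)]], orS [.sq 0, .neg (orS [.sq 1, .mv 0])]⟩) (by simp [S0]) (fun _ => A) (gG Γ Δ []) ?_ ?_ hd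
  · simp [inst_orS, inst_andS, Sch.inst, gG]
  · simp [inst_orS, inst_andS, Sch.inst, gG, h, h']

theorem r_and0 (Γ : List (Fm p)) (hd : (cnL true (Γ ++ [cnL false []])).depth ≤ d) :
    Rch F d (cnL true (Γ ++ [cnL false []])).size H {cnL true (Γ ++ [cnL false []])} := by
  refine Rch.rule (R := ⟨[], orS [.sq 0, andS []]⟩) (by simp [S0]) (fun _ => cnL true []) (gG Γ [] []) ?_ ?_ hd
  · simp [inst_orS, inst_andS, Sch.inst, gG]
  · simp [inst_orS, inst_andS, Sch.inst, gG]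

theorem r_and {Γ Δ : List (Fm p)} {A : Fm p} (h : cnL true (Γ ++ [cnL false Δ]) ∈ H) (h' : cnL true (Γ ++ [A]) ∈ H)
    (hd : (cnL true (Γ ++ [cnL false (Δ ++ [A])])).depth ≤ d) :
    Rch F d (cnL true (Γ ++ [cnL false (Δ ++ [A])])).size H {cnL true (Γ ++ [cnL false (Δ ++ [A])])} := by
  refine Rch.rule (R := ⟨[orS [.sq 0, andS [.sq 1]], orS [.sq 0, .mv 0]], orS [.sq 0, andS [.sq 1, .mv 0]]⟩) (by simp [S0]) (fun _ => A) (gG Γ Δ []) ?_ ?_ hd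
  · simp [inst_orS, inst_andS, Sch.inst, gG]
  · simp [inst_orS, inst_andS, Sch.inst, gG, h, h']

theorem r_nand {Γ : List (Fm p)} (Δ Λ : List (Fm p)) {A : Fm p} (h : cnL true (Γ ++ [.neg A]) ∈ H)
    (hd : (cnL true (Γ ++ [.neg (cnL false (Δ ++ A :: Λ))])).depth ≤ d) :
    Rch F d (cnL true (Γ ++ [.neg (cnL false (Δ ++ A :: Λ))])).size H {cnL true (Γ ++ [.neg (cnL false (Δ ++ A :: Λ))])} := by
  refine Rch.rule (R := ⟨[orS [.sq 0, .neg (.mv 0)]], orS [.sq 0, .neg (andS [.sq 1, .mv 0, .sq 2])]⟩) (by simp [S0]) (fun _ => A) (gG Γ Δ Λ) ?_ ?_ hd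
  · simp [inst_orS, inst_andS, Sch.inst, gG]
  · simp [inst_orS, inst_andS, Sch.inst, gG, h]

end ACpHier
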