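import Pool.Agent.H42.SH.Defs

/-!
ROW RchL (about 130 lines): derivations. PROOFS. `Pf.refutes`: induction on `Pf` for all lines have depth at most `d` and every line is a
`Step` from the earlier ones (`List.getElem_append_left/right`, `List.take_append_of_le_length`; `Step` is monotone in `prev`).
`Rch.trans`: given `π` with `H ⊆ π` take `ρ₁` from the first, apply the second to `π ++ ρ₁`, the new part is `ρ₁ ++ ρ₂`.
`Rch.biUnion`: `Finset.induction_on` with `Rch.union` (classical decidable equality). `Rch.rule`: the new line is `B` alone, `Step` by the rule.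
-/

set_option autoImplicit false

namespace ACpHier

open ACpFrege

variable {p : ℕ} {F : CNF} {d : ℕ}

theorem psize_append (π ρ : List (Fm p)) : psize (π ++ ρ) = psize π + psize ρ := by
  simp [psize]

private theorem pf_aux {π : List (Fm p)} (h : Pf F d π) :
    (∀ A ∈ π, A.depth ≤ d) ∧ ∀ (i : ℕ) (hi : i < π.length), Step (S0 p) F (π.take i) π[i] := by
  induction h with
  | nil => exact ⟨fun A hA => absurd hA List.not_mem_nil, fun i hi => absurd hi (Nat.not_lt_zero i)⟩
  | snoc π A hπ hA hS ih =>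
    refine ⟨?_, ?_⟩
    · intro B hB
      rcases List.mem_append.1 hB with h | h
      · exact ih.1 B h
      · rw [List.mem_singleton.1 h]
        exact hA
    · intro i hi
      rcases Nat.lt_or_ge i π.length with h | h
      · rw [List.getElem_append_left h, List.take_append_of_le_length h.le]
        exact ih.2 i h
      · have hi' : i = π.length := by
          rw [List.length_append, List.length_singleton] at hi
          omega
        subst hi'
        simp only [List.take_left', List.getElem_append_right (Nat.le_refl _), Nat.sub_self,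
          List.getElem_cons_zero]
        exact hS

theorem Pf.refutes {π : List (Fm p)} (h : Pf F d π) (h' : cnL true [] ∈ π) : Refutes (S0 p) d F π :=
  ⟨(pf_aux h).1, (pf_aux h).2, h'⟩

theorem Rch.mono {c c' : ℕ} {H H' A A' : Set (Fm p)} (h : Rch F d c H A) (hH : H ⊆ H') (hA : A' ⊆ A) (hc : c ≤ c') :
    Rch F d c' H' A' := by
  intro π hπ hB
  obtain ⟨ρ, h1, h2, h3⟩ := h π hπ (fun B hb => hB B (hH hb))
  exact ⟨ρ, h1, fun B hb => h2 B (hA hb), h3.trans hc⟩

theorem Rch.of_sub {H A : Set (Fm p)} (h : A ⊆ H) : Rch F d 0 H A := by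
  intro π hπ hB
  refine ⟨[], ?_, ?_, ?_⟩
  · rw [List.append_nil]
    exact hπ
  · intro B hb
    rw [List.append_nil]
    exact hB B (h hb)
  · simp [psize]

theorem Rch.trans {c₁ c₂ : ℕ} {H A B : Set (Fm p)} (h₁ : Rch F d c₁ H A) (h₂ : Rch F d c₂ (H ∪ A) B) :
    Rch F d (c₁ + c₂) H (A ∪ B) := by
  intro π hπ hB
  obtain ⟨ρ₁, h1, h2, h3⟩ := h₁ π hπ hB
  obtain ⟨ρ₂, k1, k2, k3⟩ := h₂ (π ++ ρ₁) h1 (by
    intro C hC
    rcases hC with hC | hC
    · exact List.mem_append_left _ (hB C hC)
    · exact h2 C hC)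
  rw [List.append_assoc] at k1
  refine ⟨ρ₁ ++ ρ₂, k1, ?_, ?_⟩
  · intro C hC
    rw [← List.append_assoc]
    rcases hC with hC | hC
    · exact List.mem_append_left _ (h2 C hC)
    · exact k2 C hC
  · rw [psize_append]
    exact add_le_add h3 k3

/-- The short form of `trans`. -/
theorem Rch.comp {c₁ c₂ : ℕ} {H A B : Set (Fm p)} (h₁ : Rch F d c₁ H A) (h₂ : Rch F d c₂ A B) : Rch F d (c₁ + c₂) H B :=
  (h₁.trans (h₂.mono Set.subset_union_right subset_rfl le_rfl)).mono subset_rfl Set.subset_union_right le_rfl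

theorem Rch.union {c₁ c₂ : ℕ} {H A B : Set (Fm p)} (h₁ : Rch F d c₁ H A) (h₂ : Rch F d c₂ H B) :
    Rch F d (c₁ + c₂) H (A ∪ B) :=
  h₁.trans (h₂.mono Set.subset_union_left subset_rfl le_rfl)

theorem Rch.biUnion {κ : Type} (s : Finset κ) {c : ℕ} {H : Set (Fm p)} (A : κ → Set (Fm p)) (h : ∀ i ∈ s, Rch F d c H (A i)) :
    Rch F d (s.card * c) H (⋃ i ∈ s, A i) := by
  classical
  induction s using Finset.induction_on with
  | empty =>
    simp only [Finset.card_empty, zero_mul, Finset.notMem_empty, Set.iUnion_of_empty, Set.iUnion_empty]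
    exact Rch.of_sub (Set.empty_subset _)
  | insert a s ha ih =>
    have h1 := ih (fun i hi => h i (Finset.mem_insert_of_mem hi))
    have h2 := h a (Finset.mem_insert_self a s)
    rw [Finset.card_insert_of_notMem ha, add_mul, one_mul, Finset.set_biUnion_insert, add_comm]
    exact h2.union h1

theorem Rch.rule {R : Rule p} (hR : R ∈ S0 p) (s : ℕ → Fm p) (G : ℕ → List (Fm p)) {H : Set (Fm p)} {B : Fm p}
    (hc : R.concl.inst s G = [B]) (hp : ∀ P ∈ R.prem, ∀ C ∈ P.inst s G, C ∈ H) (hd : B.depth ≤ d) : Rch F d B.size H {B} := by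
  intro π hπ hB
  refine ⟨[B], Pf.snoc π B hπ hd (Or.inr ⟨R, hR, s, G, hc, fun P hP C hC => hB C (hp P hP C hC)⟩), ?_, ?_⟩
  · intro C hC
    rw [Set.mem_singleton_iff.1 hC]
    exact List.mem_append_right _ (List.mem_singleton_self B)
  · simp [psize]

theorem Rch.clause {C : List Lit} {H : Set (Fm p)} (hC : C ∈ F) (hd : (clauseFm (p := p) C).depth ≤ d) :
    Rch F d (clauseFm (p := p) C).size H {clauseFm C} := by
  intro π hπ _
  refine ⟨[clauseFm C], Pf.snoc π _ hπ hd (Or.inl ⟨C, hC, rfl⟩), ?_, ?_⟩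
  · intro B hB
    rw [Set.mem_singleton_iff.1 hB]
    exact List.mem_append_right _ (List.mem_singleton_self _)
  · simp [psize]

theorem Rch.refute {c : ℕ} (h : Rch (p := p) F d c ∅ {cnL true []}) : ∃ π : List (Fm p), Refutes (S0 p) d F π ∧ psize π ≤ c := by
  obtain ⟨ρ, h1, h2, h3⟩ := h [] Pf.nil (fun B hB => absurd hB (Set.notMem_empty B))
  rw [List.nil_append] at h1 h2
  exact ⟨ρ, h1.refutes (h2 _ (Set.mem_singleton _)), h3⟩

end ACpHier
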