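import Pool.Agent.H42.SH.StepT
import Pool.Agent.H42.SH.TSize

/-!
ROW RootT (about 100 lines): the contradiction at the root. PROOF. `complete` with `ι := Option (Fin 3 × ZMod q)` (card `3 q + 1`), `a := atm B ![blk h 0 0, col h 0 0, col h 0 (r^h)]`, four hypotheses (index `Fin 4`):
the templates of `F2 h 0`, `F3 h 0 0`, `F4 h 0 0 0`, `F4 h 0 (r^h) 1` (`e0 q 0 = 1`; `0 * r ^ h = 0`, `(0 + 1) * r ^ h = r ^ h`), all in `FS .. h` (`i = j = 0 < r ^ (h - h) = 1`), and the conclusion `.at none` (= `B`).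
Meaning: if `σ none` is false then `v₀ = 0`, `v₁ + v₀ - v₂ = 0`, `v₁ = 0`, `v₂ = 1`, contradiction to `1 ≠ 0` in `ZMod q`, `2 ≤ q`. Sizes and depths as in `StepT` (`size_Fact`, `depth_Fact`, `TSize`), `e := 2 h + 2`, `s := sz q r S h`;
`Z := 60 r^2 q^4 s`; then `Rch.mono` (`Set.range ⊆ FS`, cost `2 ^ (3 q + 1) (30 Z^2) ≤ cst q r S h`).
-/

set_option autoImplicit false

namespace ACpHier

open ACpFrege ACpB

variable {p q : ℕ} [NeZero q] {F : CNF} {d : ℕ}

/-- The three nodes. -/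
private noncomputable def RootT_N (p q s M r h : ℕ) [NeZero q] : Fin 3 → ZMod q → Fm p :=
  ![blk p q s M r h 0 0, col p q s M r h 0 0, col p q s M r h 0 (r ^ h)]

/-- The nodes of the four facts. -/
private def RootT_nd : Fin 4 → Fin 3 → Fin 3 := ![![0, 0, 0], ![1, 0, 2], ![1, 1, 1], ![2, 2, 2]]

private def RootT_c (q : ℕ) : Fin 4 → Fin 3 → ZMod q := ![![1, 0, 0], ![1, 1, -1], ![1, 0, 0], ![1, 0, 0]]

private def RootT_b (q : ℕ) : Fin 4 → ZMod q := ![0, 0, 0, 1]

private theorem RootT_mem (s M r h : ℕ) (B : Fm p) (k : Fin 4) :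
    Fact B (fun i => RootT_N p q s M r h (RootT_nd k i)) (RootT_c q k) (RootT_b q k) ∈ FS p q s M r h (r ^ h) B h := by
  have h0 : 0 < r ^ (h - h) := by
    rw [Nat.sub_self, pow_zero]
    exact Nat.one_pos
  refine ⟨0, 0, h0, h0, ?_⟩
  fin_cases k
  · refine Or.inr (Or.inl ?_)
    show Fact B _ _ _ = Fact B _ _ _
    congr 1
    funext i
    fin_cases i <;> rfl
  · refine Or.inr (Or.inr (Or.inl ?_))
    show Fact B _ _ _ = Fact B _ _ _
    congr 1
    funext i
    fin_cases i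
    · show col p q s M r h 0 0 = col p q s M r h 0 (0 * r ^ h)
      rw [zero_mul]
    · rfl
    · show col p q s M r h 0 (r ^ h) = col p q s M r h 0 ((0 + 1) * r ^ h)
      rw [zero_add, one_mul]
  · refine Or.inr (Or.inr (Or.inr (Or.inl ?_)))
    show Fact B _ _ _ = Fact B _ _ _
    congr 1
    funext i
    fin_cases i <;> rfl
  · refine Or.inr (Or.inr (Or.inr (Or.inr ?_)))
    show Fact B _ _ _ = Fact B _ _ _
    congr 1
    funext i
    fin_cases i <;> rfl

theorem root (s M r h S : ℕ) (B : Fm p) (hq : 2 ≤ q) (hr : 1 ≤ r) (hB : B.depth ≤ 2) (sB : B.size ≤ S) (hd : 2 * h + 8 ≤ d) :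
    Rch F d (cst q r S h) (FS p q s M r h (r ^ h) B h) {B} := by
  classical
  have hS : 1 ≤ S := (size_pos B).trans sB
  have hq1 : 1 ≤ q := Nat.one_le_iff_ne_zero.2 (NeZero.ne q)
  obtain ⟨z, hz⟩ : ∃ z, z = sz q r S h := ⟨_, rfl⟩
  have hSz : S ≤ z := by rw [hz]; exact sz_ge q r S h
  have hz1 : 1 ≤ z := hS.trans hSz
  have sN : ∀ i j, (RootT_N p q s M r h i j).size ≤ z := by
    intro i j
    rw [hz]
    fin_cases i
    · exact blk_size s M r S hr hS h 0 0 j
    · exact col_size s M r S hr hS h 0 0 j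
    · exact col_size s M r S hr hS h 0 (r ^ h) j
  have dN : ∀ i j, (RootT_N p q s M r h i j).depth ≤ 2 * h + 2 := by
    intro i j
    fin_cases i
    · exact (blk_depth s M r h 0 0 j).trans (by omega)
    · exact (col_depth s M r h 0 0 j).trans (by omega)
    · exact (col_depth s M r h 0 (r ^ h) j).trans (by omega)
  have sB' : B.size ≤ z := sB.trans hSz
  have dB : B.depth ≤ 2 * h + 2 := hB.trans (by omega)
  have hHsb : ∀ k, (cnT true [LinT (fun i j => Tm.at (some (RootT_nd k i, j))) (RootT_c q k) (RootT_b q k), .at none]).sb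
      (atm B (RootT_N p q s M r h)) = Fact B (fun i => RootT_N p q s M r h (RootT_nd k i)) (RootT_c q k) (RootT_b q k) := by
    intro k
    rw [sb_cnT, List.map_cons, List.map_cons, List.map_nil, sb_LinT]
    rfl
  have hcard : Fintype.card (Option (Fin 3 × ZMod q)) = 3 * q + 1 := by
    rw [Fintype.card_option, Fintype.card_prod, ZMod.card, Fintype.card_fin]
  have hsum : ∑ i : Option (Fin 3 × ZMod q), ((atm B (RootT_N p q s M r h) i).size + 1) ≤ (3 * q + 1) * (z + 1) := by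
    have h1 := Finset.sum_le_card_nsmul (Finset.univ : Finset (Option (Fin 3 × ZMod q)))
      (fun i => (atm B (RootT_N p q s M r h) i).size + 1) (z + 1)
      (fun i _ => by
        rcases i with _ | x
        · exact Nat.succ_le_succ sB'
        · exact Nat.succ_le_succ (sN x.1 x.2))
    rw [Finset.card_univ, hcard, smul_eq_mul] at h1
    exact h1
  have hZ : (3 * q + 1) * (z + 1) + 20 * q ^ 4 * z ≤ 60 * r ^ 2 * q ^ 4 * z := by
    have h1 : (3 * q + 1) * (z + 1) ≤ (4 * q) * (2 * z) := Nat.mul_le_mul (by omega) (by omega)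
    have h2 : (4 * q) * (2 * z) ≤ 8 * (q ^ 4 * z) := by
      have h3 : q * z ≤ q ^ 4 * z := Nat.mul_le_mul_right z (Nat.le_self_pow (by norm_num) q)
      calc (4 * q) * (2 * z) = 8 * (q * z) := by ring
        _ ≤ 8 * (q ^ 4 * z) := Nat.mul_le_mul_left 8 h3
    have h4 : 60 * 1 * (q ^ 4 * z) ≤ 60 * r ^ 2 * (q ^ 4 * z) :=
      Nat.mul_le_mul_right _ (Nat.mul_le_mul_left 60 (Nat.one_le_pow _ _ hr))
    calc (3 * q + 1) * (z + 1) + 20 * q ^ 4 * z ≤ 8 * (q ^ 4 * z) + 20 * (q ^ 4 * z) :=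
          Nat.add_le_add (h1.trans h2) (le_of_eq (by ring))
      _ ≤ 60 * 1 * (q ^ 4 * z) := by omega
      _ ≤ 60 * r ^ 2 * (q ^ 4 * z) := h4
      _ = 60 * r ^ 2 * q ^ 4 * z := by ring
  have hmain := complete (F := F) (d := d) (δ := 2 * h + 2 + 4) (Z := 60 * r ^ 2 * q ^ 4 * z) (atm B (RootT_N p q s M r h))
    (fun k => cnT true [LinT (fun i j => Tm.at (some (RootT_nd k i, j))) (RootT_c q k) (RootT_b q k), .at none])
    (.at none) ?_ ?_ ?_ ?_ (by omega) ?_ ?_
  · rw [hcard] at hmain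
    refine hmain.mono ?_ subset_rfl ?_
    · rintro A ⟨k, rfl⟩
      show (cnT true [LinT (fun i j => Tm.at (some (RootT_nd k i, j))) (RootT_c q k) (RootT_b q k), .at none]).sb
        (atm B (RootT_N p q s M r h)) ∈ _
      rw [hHsb k]
      exact RootT_mem s M r h B k
    · unfold cst
      rw [← hz]
      refine Nat.mul_le_mul_right _ (Nat.pow_le_pow_right (by norm_num) ?_)
      have h1 : 3 * q ≤ 3 * r ^ 2 * q := by
        have : 3 * 1 * q ≤ 3 * r ^ 2 * q := Nat.mul_le_mul_right q (Nat.mul_le_mul_left 3 (Nat.one_le_pow _ _ hr))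
        omega
      omega
  · intro σ hσ
    by_contra h0
    have h1 : ∀ k, ∃ τ : Fin 3 → ZMod q, ∑ i, RootT_c q k i * τ i = RootT_b q k ∧
        ∀ i, Has (fun j => (Tm.at (some (RootT_nd k i, j))).tr σ) (τ i) := by
      intro k
      obtain ⟨T', hT', ht⟩ := (tr_cnT_true σ _).1 (hσ k)
      rw [List.mem_cons, List.mem_singleton] at hT'
      rcases hT' with rfl | rfl
      · exact tr_LinT.1 ht
      · exact absurd ht h0
    obtain ⟨τ0, a0, b0⟩ := h1 0
    obtain ⟨τ1, a1, b1⟩ := h1 1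
    obtain ⟨τ2, a2, b2⟩ := h1 2
    obtain ⟨τ3, a3, b3⟩ := h1 3
    have e0 : τ0 0 = τ1 1 := Has.unique (b0 0) (b1 1)
    have e1 : τ2 0 = τ1 0 := Has.unique (b2 0) (b1 0)
    have e2 : τ3 0 = τ1 2 := Has.unique (b3 0) (b1 2)
    have c0 : τ0 0 = 0 := by
      have : ∑ i, (![1, 0, 0] : Fin 3 → ZMod q) i * τ0 i = 0 := a0
      simpa [Fin.sum_univ_three] using this
    have c1 : τ1 0 + τ1 1 - τ1 2 = 0 := by
      have : ∑ i, (![1, 1, -1] : Fin 3 → ZMod q) i * τ1 i = 0 := a1
      rw [Fin.sum_univ_three] at this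
      have h5 : (1 : ZMod q) * τ1 0 + 1 * τ1 1 + -1 * τ1 2 = 0 := this
      linear_combination h5
    have c2 : τ2 0 = 0 := by
      have : ∑ i, (![1, 0, 0] : Fin 3 → ZMod q) i * τ2 i = 0 := a2
      simpa [Fin.sum_univ_three] using this
    have c3 : τ3 0 = 1 := by
      have : ∑ i, (![1, 0, 0] : Fin 3 → ZMod q) i * τ3 i = 1 := a3
      simpa [Fin.sum_univ_three] using this
    rw [← e0, ← e1, ← e2, c0, c2, c3] at c1
    have h6 : (1 : ZMod q) = 0 := by linear_combination -c1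
    have : _root_.Fact (1 < q) := ⟨hq⟩
    exact one_ne_zero h6
  · intro i
    rcases i with _ | x
    · exact dB.trans (Nat.le_add_right _ _)
    · exact (dN x.1 x.2).trans (Nat.le_add_right _ _)
  · intro k
    show ((cnT true [LinT (fun i j => Tm.at (some (RootT_nd k i, j))) (RootT_c q k) (RootT_b q k), .at none]).sb
      (atm B (RootT_N p q s M r h))).depth ≤ 2 * h + 2 + 4
    rw [hHsb k]
    exact depth_Fact dB (fun i v => dN (RootT_nd k i) v) (RootT_c q k) (RootT_b q k)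
  · exact dB.trans (Nat.le_add_right _ _)
  · intro k
    show _ + ((cnT true [LinT (fun i j => Tm.at (some (RootT_nd k i, j))) (RootT_c q k) (RootT_b q k), .at none]).sb
      (atm B (RootT_N p q s M r h))).size + 5 ≤ 60 * r ^ 2 * q ^ 4 * z
    rw [hHsb k]
    have h1 := size_Fact sB' (fun i v => sN (RootT_nd k i) v) (RootT_c q k) (RootT_b q k)
    omega
  · show _ + B.size + 5 ≤ 60 * r ^ 2 * q ^ 4 * z
    have h1 : 20 * z ≤ 20 * q ^ 4 * z := Nat.mul_le_mul_right z (by
      have := Nat.one_le_pow 4 q hq1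
      omega)
    omega

end ACpHier
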