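import Pool.Agent.H42.SH.One

/-!
ROW Str (about 70 lines): structural lemma. PROOF. `r_weak` gives `OR(Γ ++ Δ)`; then by induction on `Γ`: from `OR(A :: Γ' ++ Δ)`, `A ∈ Δ`, `Δ = Δ₁ ++ A :: Δ₂`
(`List.append_of_mem`): `r_absorb` with `Γ := Γ' ++ Δ₁`, `Δ := Δ₂` gives `OR(Γ' ++ Δ)`. All lines have size at most
`(cnL true Γ).size + (cnL true Δ).size` (`size_cnL`), there are `Γ.length + 1` of them; depths by `depth_sub`.
-/

set_option autoImplicit false

namespace ACpHier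

open ACpFrege

variable {p : ℕ} {F : CNF} {d : ℕ} {H : Set (Fm p)}

private theorem Str_size (Γ Δ : List (Fm p)) :
    (cnL true (Γ ++ Δ)).size ≤ (cnL true Γ).size + (cnL true Δ).size := by
  rw [size_cnL, size_cnL, size_cnL, List.map_append, List.sum_append]
  omega

private theorem Str_ind {Δ : List (Fm p)} {S : ℕ} : ∀ (Γ : List (Fm p)) (H : Set (Fm p)), (∀ A ∈ Γ, A ∈ Δ) →
    cnL true (Γ ++ Δ) ∈ H → (cnL true (Γ ++ Δ)).depth ≤ d → (cnL true (Γ ++ Δ)).size ≤ S →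
    Rch F d (Γ.length * S) H {cnL true Δ} := by
  intro Γ
  induction Γ with
  | nil =>
    intro H _ hH _ _
    refine Rch.mono (Rch.of_sub (Set.singleton_subset_iff.mpr hH)) subset_rfl subset_rfl (Nat.zero_le _)
  | cons A Γ ih =>
    intro H h hH hd hS
    obtain ⟨Δ₁, Δ₂, hΔ⟩ := List.append_of_mem (h A List.mem_cons_self)
    have e : Γ ++ Δ = (Γ ++ Δ₁) ++ A :: Δ₂ := by
      rw [hΔ, List.append_assoc]
    have hsub : ∀ B ∈ Γ ++ Δ, B ∈ A :: Γ ++ Δ := fun B hB => List.mem_cons_of_mem A hB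
    have hd' : (cnL true (Γ ++ Δ)).depth ≤ d := (depth_sub hsub).trans hd
    have hS' : (cnL true (Γ ++ Δ)).size ≤ S := by
      refine le_trans ?_ hS
      rw [size_cnL, size_cnL, List.cons_append, List.map_cons, List.sum_cons]
      omega
    have h1 : Rch F d (cnL true (Γ ++ Δ)).size H {cnL true (Γ ++ Δ)} := by
      have hH' : cnL true (A :: ((Γ ++ Δ₁) ++ A :: Δ₂)) ∈ H := by
        rw [← e]
        exact hH
      have h2 := r_absorb (F := F) (d := d) hH' (by rw [← e]; exact hd')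
      rw [← e] at h2
      exact h2
    have h3 := ih {cnL true (Γ ++ Δ)} (fun B hB => h B (List.mem_cons_of_mem A hB)) rfl hd' hS'
    refine Rch.mono (Rch.comp h1 h3) subset_rfl subset_rfl ?_
    rw [List.length_cons, Nat.succ_mul]
    omega

theorem str {Γ Δ : List (Fm p)} (h : ∀ A ∈ Γ, A ∈ Δ) (hH : cnL true Γ ∈ H) (hd : (cnL true (Γ ++ Δ)).depth ≤ d) :
    Rch F d ((Γ.length + 1) * ((cnL true Γ).size + (cnL true Δ).size)) H {cnL true Δ} := by
  have h1 := r_weak (F := F) (d := d) Δ hH hd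
  have h2 : Rch F d (Γ.length * ((cnL true Γ).size + (cnL true Δ).size)) {cnL true (Γ ++ Δ)} {cnL true Δ} :=
    Str_ind Γ {cnL true (Γ ++ Δ)} h rfl hd (Str_size Γ Δ)
  refine Rch.mono (Rch.comp h1 h2) subset_rfl subset_rfl ?_
  have h3 := Str_size Γ Δ
  rw [Nat.succ_mul]
  omega

end ACpHier
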