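import Pool.Agent.H42.SH.StepT
import Pool.Agent.H42.SH.TSize

/-!
ROW T1 (about 120 lines): the steps for `F1` and `F2`. PROOF. `t1`: `step` with `κ := (Fin r × Fin r) ⊕ (Fin r × Fin r)`, `N (inl x) := blk l (r i + x.1) (r j + x.2)`, `N (inr x) := blk l (r j + x.1) (r i + x.2)`, `K := Fin r × Fin r`,
`nd k := ![inl k, inr k.swap, inl k]`, `c := ![1, 1, 0]`, `P := ![blk (l+1) i j, blk (l+1) j i, blk (l+1) i j]`, `g := ![∑ v (inl x), ∑ v (inr x), ∑ v (inl x)]` (`par_sum`), alg: `∑ (v (inl k) + v (inr k.swap)) = 0` and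
`∑ v (inr k.swap) = ∑ v (inr k)` (`Equiv.sum_comp (Equiv.prodComm ..)`). The facts of `step` are `F1 l (r i + a) (r j + b)` up to `Fin 3` eta (`funext e; fin_cases e`).
`t2`: `κ := Fin r × Fin r`, `N x := blk l (r i + x.1) (r i + x.2)`, `K := (Fin r × Fin r) ⊕ Fin r`, `nd (inl k) := ![k, k.swap, k]`, `![1, 1, 0]`, `nd (inr a) := ![(a, a), (a, a), (a, a)]`, `![1, 0, 0]`; alg: `∑ v (a, b) = 0` because `v (a, b) + v (b, a) = 0`
and `v (a, a) = 0`: split the sum into `a < b`, `a = b`, `a > b`. (`q` may be even: do not divide by 2.)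
`s := sz q r S (l + 1)`, `e := 2 (l + 1) + 2`; cost: `card κ ≤ 2 r^2`, `Z := 60 r^2 q^4 sz q r S h`, then `Rch.mono`.
-/

set_option autoImplicit false

namespace ACpHier

open ACpFrege ACpB

variable {p q : ℕ} [NeZero q] {F : CNF} {d : ℕ}

private theorem T1_num {n r q s S h : ℕ} (hr : 1 ≤ r) (hq : 1 ≤ q) (hn : n ≤ 2 * r ^ 2) (hs : 1 ≤ s)
    (hS : s ≤ sz q r S h) : (n * q + 1) * (s + 1) + 20 * q ^ 4 * s ≤ 60 * r ^ 2 * q ^ 4 * sz q r S h := by
  have h1 : 1 ≤ r ^ 2 := Nat.one_le_pow _ _ hr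
  have h2 : q ≤ q ^ 4 := Nat.le_self_pow (by norm_num) q
  have h3 : 1 ≤ q ^ 4 := hq.trans h2
  have e1 : n * q + 1 ≤ 3 * (r ^ 2 * q ^ 4) := by
    have a1 : n * q ≤ 2 * r ^ 2 * q ^ 4 := Nat.mul_le_mul hn h2
    have a2 : 1 ≤ r ^ 2 * q ^ 4 := Nat.mul_pos h1 h3
    nlinarith
  have e2 : (n * q + 1) * (s + 1) ≤ 3 * (r ^ 2 * q ^ 4) * (2 * s) := Nat.mul_le_mul e1 (by omega)
  have e3 : 20 * q ^ 4 * s ≤ 20 * (r ^ 2 * q ^ 4) * s := by
    have a1 : q ^ 4 ≤ r ^ 2 * q ^ 4 := Nat.le_mul_of_pos_left _ h1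
    exact Nat.mul_le_mul_right _ (Nat.mul_le_mul_left _ a1)
  calc (n * q + 1) * (s + 1) + 20 * q ^ 4 * s
      ≤ 3 * (r ^ 2 * q ^ 4) * (2 * s) + 20 * (r ^ 2 * q ^ 4) * s := Nat.add_le_add e2 e3
    _ = 26 * (r ^ 2 * q ^ 4 * s) := by ring
    _ ≤ 60 * (r ^ 2 * q ^ 4 * sz q r S h) := Nat.mul_le_mul (by norm_num) (Nat.mul_le_mul_left _ hS)
    _ = 60 * r ^ 2 * q ^ 4 * sz q r S h := by ring

private theorem T1_cost {n r q S h : ℕ} (hn : n ≤ 2 * r ^ 2) :
    2 ^ (n * q + 1) * (30 * (60 * r ^ 2 * q ^ 4 * sz q r S h) ^ 2) ≤ cst q r S h := by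
  unfold cst
  refine Nat.mul_le_mul_right _ (Nat.pow_le_pow_right (by norm_num) ?_)
  have a1 : n * q ≤ 2 * r ^ 2 * q := Nat.mul_le_mul_right _ hn
  nlinarith [Nat.zero_le (r ^ 2 * q)]

/-- The nodes of the step for `F1`. -/
private noncomputable def T1_N (p q s M r l i j : ℕ) [NeZero q] : (Fin r × Fin r) ⊕ (Fin r × Fin r) → ZMod q → Fm p
  | .inl x => blk p q s M r l (r * i + x.1) (r * j + x.2)
  | .inr x => blk p q s M r l (r * j + x.1) (r * i + x.2)

theorem t1 (s M r h S l i j : ℕ) (B : Fm p) (hr : 1 ≤ r) (hl : l + 1 ≤ h) (hB : B.depth ≤ 2) (sB : B.size ≤ S) (hd : 2 * h + 8 ≤ d) :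
    Rch F d (cst q r S h) {A | ∃ a b : Fin r, A = F1 p q s M r B l (r * i + a) (r * j + b)} {F1 p q s M r B (l + 1) i j} := by
  have hS : 1 ≤ S := (size_pos B).trans sB
  have hq : 1 ≤ q := Nat.one_le_iff_ne_zero.2 (NeZero.ne q)
  have hcard : Fintype.card ((Fin r × Fin r) ⊕ (Fin r × Fin r)) ≤ 2 * r ^ 2 := by
    rw [Fintype.card_sum, Fintype.card_prod, Fintype.card_fin]
    exact le_of_eq (by ring)
  have hmono : sz q r S l ≤ sz q r S (l + 1) := sz_mono q r S (Nat.le_succ l)
  have key := step (F := F) (d := d) (κ := (Fin r × Fin r) ⊕ (Fin r × Fin r)) (K := Fin r × Fin r) B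
    (T1_N p q s M r l i j) (fun k => ![.inl k, .inr k.swap, .inl k]) (fun _ => ![1, 1, 0]) (fun _ => 0)
    ![blk p q s M r (l + 1) i j, blk p q s M r (l + 1) j i, blk p q s M r (l + 1) i j]
    ![fun v => ∑ x, v (.inl x), fun v => ∑ x, v (.inr x), fun v => ∑ x, v (.inl x)]
    (by
      intro e
      fin_cases e
      · exact par_sum B (T1_N p q s M r l i j) Sum.inl
      · exact par_sum B (T1_N p q s M r l i j) Sum.inr
      · exact par_sum B (T1_N p q s M r l i j) Sum.inl)
    ![1, 1, 0] 0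
    (by
      intro x
      cases x with
      | inl k => exact ⟨k, 0, rfl⟩
      | inr k => exact ⟨k.swap, 1, by show Sum.inr k.swap.swap = Sum.inr k; rw [Prod.swap_swap]⟩)
    (by
      intro v hv
      have h1 : ∀ k : Fin r × Fin r, v (.inl k) + v (.inr k.swap) = 0 := by
        intro k
        have := hv k
        rw [Fin.sum_univ_three] at this
        simpa using this
      rw [Fin.sum_univ_three]
      have h2 : (∑ x : Fin r × Fin r, v (.inr x)) = ∑ x : Fin r × Fin r, v (.inr x.swap) :=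
        (Equiv.sum_comp (Equiv.prodComm (Fin r) (Fin r)) fun x => v (.inr x)).symm
      have h3 : (∑ x : Fin r × Fin r, v (.inl x)) + ∑ x : Fin r × Fin r, v (.inr x) = 0 := by
        rw [h2, ← Finset.sum_add_distrib]
        exact Finset.sum_eq_zero fun x _ => h1 x
      simpa using h3)
    (e := 2 * l + 3) (s := sz q r S (l + 1)) (Z := 60 * r ^ 2 * q ^ 4 * sz q r S h)
    (by omega)
    (by
      intro x z
      cases x with
      | inl x => exact (blk_depth s M r l _ _ z).trans (by omega)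
      | inr x => exact (blk_depth s M r l _ _ z).trans (by omega))
    (by
      intro e z
      fin_cases e
      · exact (blk_depth s M r (l + 1) _ _ z).trans (by omega)
      · exact (blk_depth s M r (l + 1) _ _ z).trans (by omega)
      · exact (blk_depth s M r (l + 1) _ _ z).trans (by omega))
    (by omega)
    (sB.trans (sz_ge q r S (l + 1)))
    (by
      intro x z
      cases x with
      | inl x => exact (blk_size s M r S hr hS l _ _ z).trans hmono
      | inr x => exact (blk_size s M r S hr hS l _ _ z).trans hmono)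
    (by
      intro e z
      fin_cases e
      · exact blk_size s M r S hr hS (l + 1) _ _ z
      · exact blk_size s M r S hr hS (l + 1) _ _ z
      · exact blk_size s M r S hr hS (l + 1) _ _ z)
    (T1_num hr hq hcard (hS.trans (sz_ge q r S (l + 1))) (sz_mono q r S hl))
  refine key.mono ?_ (le_refl _) (T1_cost hcard)
  rintro A ⟨k, rfl⟩
  refine ⟨k.1, k.2, ?_⟩
  unfold F1
  have hf : (fun e : Fin 3 => T1_N p q s M r l i j ((![.inl k, .inr k.swap, .inl k] :
      Fin 3 → (Fin r × Fin r) ⊕ (Fin r × Fin r)) e)) =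
      ![blk p q s M r l (r * i + k.1) (r * j + k.2), blk p q s M r l (r * j + k.2) (r * i + k.1),
        blk p q s M r l (r * i + k.1) (r * j + k.2)] := by
    funext e
    fin_cases e <;> rfl
  exact congrArg (fun N => Fact B N ![1, 1, 0] 0) hf

/-- The nodes of the step for `F2`. -/
private noncomputable def T1_N2 (p q s M r l i : ℕ) [NeZero q] : Fin r × Fin r → ZMod q → Fm p :=
  fun x => blk p q s M r l (r * i + x.1) (r * i + x.2)

private def T1_nd {r : ℕ} : (Fin r × Fin r) ⊕ Fin r → Fin 3 → Fin r × Fin r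
  | .inl k => ![k, k.swap, k]
  | .inr a => ![(a, a), (a, a), (a, a)]

private def T1_c (q r : ℕ) : (Fin r × Fin r) ⊕ Fin r → Fin 3 → ZMod q
  | .inl _ => ![1, 1, 0]
  | .inr _ => ![1, 0, 0]

theorem t2 (s M r h S l i : ℕ) (B : Fm p) (hr : 1 ≤ r) (hl : l + 1 ≤ h) (hB : B.depth ≤ 2) (sB : B.size ≤ S) (hd : 2 * h + 8 ≤ d) :
    Rch F d (cst q r S h) {A | (∃ a b : Fin r, A = F1 p q s M r B l (r * i + a) (r * i + b)) ∨ ∃ a : Fin r, A = F2 p q s M r B l (r * i + a)}
      {F2 p q s M r B (l + 1) i} := by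
  have hS : 1 ≤ S := (size_pos B).trans sB
  have hq : 1 ≤ q := Nat.one_le_iff_ne_zero.2 (NeZero.ne q)
  have hcard : Fintype.card (Fin r × Fin r) ≤ 2 * r ^ 2 := by
    rw [Fintype.card_prod, Fintype.card_fin]
    nlinarith
  have hmono : sz q r S l ≤ sz q r S (l + 1) := sz_mono q r S (Nat.le_succ l)
  have key := step (F := F) (d := d) (κ := Fin r × Fin r) (K := (Fin r × Fin r) ⊕ Fin r) B
    (T1_N2 p q s M r l i) T1_nd (T1_c q r) (fun _ => 0)
    ![blk p q s M r (l + 1) i i, blk p q s M r (l + 1) i i, blk p q s M r (l + 1) i i]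
    ![fun v => ∑ x, v x, fun v => ∑ x, v x, fun v => ∑ x, v x]
    (by
      intro e
      fin_cases e
      · exact par_sum B (T1_N2 p q s M r l i) id
      · exact par_sum B (T1_N2 p q s M r l i) id
      · exact par_sum B (T1_N2 p q s M r l i) id)
    ![1, 0, 0] 0
    (fun x => ⟨.inl x, 0, rfl⟩)
    (by
      intro v hv
      have h1 : ∀ k : Fin r × Fin r, v k + v k.swap = 0 := by
        intro k
        have := hv (.inl k)
        rw [Fin.sum_univ_three] at this
        simpa [T1_c, T1_nd] using this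
      have h2 : ∀ a : Fin r, v (a, a) = 0 := by
        intro a
        have := hv (.inr a)
        rw [Fin.sum_univ_three] at this
        simpa [T1_c, T1_nd] using this
      rw [Fin.sum_univ_three]
      have h3 : ∑ x : Fin r × Fin r, v x = 0 := by
        refine Finset.sum_involution (fun x _ => x.swap) (fun x _ => h1 x) ?_ (fun x _ => Finset.mem_univ _)
          (fun x _ => Prod.swap_swap x)
        intro x _ hx hsw
        apply hx
        obtain ⟨a, b⟩ := x
        have hab : b = a := congrArg Prod.fst hsw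
        rw [hab]
        exact h2 a
      simpa using h3)
    (e := 2 * l + 3) (s := sz q r S (l + 1)) (Z := 60 * r ^ 2 * q ^ 4 * sz q r S h)
    (by omega)
    (fun x z => (blk_depth s M r l _ _ z).trans (by omega))
    (by
      intro e z
      fin_cases e
      · exact (blk_depth s M r (l + 1) _ _ z).trans (by omega)
      · exact (blk_depth s M r (l + 1) _ _ z).trans (by omega)
      · exact (blk_depth s M r (l + 1) _ _ z).trans (by omega))
    (by omega)
    (sB.trans (sz_ge q r S (l + 1)))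
    (fun x z => (blk_size s M r S hr hS l _ _ z).trans hmono)
    (by
      intro e z
      fin_cases e
      · exact blk_size s M r S hr hS (l + 1) _ _ z
      · exact blk_size s M r S hr hS (l + 1) _ _ z
      · exact blk_size s M r S hr hS (l + 1) _ _ z)
    (T1_num hr hq hcard (hS.trans (sz_ge q r S (l + 1))) (sz_mono q r S hl))
  refine key.mono ?_ (le_refl _) (T1_cost hcard)
  rintro A ⟨k, rfl⟩
  cases k with
  | inl k =>
    refine Or.inl ⟨k.1, k.2, ?_⟩
    unfold F1
    have hf : (fun e : Fin 3 => T1_N2 p q s M r l i (T1_nd (.inl k) e)) =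
        ![blk p q s M r l (r * i + k.1) (r * i + k.2), blk p q s M r l (r * i + k.2) (r * i + k.1),
          blk p q s M r l (r * i + k.1) (r * i + k.2)] := by
      funext e
      fin_cases e <;> rfl
    exact congrArg (fun N => Fact B N ![1, 1, 0] 0) hf
  | inr a =>
    refine Or.inr ⟨a, ?_⟩
    unfold F2 Fact1
    have hf : (fun e : Fin 3 => T1_N2 p q s M r l i (T1_nd (.inr a) e)) =
        ![blk p q s M r l (r * i + a) (r * i + a), blk p q s M r l (r * i + a) (r * i + a),
          blk p q s M r l (r * i + a) (r * i + a)] := by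
      funext e
      fin_cases e <;> rfl
    exact congrArg (fun N => Fact B N ![1, 0, 0] 0) hf

end ACpHier
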