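import Pool.Agent.H42.SH.StepT
import Pool.Agent.H42.SH.TSize

/-!
ROW T3 (about 120 lines): the steps for `F3` and `F4`. PROOF. `t3`: `step` with `κ := (Fin r × Fin r) ⊕ (Fin r × Fin (r + 1))`, `N (inl x) := blk l (r i + x.1) (r j + x.2)`, `N (inr x) := col l (r i + x.1) ((r j + x.2) r^l)`, `K := Fin r × Fin r`,
`nd (a, b) := ![inr (a, b.castSucc), inl (a, b), inr (a, b.succ)]`, `c := ![1, 1, -1]`; `P := ![col (l+1) i (j r^(l+1)), blk (l+1) i j, col (l+1) i ((j+1) r^(l+1))]`, `g := ![∑ a, v (inr (a, 0)), ∑ v (inl x), ∑ a, v (inr (a, last))]`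
(`par_sum`; `(r j + 0) r^l = j r^(l+1)`, `(r j + r) r^l = (j + 1) r^(l+1)`); cover: `inr (a, b)` is `nd (a, 0) 0` for `b = 0` (`1 ≤ r`), `nd (a, b - 1) 2` for `b > 0`. alg: telescoping, `Fin.sum_univ_castSucc`, `Fin.sum_univ_succ`, `Finset.sum_comm`/`Fintype.sum_prod_type`.
`t4`: `κ := Fin r`, `N a := col l (r i + a) t`, `K := Fin r`, `nd a := ![a, a, a]`, `![1, 0, 0]`.
`s := sz q r S (l + 1)`, `e := 2 (l + 1) + 2`; `card κ = 2 r^2 + r ≤ 3 r^2`, `Z := 60 r^2 q^4 sz q r S h`, then `Rch.mono`.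
-/

set_option autoImplicit false

namespace ACpHier

open ACpFrege ACpB

variable {p q : ℕ} [NeZero q] {F : CNF} {d : ℕ}

private theorem T3_Z (q r S h l : ℕ) [NeZero q] (n : ℕ) (hr : 1 ≤ r) (hS : 1 ≤ S) (hl : l ≤ h) (hn : n ≤ 3 * r ^ 2) :
    (n * q + 1) * (sz q r S l + 1) + 20 * q ^ 4 * sz q r S l ≤ 60 * r ^ 2 * q ^ 4 * sz q r S h := by
  have hq : 1 ≤ q := Nat.one_le_iff_ne_zero.2 (NeZero.ne q)
  have h1 : sz q r S l ≤ sz q r S h := sz_mono q r S hl
  have h2 : 1 ≤ sz q r S h := le_trans hS (sz_ge q r S h)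
  have hr2 : 1 ≤ r ^ 2 := Nat.one_le_pow _ _ hr
  have hq4 : q ≤ q ^ 4 := Nat.le_self_pow (by norm_num) q
  have hq1 : 1 ≤ q ^ 4 := hq.trans hq4
  have h3 : n * q + 1 ≤ 4 * (r ^ 2 * q ^ 4) := by
    have h4 : n * q ≤ 3 * r ^ 2 * q ^ 4 := Nat.mul_le_mul hn hq4
    have h5 : 1 ≤ r ^ 2 * q ^ 4 := Nat.one_le_iff_ne_zero.2 (by positivity)
    nlinarith
  have h6 : (n * q + 1) * (sz q r S l + 1) ≤ 4 * (r ^ 2 * q ^ 4) * (2 * sz q r S h) :=
    Nat.mul_le_mul h3 (by omega)
  have h7 : 20 * q ^ 4 * sz q r S l ≤ 20 * (r ^ 2 * q ^ 4) * sz q r S h :=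
    Nat.mul_le_mul (by nlinarith) h1
  nlinarith [Nat.zero_le (r ^ 2 * q ^ 4 * sz q r S h)]

private theorem T3_cst (q r S h n : ℕ) [NeZero q] (hn : n ≤ 3 * r ^ 2) :
    2 ^ (n * q + 1) * (30 * (60 * r ^ 2 * q ^ 4 * sz q r S h) ^ 2) ≤ cst q r S h := by
  unfold cst
  refine Nat.mul_le_mul_right _ (Nat.pow_le_pow_right (by norm_num) ?_)
  have := Nat.mul_le_mul_right q hn
  omega

private theorem T3_tel {R : Type} [AddCommGroup R] {r : ℕ} (f : Fin (r + 1) → R) :
    ∑ b : Fin r, (f b.castSucc - f b.succ) = f 0 - f (Fin.last r) := by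
  rw [Finset.sum_sub_distrib]
  have h1 := Fin.sum_univ_castSucc f
  have h2 := Fin.sum_univ_succ f
  rw [h1] at h2
  have h3 : ∑ b : Fin r, f b.castSucc = f 0 + ∑ b : Fin r, f b.succ - f (Fin.last r) := by
    rw [← h2]
    abel
  rw [h3]
  abel

theorem t3 (s M r h S l i j : ℕ) (B : Fm p) (hr : 1 ≤ r) (hl : l + 1 ≤ h) (hB : B.depth ≤ 2) (sB : B.size ≤ S) (hd : 2 * h + 8 ≤ d) :
    Rch F d (cst q r S h) {A | ∃ a b : Fin r, A = F3 p q s M r B l (r * i + a) (r * j + b)} {F3 p q s M r B (l + 1) i j} := by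
  have hS : 1 ≤ S := (size_pos B).trans sB
  obtain ⟨N, hN⟩ : ∃ N : (Fin r × Fin r) ⊕ (Fin r × Fin (r + 1)) → ZMod q → Fm p, N = Sum.elim
      (fun x => blk p q s M r l (r * i + x.1) (r * j + x.2))
      (fun x => col p q s M r l (r * i + x.1) ((r * j + x.2) * r ^ l)) := ⟨_, rfl⟩
  have hc : Fintype.card ((Fin r × Fin r) ⊕ (Fin r × Fin (r + 1))) ≤ 3 * r ^ 2 := by
    rw [Fintype.card_sum, Fintype.card_prod, Fintype.card_prod, Fintype.card_fin, Fintype.card_fin]
    nlinarith
  have hNd : ∀ x z, (N x z).depth ≤ 2 * (l + 1) + 2 := by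
    intro x z
    rw [hN]
    rcases x with x | x
    · exact (blk_depth s M r l _ _ z).trans (by omega)
    · exact (col_depth s M r l _ _ z).trans (by omega)
  have hNs : ∀ x z, (N x z).size ≤ sz q r S (l + 1) := by
    intro x z
    rw [hN]
    rcases x with x | x
    · exact (blk_size s M r S hr hS l _ _ z).trans (sz_mono q r S (Nat.le_succ l))
    · exact (col_size s M r S hr hS l _ _ z).trans (sz_mono q r S (Nat.le_succ l))
  have key := step (F := F) (d := d) (K := Fin r × Fin r) B N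
    (fun k => ![Sum.inr (k.1, k.2.castSucc), Sum.inl k, Sum.inr (k.1, k.2.succ)])
    (fun _ => ![1, 1, -1]) (fun _ => 0)
    ![col p q s M r (l + 1) i (j * r ^ (l + 1)), blk p q s M r (l + 1) i j,
      col p q s M r (l + 1) i ((j + 1) * r ^ (l + 1))]
    ![fun v => ∑ a : Fin r, v (Sum.inr (a, 0)), fun v => ∑ x : Fin r × Fin r, v (Sum.inl x),
      fun v => ∑ a : Fin r, v (Sum.inr (a, Fin.last r))]
    (by
      intro e
      fin_cases e
      · have h1 := par_sum B N (fun a : Fin r => Sum.inr (a, (0 : Fin (r + 1))))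
        have h2 : (SumF fun a : Fin r => N (Sum.inr (a, 0))) = col p q s M r (l + 1) i (j * r ^ (l + 1)) := by
          rw [hN, col]
          congr 1
          funext a
          show col p q s M r l (r * i + a) ((r * j + 0) * r ^ l) = _
          congr 1
          rw [pow_succ]
          ring
        rw [h2] at h1
        exact h1
      · have h1 := par_sum B N (fun x : Fin r × Fin r => Sum.inl x)
        have h2 : (SumF fun x : Fin r × Fin r => N (Sum.inl x)) = blk p q s M r (l + 1) i j := by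
          rw [hN, blk]
          rfl
        rw [h2] at h1
        exact h1
      · have h1 := par_sum B N (fun a : Fin r => Sum.inr (a, Fin.last r))
        have h2 : (SumF fun a : Fin r => N (Sum.inr (a, Fin.last r))) =
            col p q s M r (l + 1) i ((j + 1) * r ^ (l + 1)) := by
          rw [hN, col]
          congr 1
          funext a
          show col p q s M r l (r * i + a) ((r * j + r) * r ^ l) = _
          congr 1
          rw [pow_succ]
          ring
        rw [h2] at h1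
        exact h1)
    ![1, 1, -1] 0
    (by
      rintro (x | ⟨a, b⟩)
      · exact ⟨x, 1, rfl⟩
      · refine Fin.cases ?_ (fun b' => ?_) b
        · exact ⟨(a, ⟨0, hr⟩), 0, rfl⟩
        · exact ⟨(a, b'), 2, rfl⟩)
    (by
      intro v hv
      have h1 : ∀ a b : Fin r, v (Sum.inl (a, b)) =
          -(v (Sum.inr (a, b.castSucc)) - v (Sum.inr (a, b.succ))) := by
        intro a b
        have h2 := hv (a, b)
        rw [Fin.sum_univ_three] at h2
        have h3 : 1 * v (Sum.inr (a, b.castSucc)) + 1 * v (Sum.inl (a, b)) + -1 * v (Sum.inr (a, b.succ)) = 0 := h2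
        linear_combination h3
      rw [Fin.sum_univ_three]
      show 1 * (∑ a : Fin r, v (Sum.inr (a, 0))) + 1 * (∑ x : Fin r × Fin r, v (Sum.inl x)) +
        -1 * (∑ a : Fin r, v (Sum.inr (a, Fin.last r))) = 0
      have h3 : ∑ x : Fin r × Fin r, v (Sum.inl x) =
          ∑ a : Fin r, -(v (Sum.inr (a, 0)) - v (Sum.inr (a, Fin.last r))) := by
        rw [Fintype.sum_prod_type]
        refine Finset.sum_congr rfl fun a _ => ?_
        rw [← T3_tel (fun b => v (Sum.inr (a, b))), ← Finset.sum_neg_distrib]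
        exact Finset.sum_congr rfl fun b _ => h1 a b
      rw [h3, Finset.sum_neg_distrib, Finset.sum_sub_distrib]
      ring)
    (e := 2 * (l + 1) + 2) (s := sz q r S (l + 1)) (Z := 60 * r ^ 2 * q ^ 4 * sz q r S h)
    (hB.trans (by omega)) hNd
    (by
      intro e z
      fin_cases e
      · exact (col_depth s M r (l + 1) _ _ z).trans (by omega)
      · exact (blk_depth s M r (l + 1) _ _ z).trans (by omega)
      · exact (col_depth s M r (l + 1) _ _ z).trans (by omega))
    (by omega) (sB.trans (sz_ge q r S (l + 1))) hNs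
    (by
      intro e z
      fin_cases e
      · exact col_size s M r S hr hS (l + 1) _ _ z
      · exact blk_size s M r S hr hS (l + 1) _ _ z
      · exact col_size s M r S hr hS (l + 1) _ _ z)
    (T3_Z q r S h (l + 1) _ hr hS hl hc)
  refine Rch.mono key ?_ ?_ (T3_cst q r S h _ hc)
  · rintro _ ⟨⟨a, b⟩, rfl⟩
    refine ⟨a, b, ?_⟩
    have h1 : (fun e : Fin 3 => N ((![Sum.inr (a, b.castSucc), Sum.inl (a, b), Sum.inr (a, b.succ)] :
        Fin 3 → (Fin r × Fin r) ⊕ (Fin r × Fin (r + 1))) e)) =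
        ![col p q s M r l (r * i + a) ((r * j + b) * r ^ l), blk p q s M r l (r * i + a) (r * j + b),
          col p q s M r l (r * i + a) ((r * j + b + 1) * r ^ l)] := by
      rw [hN]
      funext e
      fin_cases e
      · rfl
      · rfl
      · rfl
    unfold F3
    rw [← h1]
  · exact subset_rfl

theorem t4 (s M r h S l i t : ℕ) (B : Fm p) (b : ℕ → ZMod q) (hr : 1 ≤ r) (hl : l + 1 ≤ h) (hB : B.depth ≤ 2) (sB : B.size ≤ S)
    (hd : 2 * h + 8 ≤ d) :
    Rch F d (cst q r S h) {A | ∃ a : Fin r, A = F4 p q s M r B l (r * i + a) t (b a)}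
      {F4 p q s M r B (l + 1) i t (∑ a : Fin r, b a)} := by
  have hS : 1 ≤ S := (size_pos B).trans sB
  obtain ⟨N, hN⟩ : ∃ N : Fin r → ZMod q → Fm p, N = fun x : Fin r => col p q s M r l (r * i + x) t := ⟨_, rfl⟩
  have hc : Fintype.card (Fin r) ≤ 3 * r ^ 2 := by
    rw [Fintype.card_fin]
    nlinarith
  have hNd : ∀ x z, (N x z).depth ≤ 2 * (l + 1) + 2 := by
    intro x z
    rw [hN]
    exact (col_depth s M r l _ _ z).trans (by omega)
  have hNs : ∀ x z, (N x z).size ≤ sz q r S (l + 1) := by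
    intro x z
    rw [hN]
    exact (col_size s M r S hr hS l _ _ z).trans (sz_mono q r S (Nat.le_succ l))
  have hcol : (SumF fun a : Fin r => N a) = col p q s M r (l + 1) i t := by
    rw [hN, col]
  have key := step (F := F) (d := d) (K := Fin r) B N (fun k _ => k) (fun _ => ![1, 0, 0]) (fun k => b k)
    ![col p q s M r (l + 1) i t, col p q s M r (l + 1) i t, col p q s M r (l + 1) i t]
    (fun _ v => ∑ a : Fin r, v a)
    (by
      intro e
      have h1 := par_sum B N (fun a : Fin r => a)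
      rw [hcol] at h1
      fin_cases e
      · exact h1
      · exact h1
      · exact h1)
    ![1, 0, 0] (∑ a : Fin r, b a)
    (fun x => ⟨x, 0, rfl⟩)
    (by
      intro v hv
      have h1 : ∀ a : Fin r, v a = b a := by
        intro a
        have h2 := hv a
        rw [Fin.sum_univ_three] at h2
        simpa using h2
      rw [Fin.sum_univ_three]
      show 1 * (∑ a : Fin r, v a) + 0 * (∑ a : Fin r, v a) + 0 * (∑ a : Fin r, v a) = ∑ a : Fin r, b a
      rw [one_mul, zero_mul, add_zero, add_zero]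
      exact Finset.sum_congr rfl fun a _ => h1 a)
    (e := 2 * (l + 1) + 2) (s := sz q r S (l + 1)) (Z := 60 * r ^ 2 * q ^ 4 * sz q r S h)
    (hB.trans (by omega)) hNd
    (by
      intro e z
      fin_cases e
      · exact (col_depth s M r (l + 1) _ _ z).trans (by omega)
      · exact (col_depth s M r (l + 1) _ _ z).trans (by omega)
      · exact (col_depth s M r (l + 1) _ _ z).trans (by omega))
    (by omega) (sB.trans (sz_ge q r S (l + 1))) hNs
    (by
      intro e z
      fin_cases e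
      · exact col_size s M r S hr hS (l + 1) _ _ z
      · exact col_size s M r S hr hS (l + 1) _ _ z
      · exact col_size s M r S hr hS (l + 1) _ _ z)
    (T3_Z q r S h (l + 1) _ hr hS hl hc)
  refine Rch.mono key ?_ ?_ (T3_cst q r S h _ hc)
  · rintro _ ⟨a, rfl⟩
    refine ⟨a, ?_⟩
    have h1 : (fun _ : Fin 3 => N a) = ![col p q s M r l (r * i + a) t, col p q s M r l (r * i + a) t,
        col p q s M r l (r * i + a) t] := by
      rw [hN]
      funext e
      fin_cases e
      · rfl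
      · rfl
      · rfl
    unfold F4 Fact1
    rw [← h1]
  · exact subset_rfl

end ACpHier
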