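import Pool.Agent.H42.SH.Defs
import Pool.Agent.H65.AF.Comb
import Pool.Agent.H56.AF.BDefs

/-!
helper42 (project MP_28250c_SH): facts with a side formula, block sums and column sums of the CNF `ASM M q`.
-/

set_option autoImplicit false

namespace ACpHier

open ACpFrege ACpB

variable {p q : ℕ} [NeZero q]

/-- `LinF N c b` or the side formula `B`. -/
noncomputable def Fact (B : Fm p) (N : Fin 3 → ZMod q → Fm p) (c : Fin 3 → ZMod q) (b : ZMod q) : Fm p :=
  cnL true [LinF N c b, B]

/-- The atoms: the formulas of the nodes and the side formula. -/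
def atm {κ : Type} (B : Fm p) (N : κ → ZMod q → Fm p) : Option (κ × ZMod q) → Fm p
  | none => B
  | some x => N x.1 x.2

/-- The node `P` is built from the nodes `N i`, its value is `g` of their values. -/
def Par {κ : Type} (B : Fm p) (N : κ → ZMod q → Fm p) (P : ZMod q → Fm p) (g : (κ → ZMod q) → ZMod q) : Prop :=
  ∃ T : ZMod q → Tm (Option (κ × ZMod q)), (∀ j, (T j).sb (atm B N) = P j) ∧
    ∀ (σ : Option (κ × ZMod q) → Prop) (v : κ → ZMod q), (∀ i, Has (fun j => σ (some (i, j))) (v i)) →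
      Has (fun j => (T j).tr σ) (g v)

variable {M : ℕ}

/-- The node of a variable of the CNF (shifted by `s`); `none` is the node with the constant value 0. -/
def LN (p q s : ℕ) {M : ℕ} : Option (Vr M) → ZMod q → Fm p
  | some ν => fun j => .var (bvar q ν j + s)
  | none => fun j => cnL (decide (j ≠ 0)) []

/-- `x_uv`, or the constant 0 outside the matrix. -/
def nx (M u v : ℕ) : Option (Vr M) := if h : u < M ∧ v < M then some (.inl (⟨u, h.1⟩, ⟨v, h.2⟩)) else none

/-- `y_(v,t)`, `y_(v,M)` for `t ≥ M`, the constant 0 for `v ≥ M`. -/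
def ny (M v t : ℕ) : Option (Vr M) := if h : v < M then some (.inr (⟨v, h⟩, ⟨min t M, by omega⟩)) else none

/-- The sum of the block with corner `(i r^l, j r^l)` and side `r^l`. -/
noncomputable def blk (p q s M r : ℕ) [NeZero q] : ℕ → ℕ → ℕ → ZMod q → Fm p
  | 0, i, j => LN p q s (nx M i j)
  | l + 1, i, j => SumF fun x : Fin r × Fin r => blk p q s M r l (r * i + x.1) (r * j + x.2)

/-- The sum of `y_(v,t)` over `i r^l ≤ v < (i + 1) r^l`. -/
noncomputable def col (p q s M r : ℕ) [NeZero q] : ℕ → ℕ → ℕ → ZMod q → Fm p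
  | 0, i, t => LN p q s (ny M i t)
  | l + 1, i, t => SumF fun x : Fin r => col p q s M r l (r * i + x) t

/-- A fact about one node. -/
noncomputable def Fact1 (B : Fm p) (N : ZMod q → Fm p) (b : ZMod q) : Fm p := Fact B ![N, N, N] ![1, 0, 0] b

/-- `blk i j + blk j i = 0`. -/
noncomputable def F1 (p q s M r : ℕ) [NeZero q] (B : Fm p) (l i j : ℕ) : Fm p :=
  Fact B ![blk p q s M r l i j, blk p q s M r l j i, blk p q s M r l i j] ![1, 1, 0] 0

/-- `blk i i = 0`. -/
noncomputable def F2 (p q s M r : ℕ) [NeZero q] (B : Fm p) (l i : ℕ) : Fm p := Fact1 B (blk p q s M r l i i) 0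

/-- `col i (j r^l) + blk i j = col i ((j + 1) r^l)`. -/
noncomputable def F3 (p q s M r : ℕ) [NeZero q] (B : Fm p) (l i j : ℕ) : Fm p :=
  Fact B ![col p q s M r l i (j * r ^ l), blk p q s M r l i j, col p q s M r l i ((j + 1) * r ^ l)] ![1, 1, -1] 0

/-- `col i t = b`. -/
noncomputable def F4 (p q s M r : ℕ) [NeZero q] (B : Fm p) (l i t : ℕ) (b : ZMod q) : Fm p := Fact1 B (col p q s M r l i t) b

/-- The value of the first column sum of height `i`: 1 for `i = 0`. -/
def e0 (q i : ℕ) : ZMod q := if i = 0 then 1 else 0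

/-- The facts of level `l`; `T` is the right border. -/
noncomputable def FS (p q s M r h T : ℕ) [NeZero q] (B : Fm p) (l : ℕ) : Set (Fm p) :=
  {A | ∃ i j, i < r ^ (h - l) ∧ j < r ^ (h - l) ∧ (A = F1 p q s M r B l i j ∨ A = F2 p q s M r B l i ∨ A = F3 p q s M r B l i j ∨
    A = F4 p q s M r B l i 0 0 ∨ A = F4 p q s M r B l i T (e0 q i))}

/-- The clauses with the side formula. -/
def HC (p q s M : ℕ) (B : Fm p) : Set (Fm p) := {A | ∃ C ∈ ASM M q, A = cnL true [clauseFm (shiftC s C), B]}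

/-- The size of the nodes of level `l`. -/
def sz (q r S l : ℕ) : ℕ := (4 * q) ^ (l * r ^ 2) * S

/-- The cost of one step. -/
def cst (q r S h : ℕ) : ℕ := 2 ^ (3 * r ^ 2 * q + 4 * q + 1) * (30 * (60 * r ^ 2 * q ^ 4 * sz q r S h) ^ 2)

end ACpHier
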