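import Pool.Agent.H42.SH.T1
import Pool.Agent.H42.SH.T3
import Pool.Agent.H42.SH.LeafF
import Pool.Agent.H42.SH.RootT

/-!
ROW Tree (about 130 lines): the recursion. PROOF of `levels`: induction on `l`. `FS .. l` is the union over `(i, j) ∈ range (r^(h-l)) ×ˢ range (r^(h-l))` of the five facts (`Rch.biUnion` with cost `5 * cst` per pair, `Rch.union` four times, `Rch.mono`; card `≤ (r^h)^2`).
`l = 0`: `f1` .. `f5`. `l + 1 ≤ h`: `t1`, `t2`, `t3`, `t4` (with `b := 0`, and with `b a := e0 q (r i + a)`, `∑ a, e0 q (r i + a) = e0 q i`: for `i = 0` only `a = 0` counts, `1 ≤ r`; for `i > 0` all are 0) from `FS .. l`: the indices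
`r i + a < r^(h-l)` as `i < r^(h-l-1)`, `a < r`; `Rch.mono` for the hypotheses; `Rch.comp` with the induction hypothesis. `thmU`: `levels` with `l = h` and `root`.
-/

set_option autoImplicit false

namespace ACpHier

open ACpFrege ACpB

variable {p q : ℕ} [NeZero q] {F : CNF} {d : ℕ}

omit [NeZero q] in
private theorem Tree_e0 {r : ℕ} (hr : 1 ≤ r) (i : ℕ) : ∑ a : Fin r, e0 q (r * i + a) = e0 q i := by
  by_cases hi : i = 0
  · subst hi
    have h1 : ∀ a : Fin r, e0 q (r * 0 + a) = if a = (⟨0, hr⟩ : Fin r) then 1 else 0 := by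
      intro a
      unfold e0
      rw [mul_zero, zero_add]
      by_cases ha : a.val = 0
      · rw [if_pos ha, if_pos (Fin.ext ha)]
      · rw [if_neg ha, if_neg (fun h => ha (by rw [h]))]
    rw [Finset.sum_congr rfl fun a _ => h1 a, Finset.sum_ite_eq' Finset.univ (⟨0, hr⟩ : Fin r), if_pos (Finset.mem_univ _)]
    unfold e0
    rw [if_pos rfl]
  · have h1 : ∀ a : Fin r, e0 q (r * i + a) = 0 := by
      intro a
      unfold e0
      have h2 : 0 < r * i := Nat.mul_pos hr (Nat.pos_of_ne_zero hi)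
      rw [if_neg (by omega)]
    rw [Finset.sum_congr rfl fun a _ => h1 a, Finset.sum_const_zero]
    unfold e0
    rw [if_neg hi]

private theorem Tree_FS {s M r h T l c : ℕ} {B : Fm p} {H : Set (Fm p)} (hr : 1 ≤ r)
    (h1 : ∀ i j, i < r ^ (h - l) → j < r ^ (h - l) → Rch F d c H {F1 p q s M r B l i j})
    (h2 : ∀ i, i < r ^ (h - l) → Rch F d c H {F2 p q s M r B l i})
    (h3 : ∀ i j, i < r ^ (h - l) → j < r ^ (h - l) → Rch F d c H {F3 p q s M r B l i j})
    (h4 : ∀ i, i < r ^ (h - l) → Rch F d c H {F4 p q s M r B l i 0 0})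
    (h5 : ∀ i, i < r ^ (h - l) → Rch F d c H {F4 p q s M r B l i T (e0 q i)}) :
    Rch F d (5 * (r ^ h) ^ 2 * c) H (FS p q s M r h T B l) := by
  classical
  have h6 : ∀ x ∈ Finset.range (r ^ (h - l)) ×ˢ Finset.range (r ^ (h - l)), Rch F d (c + (c + (c + (c + c)))) H
      ((fun x : ℕ × ℕ => ({F1 p q s M r B l x.1 x.2} ∪ ({F2 p q s M r B l x.1} ∪ ({F3 p q s M r B l x.1 x.2} ∪
        ({F4 p q s M r B l x.1 0 0} ∪ {F4 p q s M r B l x.1 T (e0 q x.1)}))) : Set (Fm p))) x) := by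
    intro x hx
    rw [Finset.mem_product, Finset.mem_range, Finset.mem_range] at hx
    exact (h1 _ _ hx.1 hx.2).union ((h2 _ hx.1).union ((h3 _ _ hx.1 hx.2).union ((h4 _ hx.1).union (h5 _ hx.1))))
  refine Rch.mono (Rch.biUnion _ _ h6) subset_rfl ?_ ?_
  · rintro A ⟨i, j, hi, hj, hA⟩
    rw [Set.mem_iUnion₂]
    refine ⟨(i, j), by rw [Finset.mem_product, Finset.mem_range, Finset.mem_range]; exact ⟨hi, hj⟩, ?_⟩
    rcases hA with hA | hA | hA | hA | hA
    · exact Or.inl hA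
    · exact Or.inr (Or.inl hA)
    · exact Or.inr (Or.inr (Or.inl hA))
    · exact Or.inr (Or.inr (Or.inr (Or.inl hA)))
    · exact Or.inr (Or.inr (Or.inr (Or.inr hA)))
  · rw [Finset.card_product, Finset.card_range]
    have h7 : r ^ (h - l) ≤ r ^ h := Nat.pow_le_pow_right hr (Nat.sub_le _ _)
    calc r ^ (h - l) * r ^ (h - l) * (c + (c + (c + (c + c)))) ≤ r ^ h * r ^ h * (c + (c + (c + (c + c)))) :=
          Nat.mul_le_mul_right _ (Nat.mul_le_mul h7 h7)
      _ = 5 * (r ^ h) ^ 2 * c := by ring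

private theorem Tree_lt {r h l : ℕ} (hl : l + 1 ≤ h) {i : ℕ} (hi : i < r ^ (h - (l + 1))) (a : Fin r) :
    r * i + a < r ^ (h - l) := by
  have h1 : h - l = (h - (l + 1)) + 1 := by omega
  rw [h1, pow_succ]
  have h2 := a.isLt
  calc r * i + a < r * i + r := by omega
    _ = (i + 1) * r := by ring
    _ ≤ r ^ (h - (l + 1)) * r := Nat.mul_le_mul_right _ hi

theorem levels (s M r h S T : ℕ) (B : Fm p) (hM : 0 < M) (hT : M ≤ T) (hr : 1 ≤ r) (hB : B.depth ≤ 2) (sB : B.size ≤ S)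
    (hd : 2 * h + 8 ≤ d) (l : ℕ) (hl : l ≤ h) :
    Rch F d ((l + 1) * (5 * (r ^ h) ^ 2 * cst q r S h)) (HC p q s M B) (FS p q s M r h T B l) := by
  induction l with
  | zero =>
    have hd8 : 8 ≤ d := by omega
    rw [zero_add, one_mul]
    exact Tree_FS hr (fun i j _ _ => f1 s M r h S i j B hM hr hB sB hd8) (fun i _ => f2 s M r h S i B hM hr hB sB hd8)
      (fun i j _ _ => f3 s M r h S i j B hM hr hB sB hd8) (fun i _ => f4 s M r h S i B hM hr hB sB hd8)
      (fun i _ => f5 s M r h S i T B hM hT hr hB sB hd8)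
  | succ l ih =>
    have h0 := ih (by omega)
    have h1 : Rch F d (5 * (r ^ h) ^ 2 * cst q r S h) (FS p q s M r h T B l) (FS p q s M r h T B (l + 1)) := by
      have hz : r ^ (h - (l + 1)) ≤ r ^ (h - l) := Nat.pow_le_pow_right hr (by omega)
      refine Tree_FS hr (fun i j hi hj => ?_) (fun i hi => ?_) (fun i j hi hj => ?_) (fun i hi => ?_) (fun i hi => ?_)
      · refine Rch.mono (t1 s M r h S l i j B hr hl hB sB hd) ?_ subset_rfl le_rfl
        rintro A ⟨a, b, rfl⟩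
        exact ⟨_, _, Tree_lt hl hi a, Tree_lt hl hj b, Or.inl rfl⟩
      · refine Rch.mono (t2 s M r h S l i B hr hl hB sB hd) ?_ subset_rfl le_rfl
        rintro A (⟨a, b, rfl⟩ | ⟨a, rfl⟩)
        · exact ⟨_, _, Tree_lt hl hi a, Tree_lt hl hi b, Or.inl rfl⟩
        · exact ⟨_, _, Tree_lt hl hi a, Tree_lt hl hi a, Or.inr (Or.inl rfl)⟩
      · refine Rch.mono (t3 s M r h S l i j B hr hl hB sB hd) ?_ subset_rfl le_rfl
        rintro A ⟨a, b, rfl⟩
        exact ⟨_, _, Tree_lt hl hi a, Tree_lt hl hj b, Or.inr (Or.inr (Or.inl rfl))⟩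
      · have h2 := t4 (p := p) (q := q) (F := F) (d := d) s M r h S l i 0 B (fun _ => 0) hr hl hB sB hd
        rw [Finset.sum_const_zero] at h2
        refine Rch.mono h2 ?_ subset_rfl le_rfl
        rintro A ⟨a, rfl⟩
        exact ⟨_, _, Tree_lt hl hi a, Tree_lt hl hi a, Or.inr (Or.inr (Or.inr (Or.inl rfl)))⟩
      · have h2 := t4 (p := p) (q := q) (F := F) (d := d) s M r h S l i T B (fun a => e0 q (r * i + a)) hr hl hB sB hd
        rw [Tree_e0 hr i] at h2
        refine Rch.mono h2 ?_ subset_rfl le_rfl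
        rintro A ⟨a, rfl⟩
        exact ⟨_, _, Tree_lt hl hi a, Tree_lt hl hi a, Or.inr (Or.inr (Or.inr (Or.inr rfl)))⟩
    refine Rch.mono (Rch.comp h0 h1) subset_rfl subset_rfl (le_of_eq ?_)
    ring

/-- From all clauses of `ASM M q` with the side formula `B` one derives `B`. -/
theorem thmU (s M r h S : ℕ) (B : Fm p) (hq : 2 ≤ q) (hM : 0 < M) (hr : 1 ≤ r) (hMr : M ≤ r ^ h) (hB : B.depth ≤ 2)
    (sB : B.size ≤ S) (hd : 2 * h + 8 ≤ d) :
    Rch F d ((h + 2) * (5 * (r ^ h) ^ 2 * cst q r S h)) (HC p q s M B) {B} := by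
  have h1 := levels (p := p) (q := q) (F := F) (d := d) s M r h S (r ^ h) B hM hMr hr hB sB hd h le_rfl
  have h2 := root (p := p) (q := q) (F := F) (d := d) s M r h S B hq hr hB sB hd
  refine Rch.mono (Rch.comp h1 h2) subset_rfl subset_rfl ?_
  have h3 : 1 ≤ (r ^ h) ^ 2 := Nat.one_le_pow _ _ (Nat.one_le_pow _ _ hr)
  have h4 : cst q r S h ≤ 5 * (r ^ h) ^ 2 * cst q r S h := Nat.le_mul_of_pos_left _ (by omega)
  calc (h + 1) * (5 * (r ^ h) ^ 2 * cst q r S h) + cst q r S h ≤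
      (h + 1) * (5 * (r ^ h) ^ 2 * cst q r S h) + 5 * (r ^ h) ^ 2 * cst q r S h := Nat.add_le_add_left h4 _
    _ = (h + 2) * (5 * (r ^ h) ^ 2 * cst q r S h) := by ring

end ACpHier
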